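import Pool.Agent.X316.ZG.Uni
import Pool.Agent.Helper240.ZU.F

/-!
The Riemann zeta function is universal in the sense of `JointlyUniversal`. This is Voronin's
theorem, which is proved in `Helper240/ZU`; the proof of `zeta_mero` is that of `TH958/An/Zeta`.
-/

set_option autoImplicit false

open Filter Topology Metric Set MeasureTheory

namespace Pool.Agent.X316.ZG

/-- `(s - 1) ζ(s)` with the right value at `1` -/
noncomputable def Z1 : ℂ → ℂ := Function.update (fun s => (s - 1) * riemannZeta s) 1 1

theorem Z1_ne {s : ℂ} (hs : s ≠ 1) : Z1 s = (s - 1) * riemannZeta s := by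
  rw [Z1, Function.update_of_ne hs]

theorem Z1_analytic : AnalyticAt ℂ Z1 1 := by
  apply Complex.analyticAt_of_differentiable_on_punctured_nhds_of_continuousAt
  · filter_upwards [self_mem_nhdsWithin] with t ht
    have h1 : DifferentiableAt ℂ (fun s : ℂ => (s - 1) * riemannZeta s) t :=
      (differentiableAt_id.sub_const 1).mul (differentiableAt_riemannZeta ht)
    refine h1.congr_of_eventuallyEq ?_
    filter_upwards [isOpen_ne.mem_nhds ht] with u hu
    exact Z1_ne hu
  · rw [Z1, continuousAt_update_same]
    exact riemannZeta_residue_one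

theorem zeta_mero : Meromorphic riemannZeta := by
  intro z
  by_cases hz : z = 1
  · subst hz
    have h1 : MeromorphicAt (fun s : ℂ => (s - 1)⁻¹ * Z1 s) 1 := by
      refine MeromorphicAt.mul ?_ Z1_analytic.meromorphicAt
      exact ((analyticAt_id.sub analyticAt_const).meromorphicAt).inv
    refine h1.congr ?_
    filter_upwards [self_mem_nhdsWithin] with s hs
    have hs' : s - 1 ≠ 0 := sub_ne_zero.2 hs
    rw [Z1_ne hs, inv_mul_cancel_left₀ hs']
  · refine AnalyticAt.meromorphicAt ?_
    have hd : DifferentiableOn ℂ riemannZeta {s | s ≠ 1} := fun s hs =>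
      (differentiableAt_riemannZeta hs).differentiableWithinAt
    exact hd.analyticAt (isOpen_ne.mem_nhds hz)

/-- **Voronin's theorem** in the form used here. -/
theorem zeta_universal : JointlyUniversal fun _ : Unit => riemannZeta where
  mero := fun _ => zeta_mero
  approx := by
    intro J
    refine ⟨1 / 8, by norm_num, fun q hq ε hε => ?_⟩
    by_cases hJ : () ∈ J
    · obtain ⟨c, T0, hc, hT0, h⟩ := ZU.voronin_general
        (closedBall (3 / 4 : ℂ) (1 / 8)) (isCompact_closedBall _ _) (by
          intro z hz
          rw [mem_closedBall, dist_eq_norm] at hz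
          have h1 := (Complex.abs_re_le_norm (z - 3 / 4)).trans hz
          rw [abs_le] at h1
          have h2 : (z - 3 / 4).re = z.re - 3 / 4 := by
            rw [Complex.sub_re]
            norm_num
          rw [h2] at h1
          constructor <;> linarith [h1.1, h1.2])
        (fun z => Complex.exp (q ⟨(), hJ⟩ (z - 3 / 4))) (fun η hη =>
          ⟨fun z => q ⟨(), hJ⟩ (z - 3 / 4), (hq _).comp (by fun_prop), fun z _ => by
            rw [sub_self, norm_zero]
            exact hη⟩) ε hε
      have h1 := h T0 le_rfl
      have h2 : (0 : ENNReal) < ENNReal.ofReal (c * T0) := ENNReal.ofReal_pos.2 (by positivity)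
      have h3 := h2.trans_le h1
      obtain ⟨t, ht⟩ := nonempty_of_measure_ne_zero h3.ne'
      obtain ⟨-, δ, hδ, hz⟩ := ht
      refine ⟨3 / 4 + t * Complex.I, fun j => ⟨fun s hs => ?_, fun s hs => ?_⟩⟩
      · refine (differentiableAt_riemannZeta fun hs1 => ?_).differentiableWithinAt
        rw [hs1, mem_ball, dist_eq_norm] at hs
        have h4 := (Complex.abs_re_le_norm (1 - (3 / 4 + (t : ℂ) * Complex.I))).trans_lt hs
        have h5 : (1 - (3 / 4 + (t : ℂ) * Complex.I)).re = 1 / 4 := by
          simp
          norm_num
        rw [h5] at h4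
        norm_num at h4
      · have hj : j = ⟨(), hJ⟩ := Subtype.ext rfl
        rw [hj]
        have h4 := hz (3 / 4 + s) (by
          rw [mem_closedBall, dist_eq_norm, add_sub_cancel_left]
          rw [mem_ball_zero_iff] at hs
          exact hs.le)
        have h5 : (3 / 4 + s : ℂ) + t * Complex.I = 3 / 4 + t * Complex.I + s := by ring
        rw [h5, add_sub_cancel_left] at h4
        exact h4.trans_lt hδ
    · refine ⟨0, fun j => absurd j.2 ?_⟩
      have h1 : j.1 = () := rfl
      rwa [h1]

end Pool.Agent.X316.ZG
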