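import Pool.Agent.X316.ZG.Log4
import Pool.Agent.W603.GR.Fin
import Pool.Agent.TH143.GT.Close

/-!
The closure of an entire curve as a subvariety; varieties strongly of logarithmic general type.
-/

set_option autoImplicit false

open Filter Topology Set MvPolynomial

namespace Pool.Agent.X316.ZG

open scoped LinearAlgebra.Projectivization
open Pool.Agent.TH143.EL (HolMap Rep InV rep_rep rep_smul)
open Pool.Agent.TH143.GT (FunField)
open Pool.Agent.W602.GT (IsForm LogGeneralType coords)
open Pool.Agent.W603.GR (OffQ SubLogGT SubVarP)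
open Pool.Agent.W603.PV (IsHomog)
open Pool.Agent.Y377.IL (form_rep form_scale)

variable {N : ℕ} {ι : Type}

/-- the closure of an entire curve as a variety -/
theorem closure_fun {f : ℂ → ℙ ℂ (Fin (N + 1) → ℂ)} (hf : HolMap f) :
    ∃ (K : Type) (_ : Field K) (_ : Algebra ℂ K) (w : ℕ) (y : Fin (N + 1) → K),
      y ≠ 0 ∧ coords ℂ y = ⊤ ∧ Algebra.trdeg ℂ K = w ∧
      (∀ G : MvPolynomial (Fin (N + 1)) ℂ, IsForm G →
        (W602.GT.val y G = 0 ↔ ∀ z, eval (f z).rep G = 0)) ∧
      (w = 0 → ∀ z z', f z = f z') := by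
  classical
  obtain ⟨l, hl0⟩ := Function.ne_iff.1 (f 0).rep_nonzero
  obtain ⟨hm, hne⟩ := Pool.Agent.Y125.IL.t_RT N f hf l ⟨0, hl0⟩
  let h : Fin (N + 1) → ℂ → ℂ := fun j z => (f z).rep j / (f z).rep l
  have hr : ∀ᶠ z in codiscrete ℂ, Rep (f z) fun j => h j z := by
    filter_upwards [hne] with z hz
    have h1 : (fun j => h j z) = fun j => ((f z).rep l)⁻¹ * (f z).rep j := by
      funext j
      change (f z).rep j / (f z).rep l = _
      rw [div_eq_inv_mul]
    rw [h1]
    exact (rep_smul (inv_ne_zero hz)).2 (rep_rep (f z))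
  let Y : Fin (N + 1) → Mf := fun j => cl (h j) (hm j)
  have hYl : Y l = 1 := by
    have h1 : Y l = cl (fun _ => (1 : ℂ)) (Meromorphic.const 1) := by
      refine cl_eq ?_
      filter_upwards [hne] with z hz
      exact div_self hz
    rw [h1]
    rfl
  let E : IntermediateField ℂ Mf := IntermediateField.adjoin ℂ (Set.range Y)
  let y : Fin (N + 1) → E := fun j => ⟨Y j, IntermediateField.subset_adjoin _ _ ⟨j, rfl⟩⟩
  have hyl : y l = 1 := Subtype.ext hYl
  have htop : IntermediateField.adjoin ℂ (Set.range y) = (⊤ : IntermediateField ℂ E) := by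
    have h2 : (IntermediateField.adjoin ℂ (Set.range y)).map E.val =
        (⊤ : IntermediateField ℂ E).map E.val := by
      rw [IntermediateField.adjoin_map, ← AlgHom.fieldRange_eq_map, IntermediateField.fieldRange_val,
        ← Set.range_comp]
      rfl
    exact IntermediateField.map_injective E.val h2
  have hgen : coords ℂ y = ⊤ := by
    rw [eq_top_iff, ← htop, IntermediateField.adjoin_le_iff]
    rintro _ ⟨j, rfl⟩
    refine IntermediateField.subset_adjoin _ _ ⟨j, l, ?_, ?_⟩
    · rw [hyl]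
      exact one_ne_zero
    · rw [hyl, div_one]
  have hfg : (⊤ : IntermediateField ℂ E).FG := by
    rw [← htop]
    exact IntermediateField.fg_adjoin_of_finite (Set.finite_range y)
  have hval : ∀ G : MvPolynomial (Fin (N + 1)) ℂ, IsForm G →
      (W602.GT.val y G = 0 ↔ ∀ z, eval (f z).rep G = 0) := by
    intro G hG
    rw [← form_rep hf hr hG, ← aeval_cl_zero h hm G]
    have e5 : ((aeval y G : E) : Mf) = aeval Y G :=
      MvPolynomial.comp_aeval_apply (f := y) E.val G
    change _ ↔ aeval Y G = 0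
    rw [← e5]
    exact Subtype.ext_iff
  have hess : Algebra.EssFiniteType ℂ E := Pool.Agent.TH143.GT.ess_of_coords hgen
  obtain ⟨w, hw⟩ := Cardinal.lt_aleph0.1 (trdeg_lt_aleph0 ℂ E)
  refine ⟨E, inferInstance, inferInstance, w, y, ?_, hgen, hw, hval, fun hw0 => ?_⟩
  · intro h0
    have h1 := congrFun h0 l
    rw [hyl] at h1
    exact one_ne_zero h1
  · rw [hw0, Nat.cast_zero] at hw
    have hw := trdeg_eq_zero_iff.1 hw
    have hc : ∀ j, ∃ c : ℂ, y j = algebraMap ℂ E c := by
      intro j
      have h3 : IsIntegral ℂ (y j) := (hw.isAlgebraic (y j)).isIntegral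
      have h4 := IsAlgClosed.degree_eq_one_of_irreducible ℂ (minpoly.irreducible h3)
      obtain ⟨c, hc⟩ := minpoly.mem_range_of_degree_eq_one ℂ (y j) h4
      exact ⟨c, hc.symm⟩
    choose c' hc' using hc
    have hlin : ∀ z j, (f z).rep j = c' j * (f z).rep l := by
      intro z j
      have h3 : (X j - C (c' j) * X l : MvPolynomial (Fin (N + 1)) ℂ).IsHomogeneous 1 := by
        refine (isHomogeneous_X _ _).sub ?_
        have := (isHomogeneous_C (Fin (N + 1)) (c' j)).mul (isHomogeneous_X ℂ l)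
        rwa [zero_add] at this
      have h4 : eval (f z).rep (X j - C (c' j) * X l) = 0 := by
        refine (hval _ ⟨1, h3⟩).1 ?_ z
        unfold W602.GT.val
        rw [map_sub, map_mul, aeval_X, aeval_X, hyl, mul_one, hc' j,
          ← MvPolynomial.algebraMap_eq, AlgHom.commutes, sub_self]
      rw [map_sub, map_mul, eval_X, eval_X, eval_C] at h4
      exact sub_eq_zero.1 h4
    intro z z'
    have hne' : ∀ z, (f z).rep l ≠ 0 := by
      intro z h3
      apply (f z).rep_nonzero
      funext j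
      rw [hlin z j, h3, mul_zero]
      rfl
    rw [← (f z).mk_rep, ← (f z').mk_rep, Projectivization.mk_eq_mk_iff']
    refine ⟨(f z).rep l / (f z').rep l, ?_⟩
    funext j
    rw [Pi.smul_apply, smul_eq_mul, hlin z j, hlin z' j]
    have := hne' z'
    field_simp

variable {p : Ideal (MvPolynomial (Fin (N + 1)) ℂ)} {Q : MvPolynomial (Fin (N + 1)) ℂ} {d : ℕ}
  {u : ι → ℂ → ℂ} {f : ℂ → ℙ ℂ (Fin (N + 1) → ℂ)}

/-- If all subvarieties of positive dimension which are not contained in `G = 0` are of logarithmic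
general type, then the nonconstant curves lie in `G = 0`. -/
theorem log_sub (hu : JointlyUniversal u) (hd : 0 < d) (hp : IsHomog p) (hQ : Q.IsHomogeneous d)
    {G : MvPolynomial (Fin (N + 1)) ℂ} (hG : IsForm G) (h : SubLogGT p Q d G)
    (hf : LogCurve p Q d u f) : (∀ z z', f z = f z') ∨ ∀ z, eval (f z).rep G = 0 := by
  by_contra hcon
  rw [not_or] at hcon
  obtain ⟨hnc, hfG⟩ := hcon
  obtain ⟨K, i1, i2, w, y, h1, h2, h3, h4, h5⟩ := closure_fun hf.hol
  have hw : 1 ≤ w := by
    rcases Nat.eq_zero_or_pos w with h6 | h6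
    · exact absurd (h5 h6) hnc
    · exact h6
  have hfp : ∀ H ∈ p, ∀ z, eval (f z).rep H = 0 := by
    intro H hH z
    rw [← sum_homogeneousComponent H, map_sum]
    refine Finset.sum_eq_zero fun i _ => ?_
    exact hf.mem z _ (hp H hH i) ⟨i, homogeneousComponent_isHomogeneous i H⟩
  have hsub : SubVarP p Q K w y := by
    refine ⟨h1, fun H hH => ?_, ?_, h2, h3⟩
    · rw [← sum_homogeneousComponent H]
      unfold W602.GT.val
      rw [map_sum]
      refine Finset.sum_eq_zero fun i _ => ?_
      exact (h4 _ ⟨i, homogeneousComponent_isHomogeneous i H⟩).2 fun z =>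
        hfp _ (hp H hH i) z
    · intro h0
      exact hf.off 0 ((h4 Q ⟨d, hQ⟩).1 h0 0)
  have hGy : W602.GT.val y G ≠ 0 := fun h0 => hfG ((h4 G hG).1 h0)
  -- the ideal of the closure
  let I' : Ideal (MvPolynomial (Fin (N + 1)) ℂ) :=
    Ideal.span {H | IsForm H ∧ W602.GT.val y H = 0}
  have hI' : I' ≤ RingHom.ker (aeval y : MvPolynomial (Fin (N + 1)) ℂ →ₐ[ℂ] K) := by
    rw [Ideal.span_le]
    intro H hH
    exact hH.2
  have hy : FunField I' Q K w y := by
    refine ⟨⟨h1, fun H hH => hI' hH, hsub.off, h2, h3⟩, fun H hH h0 => ?_⟩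
    exact Ideal.subset_span ⟨hH, h0⟩
  have hf' : LogCurve I' Q d u f := by
    refine ⟨hf.hol, fun z H hH hHf => ?_, hf.off, hf.built⟩
    have h6 : W602.GT.val y H = 0 := hI' hH
    exact (h4 H hHf).1 h6 z
  rcases log_lgt hu hd hQ hf' hy (fun H hH h0 => Ideal.subset_span ⟨hH, (h4 H hH).2 h0⟩) with
    h6 | h6
  · exact hnc h6
  · exact h6 (h K w y hw hsub hGy)

end Pool.Agent.X316.ZG
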