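import Pool.Agent.X316.ZG.Cur
import Pool.Agent.Y737.IL.Rc

/-!
Curves in algebraic sets: the locus which contains all rational curves. The proof of `rc_cov` is
adapted from `RatFam.rc` in `Y377/IL/Rc`.
-/

set_option autoImplicit false

open Filter Topology Set MvPolynomial

namespace Pool.Agent.X316.ZG

open scoped LinearAlgebra.Projectivization
open Pool.Agent.TH143.EL (HolMap Rep InV codis_ev codis_nhds mero_an inV_of_punct inV_iff)
open Pool.Agent.TH143.GT (Covered)
open Pool.Agent.TH143.HE (RatCurvesIn)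
open Pool.Agent.Y377.IL (DB IteratedOver AlgRatio algI mem_algI form_scale prop_of_wronskian)

variable {N : ℕ}

/-- forms which vanish on all rational curves vanish at the points with coordinates in fields of
rational functions -/
theorem rc_cov {E : Type} [Field E] [Algebra ℂ E] {M : Type} [Field M] [Algebra ℂ M]
    (φ : E →ₐ[ℂ] RatFunc M) {I : Ideal (MvPolynomial (Fin (N + 1)) ℂ)}
    {G' : MvPolynomial (Fin (N + 1)) ℂ} (hG' : ∃ d, G'.IsHomogeneous d)
    (hcur : ∀ p : Fin (N + 1) → Polynomial ℂ,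
      (∀ G ∈ I, (∃ d, G.IsHomogeneous d) → aeval p G = 0) →
      (∃ j k, Polynomial.derivative (p j) * p k ≠ p j * Polynomial.derivative (p k)) →
        aeval p G' = 0)
    {y : Fin (N + 1) → E} {l : Fin (N + 1)} (hyl : y l = 1)
    (hnc : ∃ j, ∀ c : M, φ (y j) ≠ algebraMap M (RatFunc M) c)
    (hI : ∀ G ∈ I, (∃ d, G.IsHomogeneous d) → aeval y G = 0) : aeval y G' = 0 := by
  classical
  have hM : CharZero M := charZero_of_injective_algebraMap (algebraMap ℂ M).injective
  obtain ⟨b, hb⟩ := IsLocalization.exist_integer_multiples (nonZeroDivisors (Polynomial M))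
    Finset.univ (fun j => φ (y j))
  choose P hP using fun j => hb j (Finset.mem_univ j)
  have hb0 : (b : Polynomial M) ≠ 0 := nonZeroDivisors.ne_zero b.2
  set q : RatFunc M := algebraMap (Polynomial M) (RatFunc M) b with hq
  have hq0 : q ≠ 0 := by
    rw [hq, Ne, map_eq_zero_iff _ (RatFunc.algebraMap_injective M)]
    exact hb0
  have hPq : ∀ j, algebraMap (Polynomial M) (RatFunc M) (P j) = q * φ (y j) := by
    intro j
    rw [hP j, Algebra.smul_def]
  have hPl : P l = b := by
    apply RatFunc.algebraMap_injective M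
    rw [hPq, hyl, map_one, mul_one]
  have hval : ∀ (d : ℕ) (G : MvPolynomial (Fin (N + 1)) ℂ), G.IsHomogeneous d →
      (aeval P G = 0 ↔ aeval y G = 0) := by
    intro d G hG
    have e1 : algebraMap (Polynomial M) (RatFunc M) (aeval P G) = q ^ d * φ (aeval y G) := by
      have e2 : algebraMap (Polynomial M) (RatFunc M) (aeval P G) =
          aeval (fun j => algebraMap (Polynomial M) (RatFunc M) (P j)) G := by
        have := MvPolynomial.comp_aeval_apply (f := P)
          (IsScalarTower.toAlgHom ℂ (Polynomial M) (RatFunc M)) G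
        exact this
      rw [e2]
      have e3 : (fun j => algebraMap (Polynomial M) (RatFunc M) (P j)) =
          fun j => q * (fun j => φ (y j)) j := funext hPq
      rw [e3, form_scale hG, MvPolynomial.comp_aeval_apply (f := y) φ G]
    rw [← map_eq_zero_iff _ (RatFunc.algebraMap_injective M), e1, mul_eq_zero,
      or_iff_right (pow_ne_zero _ hq0), map_eq_zero_iff φ φ.injective]
  obtain ⟨d', hd'⟩ := hG'
  rw [← hval d' G' hd']
  refine Pool.Agent.Y737.IL.t_RC N I G' ⟨d', hd'⟩ hcur M P (fun G hG hGh => ?_) ?_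
  · obtain ⟨d, hd⟩ := hGh
    rw [hval d G hd]
    exact hI G hG ⟨d, hd⟩
  · obtain ⟨j, hj⟩ := hnc
    refine ⟨j, l, fun hw => ?_⟩
    obtain ⟨c, hc⟩ := prop_of_wronskian (by rw [hPl]; exact hb0) hw
    apply hj c
    have e7 := hPq j
    rw [hc, hPl, map_mul, ← hq] at e7
    have e8 : algebraMap (Polynomial M) (RatFunc M) (Polynomial.C c) =
        algebraMap M (RatFunc M) c := rfl
    rw [e8, mul_comm] at e7
    exact (mul_left_cancel₀ hq0 e7).symm

/-- forms which vanish on the curve outside a discrete set -/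
theorem form_all {f : ℂ → ℙ ℂ (Fin (N + 1) → ℂ)} (hf : HolMap f) {h : Fin (N + 1) → ℂ → ℂ}
    (hr : ∀ᶠ z in codiscrete ℂ, Rep (f z) fun j => h j z) {G : MvPolynomial (Fin (N + 1)) ℂ}
    (hG : ∃ d, G.IsHomogeneous d) (h0 : ∀ᶠ z in codiscrete ℂ, eval (fun j => h j z) G = 0)
    (z : ℂ) : eval (f z).rep G = 0 := by
  have h3 : InV (Ideal.span {G}) (f z) := by
    apply inV_of_punct hf
    filter_upwards [codis_ev h0 z, codis_ev hr z] with w h4 h5
    rw [inV_iff h5]
    intro G2 hG2 _
    obtain ⟨G3, rfl⟩ := Ideal.mem_span_singleton.1 hG2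
    rw [map_mul, h4, zero_mul]
  exact h3 G (Ideal.mem_span_singleton_self G) hG

/-- **Strong form.** A curve in `V(I)` lies in every algebraic set which contains all rational
curves in `V(I)`, or it is constant. -/
theorem strong {ι : Type} {u : ι → ℂ → ℂ} (hu : JointlyUniversal u)
    {I I' : Ideal (MvPolynomial (Fin (N + 1)) ℂ)} (hR : RatCurvesIn (RingHom.id ℂ) I I')
    {f : ℂ → ℙ ℂ (Fin (N + 1) → ℂ)} (hf : HolMap f) (hl : IteratedOver (dring u) f)
    (hI : ∀ z, InV I (f z)) : (∀ z, InV I' (f z)) ∨ ∀ z z', f z = f z' := by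
  classical
  have hB := db_dring hu.mero
  rcases Pool.Agent.Y377.IL.dich_gen hR hB hf hl hI with h1 | h1
  · exact Or.inl h1
  obtain ⟨h, hl, hr⟩ := hl
  have hm : ∀ j, Meromorphic (h j) := fun j => (hl j).mero hB
  have hrat : ∀ i j, AlgRatio (dring u) (h i) (h j) := by
    intro i j
    refine Pool.Agent.Y377.IL.algRatio_scale ?_ (h1 i j)
    filter_upwards [hr] with z h2
    obtain ⟨hv, h3⟩ := h2
    obtain ⟨a, ha⟩ := Projectivization.exists_smul_eq_mk_rep ℂ _ hv
    have h4 : ∀ k, (f z).rep k = (a : ℂ) * h k z := by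
      intro k
      rw [h3, ← ha]
      rfl
    refine ⟨(a : ℂ)⁻¹, ?_, ?_⟩
    · rw [h4, inv_mul_cancel_left₀ a.ne_zero]
    · rw [h4, inv_mul_cancel_left₀ a.ne_zero]
  obtain ⟨l, hl0⟩ : ∃ l, ¬ ∀ᶠ z in codiscrete ℂ, h l z = 0 := by
    by_contra hcon
    push Not at hcon
    obtain ⟨z, h4, h5⟩ := (hr.and (eventually_all.2 hcon)).exists
    obtain ⟨h6, -⟩ := h4
    exact h6 (funext h5)
  let Y : Fin (N + 1) → Mf := fun j => cl (h j) (hm j)
  have hYl : Y l ≠ 0 := fun h4 => hl0 (cl_zero.1 h4)
  let E : IntermediateField ℂ Mf :=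
    IntermediateField.adjoin ℂ (Set.range fun j => Y j / Y l)
  let y : Fin (N + 1) → E := fun j =>
    ⟨Y j / Y l, IntermediateField.subset_adjoin _ _ ⟨j, rfl⟩⟩
  have hyl : y l = 1 := Subtype.ext (div_self hYl)
  have htop : IntermediateField.adjoin ℂ (Set.range y) = (⊤ : IntermediateField ℂ E) := by
    have h2 : (IntermediateField.adjoin ℂ (Set.range y)).map E.val =
        (⊤ : IntermediateField ℂ E).map E.val := by
      rw [IntermediateField.adjoin_map, ← AlgHom.fieldRange_eq_map, IntermediateField.fieldRange_val,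
        ← Set.range_comp]
      rfl
    exact IntermediateField.map_injective E.val h2
  -- algebraicity
  have halg : ∀ j, ∃ T : Finset (ι × ℕ),
      IsAlgebraic (Algebra.adjoin ℂ (xc hu.mero '' (T : Set (ι × ℕ))) : Subalgebra ℂ Mf)
        (E.val (y j)) := fun j => alg_of_ratio hu.mero (hm j) (hm l) hYl (hrat j l)
  choose Te hTe using halg
  let T : Finset (ι × ℕ) := Finset.univ.biUnion Te
  have hall : ∀ e : E,
      IsAlgebraic (Algebra.adjoin ℂ (xc hu.mero '' (T : Set (ι × ℕ))) : Subalgebra ℂ Mf)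
        (E.val e) := by
    intro e
    have h4 : (⊤ : IntermediateField ℂ E) ≤ (algI (Algebra.adjoin ℂ (xc hu.mero ''
        (T : Set (ι × ℕ))) : Subalgebra ℂ Mf)).comap E.val := by
      rw [← htop, IntermediateField.adjoin_le_iff]
      rintro _ ⟨j, rfl⟩
      change E.val (y j) ∈ algI _
      rw [mem_algI]
      have h5 : (Algebra.adjoin ℂ (xc hu.mero '' (Te j : Set (ι × ℕ))) : Subalgebra ℂ Mf) ≤
          Algebra.adjoin ℂ (xc hu.mero '' (T : Set (ι × ℕ))) := by
        apply Algebra.adjoin_mono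
        apply Set.image_mono
        intro v hv
        exact Finset.mem_coe.2 (Finset.mem_biUnion.2 ⟨j, Finset.mem_univ j, hv⟩)
      exact Pool.Agent.Y377.EL.alg_mono h5 (hTe j)
    exact h4 (IntermediateField.mem_top (x := e))
  have hfg : (⊤ : IntermediateField ℂ E).FG := by
    rw [← htop]
    exact IntermediateField.fg_adjoin_of_finite (Set.finite_range y)
  -- values of forms
  have hval : ∀ (G : MvPolynomial (Fin (N + 1)) ℂ), (∃ d, G.IsHomogeneous d) →
      (aeval y G = 0 ↔ ∀ᶠ z in codiscrete ℂ, eval (fun j => h j z) G = 0) := by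
    rintro G ⟨d, hG⟩
    rw [← aeval_cl_zero h hm G]
    have e4 : aeval Y G = Y l ^ d * aeval (fun j => Y j / Y l) G := by
      rw [← form_scale hG]
      congr 2
      funext j
      rw [mul_div_cancel₀ _ hYl]
    have e5 : ((aeval y G : E) : Mf) = aeval (fun j => Y j / Y l) G :=
      MvPolynomial.comp_aeval_apply (f := y) E.val G
    change _ ↔ aeval Y G = 0
    rw [e4, mul_eq_zero, or_iff_right (pow_ne_zero _ hYl), ← e5]
    exact Subtype.ext_iff
  rcases fields hu E.val hfg T.card T rfl hall with ⟨M, i1, i2, φ, r, hr'⟩ | halgC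
  · left
    intro z G' hG' hG'h
    refine form_all hf hr hG'h ?_ z
    rw [← hval G' hG'h]
    refine rc_cov φ (I := I) hG'h (Pool.Agent.Y377.IL.cur_of_rat hR hG' hG'h) hyl ?_ ?_
    · by_contra hcon
      push Not at hcon
      have h5 : (⊤ : IntermediateField ℂ E) ≤
          (IsScalarTower.toAlgHom ℂ M (RatFunc M)).fieldRange.comap φ := by
        rw [← htop, IntermediateField.adjoin_le_iff]
        rintro _ ⟨j, rfl⟩
        obtain ⟨c, hc⟩ := hcon j
        exact ⟨c, hc.symm⟩
      obtain ⟨c, hc⟩ := h5 (IntermediateField.mem_top (x := r))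
      exact hr' c hc.symm
    · intro G hG hGh
      rw [hval G hGh]
      filter_upwards [hr] with z hz
      exact (inV_iff hz).1 (hI z) G hG hGh
  · right
    have hc : ∀ j, ∃ c : ℂ, y j = algebraMap ℂ E c := by
      intro j
      have h3 : IsIntegral ℂ (y j) := (halgC (y j)).isIntegral
      have h4 := IsAlgClosed.degree_eq_one_of_irreducible ℂ (minpoly.irreducible h3)
      obtain ⟨c, hc⟩ := minpoly.mem_range_of_degree_eq_one ℂ (y j) h4
      exact ⟨c, hc.symm⟩
    choose c hc using hc
    have hlin : ∀ z j, (f z).rep j = c j * (f z).rep l := by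
      intro z j
      have h3 : (X j - C (c j) * X l : MvPolynomial (Fin (N + 1)) ℂ).IsHomogeneous 1 := by
        refine (isHomogeneous_X _ _).sub ?_
        have := (isHomogeneous_C (Fin (N + 1)) (c j)).mul (isHomogeneous_X ℂ l)
        rwa [zero_add] at this
      have h4 : eval (f z).rep (X j - C (c j) * X l) = 0 := by
        refine form_all hf hr ⟨1, h3⟩ ?_ z
        rw [← hval _ ⟨1, h3⟩, map_sub, map_mul, aeval_X, aeval_X, hyl, mul_one, hc j,
          ← MvPolynomial.algebraMap_eq, AlgHom.commutes, sub_self]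
      rw [map_sub, map_mul, eval_X, eval_X, eval_C] at h4
      exact sub_eq_zero.1 h4
    intro z z'
    have hne : ∀ z, (f z).rep l ≠ 0 := by
      intro z h3
      apply (f z).rep_nonzero
      funext j
      rw [hlin z j, h3, mul_zero]
      rfl
    rw [← (f z).mk_rep, ← (f z').mk_rep, Projectivization.mk_eq_mk_iff']
    refine ⟨(f z).rep l / (f z').rep l, ?_⟩
    funext j
    rw [Pi.smul_apply, smul_eq_mul, hlin z j, hlin z' j]
    have := hne z'
    field_simp

end Pool.Agent.X316.ZG
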