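import Pool.Agent.X316.ZG.Mfd
import Pool.Agent.Y377.IL.AllC

/-!
Entire curves given by iterated linear differential equations over the derivatives of a jointly
universal tuple.
-/

set_option autoImplicit false

open Filter Topology Set MvPolynomial

namespace Pool.Agent.X316.ZG

open scoped LinearAlgebra.Projectivization
open Pool.Agent.TH143.EL (HolMap Rep InV codis_ev codis_nhds mero_an)
open Pool.Agent.TH143.GT (Covered FunField Pluricanonical exists_frac)
open Pool.Agent.W602.GT (IsForm GeneralType coords exists_embedding)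
open Pool.Agent.Y377.IL (DB IteratedOver AlgRatio fields_gen rel_of_dense Dense algI mem_algI
  fg_of_coords fg_top_of_fg exists_funField aeval_ratio)

section ring

variable {ι : Type}

/-- The ring of the meromorphic functions which are polynomials in the functions `u j` and their
derivatives. -/
def dring (u : ι → ℂ → ℂ) : Subalgebra ℂ (ℂ → ℂ) where
  carrier := {b | Meromorphic b ∧ ∃ P : MvPolynomial (ι × ℕ) ℂ,
    ∀ᶠ z in codiscrete ℂ, b z = eval (fun v => iteratedDeriv v.2 (u v.1) z) P}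
  mul_mem' := by
    rintro a b ⟨ha, P, hP⟩ ⟨hb, Q, hQ⟩
    refine ⟨ha.mul hb, P * Q, ?_⟩
    filter_upwards [hP, hQ] with z h1 h2
    rw [Pi.mul_apply, map_mul, h1, h2]
  add_mem' := by
    rintro a b ⟨ha, P, hP⟩ ⟨hb, Q, hQ⟩
    refine ⟨ha.add hb, P + Q, ?_⟩
    filter_upwards [hP, hQ] with z h1 h2
    rw [Pi.add_apply, map_add, h1, h2]
  algebraMap_mem' := by
    intro c
    refine ⟨Meromorphic.const c, C c, Eventually.of_forall fun z => ?_⟩
    rw [eval_C]
    rfl

theorem hasDeriv_poly {u : ι → ℂ → ℂ} (hu : ∀ j, Meromorphic (u j))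
    (P : MvPolynomial (ι × ℕ) ℂ) : ∃ P' : MvPolynomial (ι × ℕ) ℂ, ∀ᶠ z in codiscrete ℂ,
      HasDerivAt (fun z => eval (fun v => iteratedDeriv v.2 (u v.1) z) P)
        (eval (fun v => iteratedDeriv v.2 (u v.1) z) P') z := by
  induction P using MvPolynomial.induction_on with
  | C c =>
    refine ⟨0, Eventually.of_forall fun z => ?_⟩
    simp only [eval_C, map_zero]
    exact hasDerivAt_const z c
  | add P Q hP hQ =>
    obtain ⟨P', hP'⟩ := hP
    obtain ⟨Q', hQ'⟩ := hQ
    refine ⟨P' + Q', ?_⟩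
    filter_upwards [hP', hQ'] with z h1 h2
    simp only [map_add]
    exact h1.add h2
  | mul_X P v hP =>
    obtain ⟨P', hP'⟩ := hP
    refine ⟨P' * X v + P * X (v.1, v.2 + 1), ?_⟩
    filter_upwards [hP', mero_an (meromorphic_iteratedDeriv (hu v.1) v.2)] with z h1 h2
    simp only [map_add, map_mul, eval_X]
    have h3 := h2.differentiableAt.hasDerivAt
    rw [← iteratedDeriv_succ] at h3
    exact h1.mul h3

theorem db_dring {u : ι → ℂ → ℂ} (hu : ∀ j, Meromorphic (u j)) : DB (dring u) where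
  mero := fun b hb => hb.1
  der := by
    rintro b ⟨hb, P, hP⟩
    obtain ⟨P', hP'⟩ := hasDeriv_poly hu P
    refine ⟨fun x => (hb x).deriv, P', ?_⟩
    have hmem : {z | b z = eval (fun v => iteratedDeriv v.2 (u v.1) z) P} ∈ codiscrete ℂ := hP
    filter_upwards [hP', hP] with z h1 h2
    have h3 : b =ᶠ[𝓝 z] fun z => eval (fun v => iteratedDeriv v.2 (u v.1) z) P :=
      codis_nhds hmem h2
    rw [h3.deriv_eq]
    exact h1.deriv

end ring

variable {ι : Type} {N : ℕ}
variable {p : Ideal (MvPolynomial (Fin (N + 1)) ℂ)} {K : Type} [Field K] [Algebra ℂ K]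
  {w : ℕ} {y : Fin (N + 1) → K} {f : ℂ → ℙ ℂ (Fin (N + 1) → ℂ)}

/-- the classes of the derivatives -/
noncomputable def xc {u : ι → ℂ → ℂ} (hu : ∀ j, Meromorphic (u j)) (v : ι × ℕ) : Mf :=
  cl (iteratedDeriv v.2 (u v.1)) (meromorphic_iteratedDeriv (hu v.1) v.2)

theorem aeval_cl {σ : Type} (g : σ → ℂ → ℂ) (hg : ∀ j, Meromorphic (g j))
    (P : MvPolynomial σ ℂ) : aeval (fun j => cl (g j) (hg j)) P =
      Ideal.Quotient.mk nullI (aeval (fun j => (⟨g j, hg j⟩ : merS)) P) := by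
  have h1 : (aeval (fun j => cl (g j) (hg j)) : MvPolynomial σ ℂ →ₐ[ℂ] Mf) =
      (Ideal.Quotient.mkₐ ℂ nullI).comp (aeval fun j => (⟨g j, hg j⟩ : merS)) := by
    apply MvPolynomial.algHom_ext
    intro j
    rw [aeval_X, AlgHom.comp_apply, aeval_X]
    rfl
  exact DFunLike.congr_fun h1 P

theorem val_aeval {σ : Type} (g : σ → ℂ → ℂ) (hg : ∀ j, Meromorphic (g j))
    (P : MvPolynomial σ ℂ) (z : ℂ) :
    ((aeval (fun j => (⟨g j, hg j⟩ : merS)) P : merS) : ℂ → ℂ) z = eval (fun j => g j z) P := by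
  have h1 : ((evz z).comp (aeval fun j => (⟨g j, hg j⟩ : merS)) : MvPolynomial σ ℂ →ₐ[ℂ] ℂ) =
      aeval fun j => g j z := by
    apply MvPolynomial.algHom_ext
    intro j
    rw [AlgHom.comp_apply, aeval_X, aeval_X]
    rfl
  have h2 := DFunLike.congr_fun h1 P
  rw [aeval_eq_eval] at h2
  exact h2

theorem aeval_cl_zero {σ : Type} (g : σ → ℂ → ℂ) (hg : ∀ j, Meromorphic (g j))
    (P : MvPolynomial σ ℂ) : aeval (fun j => cl (g j) (hg j)) P = 0 ↔
      ∀ᶠ z in codiscrete ℂ, eval (fun j => g j z) P = 0 := by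
  rw [aeval_cl, Ideal.Quotient.eq_zero_iff_mem, mem_nullI]
  simp only [val_aeval]

theorem cl_eq {f g : ℂ → ℂ} {hf : Meromorphic f} {hg : Meromorphic g}
    (h : ∀ᶠ z in codiscrete ℂ, f z = g z) : cl f hf = cl g hg := by
  rw [← sub_eq_zero]
  change Ideal.Quotient.mk nullI _ - Ideal.Quotient.mk nullI _ = 0
  rw [← map_sub, Ideal.Quotient.eq_zero_iff_mem, mem_nullI]
  filter_upwards [h] with z hz
  change f z - g z = 0
  rw [hz, sub_self]

theorem aeval_mem {σ L : Type} [Field L] [Algebra ℂ L] (x : σ → L) (P : MvPolynomial σ ℂ)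
    (T : Set σ) (hT : ∀ v ∈ P.vars, v ∈ T) : aeval x P ∈ Algebra.adjoin ℂ (x '' T) := by
  classical
  rw [aeval_def, eval₂_eq]
  refine Subalgebra.sum_mem _ fun d hd => Subalgebra.mul_mem _ (Subalgebra.algebraMap_mem _ _) ?_
  refine Subalgebra.prod_mem _ fun i hi => Subalgebra.pow_mem _ (Algebra.subset_adjoin ?_) _
  exact ⟨i, hT i (by rw [mem_vars_iff_mem_support]; exact ⟨d, hd, hi⟩), rfl⟩

/-- ratios which are algebraic over the ring -/
theorem alg_of_ratio {u : ι → ℂ → ℂ} (hu : ∀ j, Meromorphic (u j)) {a b : ℂ → ℂ}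
    (ha : Meromorphic a) (hb : Meromorphic b) (hb0 : cl b hb ≠ 0)
    (h : AlgRatio (dring u) a b) : ∃ T : Finset (ι × ℕ),
      IsAlgebraic (Algebra.adjoin ℂ (xc hu '' (T : Set (ι × ℕ))) : Subalgebra ℂ Mf)
        (cl a ha / cl b hb) := by
  classical
  obtain ⟨m, c, hc, ⟨k0, hk0, hne⟩, hs⟩ := h
  choose hcm P hP using fun k => hc k
  let T : Finset (ι × ℕ) := (Finset.range (m + 1)).biUnion fun k => (P k).vars
  refine ⟨T, ?_⟩
  let S : Subalgebra ℂ Mf := Algebra.adjoin ℂ (xc hu '' (T : Set (ι × ℕ)))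
  have hcl : ∀ k, cl (c k) (hcm k) = aeval (xc hu) (P k) := by
    intro k
    have h1 : aeval (xc hu) (P k) = Ideal.Quotient.mk nullI _ := aeval_cl _ _ (P k)
    rw [h1]
    refine cl_eq ?_
    filter_upwards [hP k] with z hz
    rw [hz]
    exact (val_aeval _ _ (P k) z).symm
  have hmem : ∀ k, k ≤ m → cl (c k) (hcm k) ∈ S := by
    intro k hk
    rw [hcl]
    refine aeval_mem _ _ _ fun v hv => ?_
    exact Finset.mem_coe.2 (Finset.mem_biUnion.2 ⟨k, Finset.mem_range.2 (by omega), hv⟩)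
  let s : ℕ → S := fun k => if hk : k ≤ m then ⟨cl (c k) (hcm k), hmem k hk⟩ else 0
  have hs' : ∀ k, k ≤ m → ((s k : S) : Mf) = cl (c k) (hcm k) := fun k hk => by
    simp only [s, dif_pos hk]
  let Q : Polynomial S := ∑ k ∈ Finset.range (m + 1), Polynomial.C (s k) * Polynomial.X ^ k
  refine ⟨Q, fun h0 => ?_, ?_⟩
  · have h1 : Q.coeff k0 = s k0 := by
      simp only [Q, Polynomial.finsetSum_coeff, Polynomial.coeff_C_mul, Polynomial.coeff_X_pow]
      rw [Finset.sum_eq_single_of_mem k0 (Finset.mem_range.2 (by omega))]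
      · simp
      · intro j _ hj
        rw [if_neg (Ne.symm hj), mul_zero]
    rw [h0, Polynomial.coeff_zero] at h1
    apply hne
    have h2 : cl (c k0) (hcm k0) = 0 := by
      rw [← hs' k0 hk0, ← h1]
      rfl
    exact cl_zero.1 h2
  · have h1 : ∑ k ∈ Finset.range (m + 1), cl (c k) (hcm k) * cl a ha ^ k * cl b hb ^ (m - k) =
        0 := by
      have h2 : ∑ k ∈ Finset.range (m + 1), cl (c k) (hcm k) * cl a ha ^ k *
          cl b hb ^ (m - k) = Ideal.Quotient.mk nullI (∑ k ∈ Finset.range (m + 1),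
            (⟨c k, hcm k⟩ : merS) * ⟨a, ha⟩ ^ k * ⟨b, hb⟩ ^ (m - k)) := by
        rw [map_sum]
        refine Finset.sum_congr rfl fun k _ => ?_
        rw [map_mul, map_mul, map_pow, map_pow]
        rfl
      rw [h2, Ideal.Quotient.eq_zero_iff_mem, mem_nullI]
      filter_upwards [hs] with z hz
      have h3 : ((∑ k ∈ Finset.range (m + 1), (⟨c k, hcm k⟩ : merS) * ⟨a, ha⟩ ^ k *
          ⟨b, hb⟩ ^ (m - k) : merS) : ℂ → ℂ) z =
          evz z (∑ k ∈ Finset.range (m + 1), (⟨c k, hcm k⟩ : merS) * ⟨a, ha⟩ ^ k *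
          ⟨b, hb⟩ ^ (m - k)) := rfl
      rw [h3, map_sum, ← hz]
      refine Finset.sum_congr rfl fun k _ => ?_
      rw [map_mul, map_mul, map_pow, map_pow]
      rfl
    have h4 : Polynomial.aeval (cl a ha / cl b hb) Q * cl b hb ^ m = 0 := by
      rw [← h1, Polynomial.aeval_def]
      simp only [Q]
      rw [Polynomial.eval₂_finsetSum, Finset.sum_mul]
      refine Finset.sum_congr rfl fun k hk => ?_
      have hk' : k ≤ m := by
        have := Finset.mem_range.1 hk
        omega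
      rw [Polynomial.eval₂_mul, Polynomial.eval₂_C, Polynomial.eval₂_pow, Polynomial.eval₂_X]
      have h5 : algebraMap S Mf (s k) = cl (c k) (hcm k) := hs' k hk'
      have h6 : cl b hb ^ m = cl b hb ^ k * cl b hb ^ (m - k) := by
        rw [← pow_add, Nat.add_sub_cancel' hk']
      rw [h5, h6, div_pow]
      have h7 : cl b hb ^ k ≠ 0 := pow_ne_zero _ hb0
      field_simp
    exact (mul_eq_zero.1 h4).resolve_right (pow_ne_zero _ hb0)

/-- **Curves over universal functions.** -/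
theorem main_curve {u : ι → ℂ → ℂ} (hu : JointlyUniversal u) (hy : FunField p 1 K w y)
    (hf : HolMap f) (hX : ∀ z, InV p (f z)) (hd : Dense p f) (hl : IteratedOver (dring u) f)
    (E : IntermediateField ℂ K) {v : ℕ} (hv : Algebra.trdeg ℂ E = v) (hv0 : 0 < v) :
    Covered E ∧ ∀ n : ℕ, 0 < n → ∀ ω : (Fin v → Derivation ℂ E E) → E,
      Pluricanonical v n ω → ω = 0 := by
  classical
  obtain ⟨h, hl, hr⟩ := hl
  have hB := db_dring hu.mero
  have hm : ∀ j, Meromorphic (h j) := fun j => (hl j).mero hB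
  rcases fields_gen hy hf hX hd hB hl hr E with h1 | ⟨h2, h3⟩
  swap
  · exact ⟨h2, h3 v hv0 hv⟩
  have hrel := rel_of_dense hy hf hr hX hd
  -- a coordinate
  obtain ⟨l, hl0⟩ : ∃ l, ¬ ∀ᶠ z in codiscrete ℂ, h l z = 0 := by
    by_contra hcon
    push Not at hcon
    obtain ⟨z, h4, h5⟩ := (hr.and (eventually_all.2 hcon)).exists
    obtain ⟨h6, -⟩ := h4
    exact h6 (funext h5)
  let Y : Fin (N + 1) → Mf := fun j => cl (h j) (hm j)
  have hYl : Y l ≠ 0 := fun h4 => hl0 (cl_zero.1 h4)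
  have hrel' : ∀ G : MvPolynomial (Fin (N + 1)) ℂ, IsForm G →
      (W602.GT.val y G = 0 ↔ W602.GT.val Y G = 0) := by
    intro G hG
    rw [hrel G hG]
    exact (aeval_cl_zero h hm G).symm
  have hyl : y l ≠ 0 := by
    intro h4
    apply hYl
    have h5 : W602.GT.val y (X l : MvPolynomial (Fin (N + 1)) ℂ) = 0 := by
      unfold W602.GT.val
      rw [aeval_X, h4]
    rw [hrel' _ ⟨1, isHomogeneous_X _ _⟩] at h5
    unfold W602.GT.val at h5
    rwa [aeval_X] at h5
  obtain ⟨ψ, hψ⟩ := exists_embedding (k := ℂ) (y := y) (y' := Y) (i0 := l) hyl hYl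
    hy.sub.gen hrel'
  have hψG : ∀ (d : ℕ) (G : MvPolynomial (Fin (N + 1)) ℂ), G.IsHomogeneous d →
      ψ (W602.GT.val y G) * Y l ^ d = ψ (y l) ^ d * aeval Y G := by
    intro d G hG
    have e1 : W602.GT.val y G = y l ^ d * aeval (fun j => y j / y l) G := aeval_ratio hG hyl
    have e2 : aeval Y G = Y l ^ d * aeval (fun j => Y j / Y l) G :=
      aeval_ratio (x := Y) hG hYl
    have e3 : ψ (aeval (fun j => y j / y l) G) = aeval (fun j => Y j / Y l) G := by
      rw [MvPolynomial.comp_aeval_apply]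
      congr 2
      funext j
      exact hψ j
    rw [e1, e2, map_mul, map_pow, e3]
    ring
  have hψl : ψ (y l) ≠ 0 := by
    rw [Ne, map_eq_zero_iff ψ ψ.injective]
    exact hyl
  have hmG : ∀ G : MvPolynomial (Fin (N + 1)) ℂ, Meromorphic fun z => eval (fun j => h j z) G :=
    fun G => Pool.Agent.TH143.EL.mero_eval hm G
  have hclG : ∀ G : MvPolynomial (Fin (N + 1)) ℂ, aeval Y G = cl _ (hmG G) := by
    intro G
    rw [show aeval Y G = Ideal.Quotient.mk nullI _ from aeval_cl h hm G]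
    refine cl_eq (Eventually.of_forall fun z => ?_)
    exact val_aeval h hm G z
  have halg : ∀ e ∈ E, ∃ T : Finset (ι × ℕ),
      IsAlgebraic (Algebra.adjoin ℂ (xc hu.mero '' (T : Set (ι × ℕ))) : Subalgebra ℂ Mf)
        (ψ e) := by
    intro e he
    obtain ⟨d, g1, g0, hg1, hg0, hne, rfl⟩ := exists_frac hy.sub.gen e
    have h4 := h1 d g1 g0 hg1 hg0 hne he
    have hne' : cl _ (hmG g0) ≠ 0 := by
      rw [← hclG]
      intro h5
      exact hne ((hrel' g0 ⟨d, hg0⟩).2 h5)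
    have h6 : ψ (W602.GT.val y g1 / W602.GT.val y g0) = cl _ (hmG g1) / cl _ (hmG g0) := by
      rw [map_div₀, ← hclG, ← hclG]
      have e5 := hψG d g1 hg1
      have e6 := hψG d g0 hg0
      have e7 : ψ (W602.GT.val y g0) ≠ 0 := by
        rw [Ne, map_eq_zero_iff ψ ψ.injective]
        exact hne
      have e9 : aeval Y g0 ≠ 0 := by rwa [hclG]
      rw [div_eq_div_iff e7 e9]
      have e8 : ψ (y l) ^ d * Y l ^ d ≠ 0 :=
        mul_ne_zero (pow_ne_zero _ hψl) (pow_ne_zero _ hYl)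
      apply mul_left_cancel₀ e8
      calc ψ (y l) ^ d * Y l ^ d * (ψ (W602.GT.val y g1) * aeval Y g0)
          = (ψ (W602.GT.val y g1) * Y l ^ d) * (ψ (y l) ^ d * aeval Y g0) := by ring
        _ = (ψ (y l) ^ d * aeval Y g1) * (ψ (W602.GT.val y g0) * Y l ^ d) := by rw [e5, e6]
        _ = _ := by ring
    obtain ⟨T, hT⟩ := alg_of_ratio hu.mero (hmG g1) (hmG g0) hne' h4
    exact ⟨T, by rw [h6]; exact hT⟩
  have hEFG : E.FG := Pool.Agent.Y333.IL.t_FGS K (fg_of_coords hy.sub.gen) E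
  have hfg : (⊤ : IntermediateField ℂ E).FG := fg_top_of_fg hEFG
  let ψE : E →ₐ[ℂ] Mf := ψ.comp E.val
  obtain ⟨t, ht⟩ := hfg
  have halg' : ∀ e : E, ∃ T : Finset (ι × ℕ),
      IsAlgebraic (Algebra.adjoin ℂ (xc hu.mero '' (T : Set (ι × ℕ))) : Subalgebra ℂ Mf)
        (ψE e) := fun e => halg e e.2
  choose Te hTe using halg'
  let T : Finset (ι × ℕ) := t.biUnion Te
  have hall : ∀ e : E,
      IsAlgebraic (Algebra.adjoin ℂ (xc hu.mero '' (T : Set (ι × ℕ))) : Subalgebra ℂ Mf)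
        (ψE e) := by
    intro e
    have h4 : (⊤ : IntermediateField ℂ E) ≤ (algI (Algebra.adjoin ℂ (xc hu.mero ''
        (T : Set (ι × ℕ))) : Subalgebra ℂ Mf)).comap ψE := by
      rw [← ht, IntermediateField.adjoin_le_iff]
      intro e he
      change ψE e ∈ algI _
      rw [mem_algI]
      have h5 : (Algebra.adjoin ℂ (xc hu.mero '' (Te e : Set (ι × ℕ))) : Subalgebra ℂ Mf) ≤
          Algebra.adjoin ℂ (xc hu.mero '' (T : Set (ι × ℕ))) := by
        apply Algebra.adjoin_mono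
        apply Set.image_mono
        intro v hv
        exact Finset.mem_coe.2 (Finset.mem_biUnion.2 ⟨e, he, hv⟩)
      exact Pool.Agent.Y377.EL.alg_mono h5 (hTe e)
    exact h4 (IntermediateField.mem_top (x := e))
  rcases fields hu ψE ⟨t, ht⟩ T.card T rfl hall with h4 | h4
  · have h5 : Covered E := h4
    refine ⟨h5, fun n hn ω hω => ?_⟩
    obtain ⟨m, p', y', hy'⟩ := exists_funField ⟨t, ht⟩ hv
    exact Pool.Agent.Y288.IL.t_PL m p' E v y' hy' hv0 h5 n hn ω hω
  · exfalso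
    have h5 : Algebra.IsAlgebraic ℂ E := ⟨h4⟩
    have h6 : Algebra.trdeg ℂ E = 0 := trdeg_eq_zero
    rw [hv] at h6
    have h7 : v = 0 := by exact_mod_cast h6
    omega

end Pool.Agent.X316.ZG
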