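import Pool.Agent.X316.ZG.Log4
import Pool.Agent.Y377.IR.Aff

/-!
Entire curves in affine varieties over number fields built from universal functions.
-/

set_option autoImplicit false

namespace Pool.Agent.X316.ZG

open Set Filter Topology MvPolynomial Pool.Agent.Y377.EL Pool.Agent.Y377.IL Pool.Agent.Y377.IR
open scoped LinearAlgebra.Projectivization NumberField
open Pool.Agent.TH143.EL (Rep InV inV_iff rep_rep rep_smul rep_eq HolMap rep_iff mero_an mero_id
  freq_of_ev codis_ev codis_nhds)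
open Pool.Agent.TH143.HE (homog homog_homog eval_homog)
open Pool.Agent.H159R3.Exp (Laur)

theorem iterLin_mono {B : Subalgebra ℂ (ℂ → ℂ)} {g : ℂ → ℂ} (h : IterLin ⊥ g) : IterLin B g := by
  induction h with
  | quot h1 h2 => exact IterLin.quot (bot_le (a := B) h1) (bot_le (a := B) h2)
  | add _ _ h1 h2 => exact h1.add h2
  | mul _ _ h1 h2 => exact h1.mul h2
  | ode A y _ h2 h3 i h4 => exact IterLin.ode A y h4 h2 h3 i

/-- meromorphic functions which are algebraic over the ring belong to the class -/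
theorem iterLin_alg {B : Subalgebra ℂ (ℂ → ℂ)} (hB : DB B) {g : ℂ → ℂ} (hg : Meromorphic g)
    (ha : AlgRatio B g fun _ => 1) : IterLin B g := by
  obtain ⟨D, hD, -⟩ := Pool.Agent.Y884.IL.t_FRC
  have hT := Pool.Agent.Y564.IL.t_TAY
  refine Pool.Agent.Y125.IL.t_LI B hB _ hg ?_
  obtain ⟨m, b, hb, ⟨k0, hk0, hbk⟩, hs⟩ := ha
  have e1 : ∀ᶠ z in codiscrete ℂ, ∀ k ∈ Finset.range (m + 1), AnalyticAt ℂ (b k) z := by
    rw [eventually_all_finset]
    exact fun k _ => mero_an (hB.mero _ (hb k))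
  have e2 : ∀ᶠ z in codiscrete ℂ, ∑ k ∈ Finset.range (m + 1), b k z * g z ^ k = 0 := by
    filter_upwards [hs] with z h1
    simpa only [one_pow, mul_one] using h1
  obtain ⟨z0, ⟨h1, h2⟩, h3⟩ := ((e1.and (mero_an hg)).and e2).exists
  have h4 : ∀ᶠ z in 𝓝 z0, ∑ k ∈ Finset.range (m + 1), b k z * g z ^ k = 0 :=
    codis_nhds (U := {z | ∑ k ∈ Finset.range (m + 1), b k z * g z ^ k = 0}) e2 h3
  have h5 : IsAlgebraic (baseR hT B z0) (ty z0 g) :=
    ty_of_alg hT h2 hb h1 hk0 (fun h6 => hbk (mero_id (hB.mero _ (hb k0)) (freq_of_ev h6))) h4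
  exact linB_of_alg hT Pool.Agent.Y454.IL.t_ALD hB hD hg h2 (alg_mono (fun x hx => le_frac _ hx) h5)

section complex

variable {n : ℕ} {ι : Type}

/-- **Entire curves in affine varieties.** -/
theorem aff_curve_univ {A A' : Set (MvPolynomial (Fin n) ℂ)} (h : LaurIn A A')
    {u : ι → ℂ → ℂ} (hu : JointlyUniversal u)
    {f : ℂ → Fin n → ℂ} (hd : Differentiable ℂ f) (hl : ∀ j, IterLin (dring u) fun z => f z j)
    (hV : ∀ z, ∀ F ∈ A, eval (f z) F = 0) (hnc : ∃ z w, f z ≠ f w) :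
    ∀ z, ∀ G ∈ A', eval (f z) G = 0 := by
  let P : ℂ → ℙ ℂ (Fin (n + 1) → ℂ) := fun z => ppt (f z)
  have hdj : ∀ j, Differentiable ℂ fun z => f z j := differentiable_pi.1 hd
  have hptd : ∀ j, Differentiable ℂ fun z => pt (f z) j := by
    intro j
    refine Fin.cases ?_ (fun j => ?_) j
    · exact differentiable_const 1
    · exact hdj j
  have hptl : ∀ j, IterLin (dring u) fun z => pt (f z) j := by
    intro j
    refine Fin.cases ?_ (fun j => ?_) j
    · exact IterLin.const (dring u) 1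
    · exact hl j
  have hf : HolMap P := fun a => ⟨fun j z => pt (f z) j, fun j => (hptd j).analyticAt a,
    Eventually.of_forall fun z => rep_ppt (f z)⟩
  have hreg : ∀ α : Fin (n + 1) →₀ ℕ, ∑ j, α j = 1 → IterLin (dring u) (regf (X 0) α P) := by
    intro α hα
    have h1 : regf (X 0) α P = fun z => ∏ j, pt (f z) j ^ α j := by
      funext z
      unfold regf
      exact reg_ppt (f z) hα
    rw [h1]
    exact iterLin_prod hptl α
  have hlog : LogCurve (hid A) (X 0) 1 u P :=
    ⟨hf, fun z => inV_hid (hV z), fun z => off_ppt (f z), Or.inl hreg⟩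
  rcases log_form hu one_pos (isHomogeneous_X ℂ (0 : Fin (n + 1))) hlog with h1 | h1
  · exfalso
    obtain ⟨z, w, hzw⟩ := hnc
    exact hzw (ppt_inj (h1 z w))
  · intro z G hG
    have h2 := h1 (homog G) ⟨_, homog_homog G⟩ (fun p hp t ht => gm_van h hG hp ht) z
    rwa [form_at (rep_ppt (f z)) ⟨_, homog_homog G⟩, eval_pt] at h2

end complex

section number

variable {K : Type} [Field K] {κ κ' : Type} {n : ℕ} {ι : Type}

open Pool.Agent.W235.RM Pool.Agent.Y377.AO Pool.Agent.H159R3.Exp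

/-- All nonconstant entire curves in `V` whose coordinates are given by iterated linear differential
equations over the ring of the polynomials in the functions `u j` and their derivatives lie
in `V'`. -/
def BuiltCurvesIn (u : ι → ℂ → ℂ) (σ : K →+* ℂ) (F : κ → MvPolynomial (Fin n) (𝓞 K))
    (G : κ' → MvPolynomial (Fin n) (𝓞 K)) : Prop :=
  ∀ f : ℂ → Fin n → ℂ, Differentiable ℂ f → (∀ j, IterLin (dring u) fun z => f z j) →
    (∀ z i, eval₂ (σ.comp (algebraMap (𝓞 K) K)) (f z) (F i) = 0) → (∃ z w, f z ≠ f w) →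
    ∀ z l, eval₂ (σ.comp (algebraMap (𝓞 K) K)) (f z) (G l) = 0

theorem built_of_gm {u : ι → ℂ → ℂ} (hu : JointlyUniversal u) {σ : K →+* ℂ}
    {F : κ → MvPolynomial (Fin n) (𝓞 K)} {G : κ' → MvPolynomial (Fin n) (𝓞 K)}
    (h : GmCurvesIn σ F G) : BuiltCurvesIn u σ F G := by
  intro f hd hl hF hnc z l
  have h1 := aff_curve_univ (laurIn_of_gm h) hu hd hl (fun z F' hF' => by
    obtain ⟨i, rfl⟩ := hF'
    rw [eval_map]
    exact hF z i) hnc z _ ⟨l, rfl⟩
  rwa [eval_map] at h1

theorem iter_of_built {u : ι → ℂ → ℂ} {σ : K →+* ℂ}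
    {F : κ → MvPolynomial (Fin n) (𝓞 K)} {G : κ' → MvPolynomial (Fin n) (𝓞 K)}
    (h : BuiltCurvesIn u σ F G) : IterCurvesIn σ F G :=
  fun f hd hl hF hnc z l => h f hd (fun j => iterLin_mono (hl j)) hF hnc z l

end number

end Pool.Agent.X316.ZG
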