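import Pool.Agent.X316.ZG.Root

/-!
Approximation of zero-free functions on small discs by exponentials of entire functions, and the
test functions.
-/

set_option autoImplicit false

open Filter Topology Metric Set Polynomial

namespace Pool.Agent.X316.ZG

theorem approx_entire {f : ℂ → ℂ} {ρ ρ' : ℝ} (hρ : 0 ≤ ρ) (h : ρ < ρ')
    (hf : DifferentiableOn ℂ f (closedBall 0 ρ')) {η : ℝ} (hη : 0 < η) :
    ∃ q : ℂ → ℂ, Differentiable ℂ q ∧ ∀ s ∈ ball (0 : ℂ) ρ, ‖q s - f s‖ < η := by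
  lift ρ to NNReal using hρ
  lift ρ' to NNReal using (ρ.2.trans h.le)
  have h1 := DifferentiableOn.hasFPowerSeriesOnBall hf (by
    have : (0 : ℝ) < ρ' := lt_of_le_of_lt ρ.2 h
    exact_mod_cast this)
  have h2 := h1.tendstoUniformlyOn' (r' := ρ) (by exact_mod_cast h)
  rw [Metric.tendstoUniformlyOn_iff] at h2
  obtain ⟨n, hn⟩ := (h2 η hη).exists
  refine ⟨fun y => (cauchyPowerSeries f 0 ρ').partialSum n (y - 0), ?_, fun s hs => ?_⟩
  · unfold FormalMultilinearSeries.partialSum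
    refine Differentiable.fun_sum fun k _ => ?_
    simp only [FormalMultilinearSeries.apply_eq_pow_smul_coeff]
    fun_prop
  · have h3 := hn s hs
    rwa [dist_comm, dist_eq_norm] at h3

/-- functions close to a nonzero constant are approximated by exponentials -/
theorem approx_exp {g : ℂ → ℂ} {a : ℂ} (ha : a ≠ 0) {ρ ρ' : ℝ} (hρ : 0 ≤ ρ) (h : ρ < ρ')
    (hg : DifferentiableOn ℂ g (closedBall 0 ρ'))
    (hga : ∀ s ∈ closedBall (0 : ℂ) ρ', ‖g s - a‖ < ‖a‖) {η : ℝ} (hη : 0 < η) :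
    ∃ q : ℂ → ℂ, Differentiable ℂ q ∧ ∀ s ∈ ball (0 : ℂ) ρ, ‖Complex.exp (q s) - g s‖ < η := by
  have ha' : 0 < ‖a‖ := norm_pos_iff.2 ha
  have hsl : ∀ s ∈ closedBall (0 : ℂ) ρ', g s / a ∈ Complex.slitPlane := by
    intro s hs
    have h1 : ‖(g s - a) / a‖ < 1 := by
      rw [norm_div, div_lt_one ha']
      exact hga s hs
    have h2 := Complex.mem_slitPlane_of_norm_lt_one h1
    rwa [sub_div, div_self ha, add_sub_cancel] at h2
  let f : ℂ → ℂ := fun s => Complex.log a + Complex.log (g s / a)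
  have hf : DifferentiableOn ℂ f (closedBall 0 ρ') :=
    (differentiableOn_const _).add ((hg.div_const a).clog hsl)
  have hexp : ∀ s ∈ closedBall (0 : ℂ) ρ', Complex.exp (f s) = g s := by
    intro s hs
    have h1 : g s / a ≠ 0 := Complex.slitPlane_ne_zero (hsl s hs)
    simp only [f]
    rw [Complex.exp_add, Complex.exp_log ha, Complex.exp_log h1, mul_div_cancel₀ _ ha]
  obtain ⟨q, hq, hqf⟩ := approx_entire hρ h hf (η := min 1 (η / (4 * ‖a‖ + 1)))
    (by positivity)
  refine ⟨q, hq, fun s hs => ?_⟩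
  have hs' : s ∈ closedBall (0 : ℂ) ρ' :=
    ball_subset_closedBall (ball_subset_ball h.le hs)
  have h1 := hqf s hs
  have h2 : ‖q s - f s‖ ≤ 1 := h1.le.trans (min_le_left _ _)
  have h3 := Complex.norm_exp_sub_one_le h2
  have h4 : Complex.exp (q s) - g s = g s * (Complex.exp (q s - f s) - 1) := by
    rw [mul_sub, mul_one]
    congr 1
    conv_rhs => rw [← hexp s hs', ← Complex.exp_add]
    congr 1
    ring
  have h5 : ‖g s‖ ≤ 2 * ‖a‖ := by
    have h6 := hga s hs'
    calc ‖g s‖ = ‖a + (g s - a)‖ := by congr 1; ring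
      _ ≤ ‖a‖ + ‖g s - a‖ := norm_add_le _ _
      _ ≤ 2 * ‖a‖ := by linarith
  rw [h4, norm_mul]
  calc ‖g s‖ * ‖Complex.exp (q s - f s) - 1‖ ≤ (2 * ‖a‖) * (2 * ‖q s - f s‖) := by gcongr
    _ = (4 * ‖a‖) * ‖q s - f s‖ := by ring
    _ ≤ (4 * ‖a‖) * (η / (4 * ‖a‖ + 1)) := by
        have := h1.le.trans (min_le_right _ _)
        gcongr
    _ < η := by
        rw [← mul_div_assoc, div_lt_iff₀ (by positivity)]
        nlinarith

/-- iterated derivatives of polynomial functions -/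
theorem iteratedDeriv_poly (P : ℂ[X]) (i : ℕ) :
    iteratedDeriv i (fun s => P.eval s) = fun s => (Polynomial.derivative^[i] P).eval s := by
  induction i generalizing P with
  | zero => simp [iteratedDeriv_zero]
  | succ i ih =>
    rw [iteratedDeriv_succ']
    have h1 : deriv (fun s => P.eval s) = fun s => (Polynomial.derivative P).eval s := by
      funext s
      exact Polynomial.deriv P
    rw [h1, ih, Function.iterate_succ_apply]

/-- the polynomial with given derivatives at zero -/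
noncomputable def tp (a : ℕ → ℂ) (n : ℕ) : ℂ[X] :=
  ∑ i ∈ Finset.range n, Polynomial.C (a i / i.factorial) * X ^ i

theorem tp_coeff (a : ℕ → ℂ) (n i : ℕ) (hi : i < n) : (tp a n).coeff i = a i / i.factorial := by
  unfold tp
  simp only [Polynomial.finsetSum_coeff, Polynomial.coeff_C_mul, Polynomial.coeff_X_pow]
  rw [Finset.sum_eq_single_of_mem i (Finset.mem_range.2 hi)]
  · simp
  · intro j _ hj
    rw [if_neg (Ne.symm hj), mul_zero]

theorem tp_degree (a : ℕ → ℂ) (n i : ℕ) (hi : n ≤ i) :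
    Polynomial.derivative^[i] (tp a n) = 0 := by
  by_cases hn : n = 0
  · subst hn
    unfold tp
    rw [Finset.range_zero, Finset.sum_empty, Polynomial.iterate_derivative_zero]
  · apply Polynomial.iterate_derivative_eq_zero
    refine lt_of_lt_of_le ?_ hi
    refine lt_of_le_of_lt (b := n - 1) (Polynomial.natDegree_sum_le_of_forall_le _ _
      fun j hj => ?_) (by omega)
    have := Finset.mem_range.1 hj
    exact (Polynomial.natDegree_C_mul_X_pow_le _ _).trans (by omega)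

theorem tp_eval (a : ℕ → ℂ) (n i : ℕ) (hi : i < n) :
    (Polynomial.derivative^[i] (tp a n)).eval 0 = a i := by
  rw [← Polynomial.coeff_zero_eq_eval_zero, Polynomial.coeff_iterate_derivative, zero_add,
    tp_coeff a n i hi, Nat.descFactorial_self, nsmul_eq_mul]
  have : (i.factorial : ℂ) ≠ 0 := by exact_mod_cast Nat.factorial_ne_zero i
  field_simp

/-- the test functions -/
noncomputable def tg (P : ℂ[X]) (κ : ℂ) (δ : ℝ) (m : ℕ) (s : ℂ) : ℂ :=
  P.eval s + κ * (δ : ℂ) ^ m * Complex.exp ((δ : ℂ)⁻¹ * s)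

theorem tg_diff (P : ℂ[X]) (κ : ℂ) (δ : ℝ) (m : ℕ) : Differentiable ℂ (tg P κ δ m) := by
  unfold tg
  fun_prop

theorem tg_deriv (P : ℂ[X]) (κ : ℂ) (δ : ℝ) (hδ : δ ≠ 0) (m i : ℕ) (hi : i ≤ m) (s : ℂ) :
    iteratedDeriv i (tg P κ δ m) s = (Polynomial.derivative^[i] P).eval s +
      κ * (δ : ℂ) ^ (m - i) * Complex.exp ((δ : ℂ)⁻¹ * s) := by
  have hδ' : (δ : ℂ) ≠ 0 := by exact_mod_cast hδ
  have h1 : ContDiff ℂ i fun s : ℂ => P.eval s := P.differentiable.contDiff
  have h2 : ContDiff ℂ i fun s : ℂ => Complex.exp ((δ : ℂ)⁻¹ * s) := by fun_prop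
  have e1 : tg P κ δ m = (fun s : ℂ => P.eval s) +
      fun s : ℂ => (κ * (δ : ℂ) ^ m) * Complex.exp ((δ : ℂ)⁻¹ * s) := rfl
  rw [e1, iteratedDeriv_add h1.contDiffAt (contDiffAt_const.mul h2.contDiffAt),
    iteratedDeriv_poly, iteratedDeriv_const_mul_field, iteratedDeriv_cexp_const_mul]
  congr 1
  have h3 : (δ : ℂ) ^ m = (δ : ℂ) ^ (m - i) * (δ : ℂ) ^ i := by
    rw [← pow_add, Nat.sub_add_cancel hi]
  have h4 : (δ : ℂ) ^ i ≠ 0 := pow_ne_zero _ hδ'
  rw [h3, inv_pow]
  field_simp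

end Pool.Agent.X316.ZG
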