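import Pool.Agent.X316.ZG.Nst

/-!
Embeddings of fields in fields of rational functions.
-/

set_option autoImplicit false

open Polynomial IntermediateField

namespace Pool.Agent.X316.ZG

theorem lift_hom {F K L : Type} [Field F] [Field K] [Field L] [Algebra F L]
    (i : F →+* K) (β : L) (hβ : IsIntegral F β) (g : K) (hg : (minpoly F β).eval₂ i g = 0) :
    ∃ σ : F⟮β⟯ →+* K, ∀ x : F, σ (algebraMap F F⟮β⟯ x) = i x := by
  let : Algebra F K := i.toAlgebra
  let σ : F⟮β⟯ →ₐ[F] K := (IntermediateField.algHomAdjoinIntegralEquiv F hβ).symm ⟨g, by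
    rw [Polynomial.mem_aroots]
    exact ⟨minpoly.ne_zero hβ, hg⟩⟩
  exact ⟨σ.toRingHom, fun x => σ.commutes x⟩

theorem exists_prim {F L : Type} [Field F] [Field L] [CharZero F] [Algebra F L] (S : Set L)
    (hS : S.Finite) (h : ∀ x ∈ S, IsIntegral F x) : ∃ α : L, IntermediateField.adjoin F S = F⟮α⟯ := by
  have : Finite S := hS
  have := finiteDimensional_adjoin h
  obtain ⟨α, hα⟩ := Field.exists_primitive_element F (IntermediateField.adjoin F S)
  refine ⟨α, ?_⟩
  have h1 := congrArg IntermediateField.lift hα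
  rw [lift_adjoin_simple, lift_top] at h1
  exact h1.symm

variable {R : Type} [CommRing R] [IsDomain R] [Algebra ℂ R] [UniqueFactorizationMonoid R]
variable {L : Type} [Field L] [Algebra ℂ L]

/-- **The embedding.** If the specialisations of the algebraic equations over `R[X]` have
polynomial solutions, then a field of algebraic functions over `R[X]` is algebraic over `R` or
covered by rational curves. -/
theorem embed (θ : R[X] →ₐ[ℂ] L) (hθ : Function.Injective θ) {E : Type} [Field E] [Algebra ℂ E]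
    (ψ : E →ₐ[ℂ] L) (hfg : (⊤ : IntermediateField ℂ E).FG)
    (halg : ∀ e, ∃ Q : R[X][X], Q ≠ 0 ∧ Q.eval₂ θ.toRingHom (ψ e) = 0)
    (hKP : ∀ (Φ : R[X][X]) (β : L), Φ.Monic → Φ.eval₂ θ.toRingHom β = 0 → ∃ N B : ℕ, 0 < N ∧
      ∀ r : R, r ≠ 0 → ∃ a : R →+* ℂ, a r ≠ 0 ∧ ∃ G : ℂ[X], G.natDegree ≤ B ∧ sp Φ a N G = 0) :
    (∃ (M : Type) (_ : Field M) (_ : Algebra ℂ M) (φ : E →ₐ[ℂ] RatFunc M),
      ∃ r : E, ∀ c : M, φ r ≠ algebraMap M (RatFunc M) c) ∨
    ∀ e, ∃ Q : R[X], Q ≠ 0 ∧ Q.eval₂ (θ.toRingHom.comp Polynomial.C) (ψ e) = 0 := by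
  classical
  let : Algebra R[X] L := θ.toRingHom.toAlgebra
  have hfs : FaithfulSMul R[X] L := (faithfulSMul_iff_algebraMap_injective _ _).2 hθ
  let : Algebra (FractionRing R[X]) L := FractionRing.liftAlgebra R[X] L
  have : IsScalarTower R[X] (FractionRing R[X]) L := FractionRing.isScalarTower_liftAlgebra _ _
  let F := FractionRing R[X]
  have hFL : ∀ x : R[X], algebraMap F L (algebraMap R[X] F x) = θ x := fun x =>
    (IsScalarTower.algebraMap_apply R[X] F L x).symm
  have : CharZero F := by
    have h1 : CharZero L := charZero_of_injective_algebraMap (algebraMap ℂ L).injective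
    exact (algebraMap F L).charZero
  have hint : ∀ e, IsIntegral F (ψ e) := by
    intro e
    obtain ⟨Q, hQ0, hQ⟩ := halg e
    have h1 : IsAlgebraic R[X] (ψ e) := ⟨Q, hQ0, hQ⟩
    exact (h1.extendScalars (IsFractionRing.injective R[X] F)).isIntegral
  obtain ⟨t, ht⟩ := hfg
  obtain ⟨α, hα⟩ := exists_prim (F := F) (ψ '' (t : Set E)) (t.finite_toSet.image ψ) (by
    rintro _ ⟨e, -, rfl⟩
    exact hint e)
  have hαint : IsIntegral F α := by
    have h1 : α ∈ IntermediateField.adjoin F (ψ '' (t : Set E)) := by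
      rw [hα]
      exact mem_adjoin_simple_self F α
    have : Finite (ψ '' (t : Set E)) := t.finite_toSet.image ψ
    have := finiteDimensional_adjoin (K := F) (S := ψ '' (t : Set E)) (by
      rintro _ ⟨e, -, rfl⟩
      exact hint e)
    have h2 := IsIntegral.of_finite F
      (⟨α, h1⟩ : IntermediateField.adjoin F (ψ '' (t : Set E)))
    exact h2.map (IntermediateField.val _)
  -- an integral generator
  have hαalg : IsAlgebraic R[X] α := by
    rw [IsFractionRing.isAlgebraic_iff R[X] F L]
    exact hαint.isAlgebraic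
  obtain ⟨b, hb0, hb⟩ := hαalg.exists_integral_multiple
  have hbF : algebraMap R[X] F b ≠ 0 := by
    rw [Ne, map_eq_zero_iff _ (IsFractionRing.injective R[X] F)]
    exact hb0
  set β : L := b • α with hβdef
  have hβ' : β = algebraMap F L (algebraMap R[X] F b) * α := by
    rw [hβdef, Algebra.smul_def, IsScalarTower.algebraMap_apply R[X] F L]
  have hle : IntermediateField.adjoin F (ψ '' (t : Set E)) ≤ F⟮β⟯ := by
    rw [hα, IntermediateField.adjoin_simple_le_iff]
    have h1 : α = (algebraMap F L (algebraMap R[X] F b))⁻¹ * β := by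
      rw [hβ', inv_mul_cancel_left₀]
      rwa [Ne, map_eq_zero]
    rw [h1]
    exact mul_mem (inv_mem (IntermediateField.algebraMap_mem _ _)) (mem_adjoin_simple_self F β)
  have hΦ : (minpoly R[X] β).Monic := minpoly.monic hb
  have hΦ0 : (minpoly R[X] β).eval₂ θ.toRingHom β = 0 := minpoly.aeval R[X] β
  have hΦF : minpoly F β = (minpoly R[X] β).map (algebraMap R[X] F) :=
    minpoly.isIntegrallyClosed_eq_field_fractions' F hb
  have hβint : IsIntegral F β := by
    rw [hβ']
    exact isIntegral_algebraMap.mul hαint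
  obtain ⟨N, B, hN, hsys⟩ := hKP _ β hΦ hΦ0
  obtain ⟨G, hG⟩ := exists_generic (minpoly R[X] β) N B hsys
  let M := AlgebraicClosure (FractionRing R)
  have hRM : Function.Injective (algebraMap R M) := by
    rw [IsScalarTower.algebraMap_eq R (FractionRing R) M]
    exact (algebraMap (FractionRing R) M).injective.comp (IsFractionRing.injective R _)
  -- the homomorphism to the rational functions
  let ξ0 : R[X] →+* M[X] :=
    (Polynomial.expand M N).toRingHom.comp (Polynomial.mapRingHom (algebraMap R M))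
  let ξ : R[X] →+* RatFunc M := (algebraMap M[X] (RatFunc M)).comp ξ0
  have hξ : Function.Injective ξ := by
    refine (RatFunc.algebraMap_injective M).comp ?_
    exact (Polynomial.expand_injective hN).comp (Polynomial.map_injective _ hRM)
  let i : F →+* RatFunc M := IsFractionRing.lift hξ
  have hi : ∀ x : R[X], i (algebraMap R[X] F x) = ξ x := IsFractionRing.lift_algebraMap hξ
  obtain ⟨σ, hσ⟩ := lift_hom i β hβint (algebraMap M[X] (RatFunc M) G) (by
    rw [hΦF, Polynomial.eval₂_map]
    have h1 : i.comp (algebraMap R[X] F) = (algebraMap M[X] (RatFunc M)).comp ξ0 := by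
      ext x
      · exact hi _
      · exact hi _
    rw [h1, ← Polynomial.hom_eval₂]
    have h2 : (minpoly R[X] β).eval₂ ξ0 G = 0 := by
      rw [← hG]
      unfold sp
      rw [Polynomial.map_map, Polynomial.eval_map]
    rw [h2, map_zero])
  -- the field `E`
  have hmem : ∀ e : E, ψ e ∈ F⟮β⟯ := by
    intro e
    have h1 : (⊤ : IntermediateField ℂ E) ≤ ((F⟮β⟯).restrictScalars ℂ).comap ψ := by
      rw [← ht, IntermediateField.adjoin_le_iff]
      intro e he
      exact hle (IntermediateField.subset_adjoin _ _ ⟨e, he, rfl⟩)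
    exact h1 trivial
  let φ0 : E →+* F⟮β⟯ := ψ.toRingHom.codRestrict F⟮β⟯.toSubfield hmem
  have hφ0 : ∀ e, ((φ0 e : F⟮β⟯) : L) = ψ e := fun e => rfl
  have hC : ∀ c : ℂ, φ0 (algebraMap ℂ E c) =
      algebraMap F F⟮β⟯ (algebraMap R[X] F (Polynomial.C (algebraMap ℂ R c))) := by
    intro c
    apply Subtype.ext
    rw [hφ0, AlgHom.commutes]
    change _ = algebraMap F L (algebraMap R[X] F (Polynomial.C (algebraMap ℂ R c)))
    rw [hFL, ← θ.commutes c]
    rfl
  have hξC : ξ.comp Polynomial.C = (algebraMap M (RatFunc M)).comp (algebraMap R M) := by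
    ext r
    change algebraMap M[X] (RatFunc M) (Polynomial.expand M N
      (Polynomial.map (algebraMap R M) (Polynomial.C r))) = algebraMap M (RatFunc M) _
    rw [Polynomial.map_C, Polynomial.expand_C]
    rfl
  let φ : E →ₐ[ℂ] RatFunc M :=
    { toRingHom := σ.comp φ0
      commutes' := fun c => by
        change σ (φ0 (algebraMap ℂ E c)) = _
        rw [hC, hσ, hi]
        have h1 := RingHom.congr_fun hξC (algebraMap ℂ R c)
        change ξ (Polynomial.C (algebraMap ℂ R c)) = _
        change ξ (Polynomial.C (algebraMap ℂ R c)) = _ at h1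
        rw [h1]
        change algebraMap M (RatFunc M) (algebraMap R M (algebraMap ℂ R c)) = _
        rw [← IsScalarTower.algebraMap_apply ℂ R M, ← IsScalarTower.algebraMap_apply ℂ M] }
  by_cases hcov : ∃ r : E, ∀ c : M, φ r ≠ algebraMap M (RatFunc M) c
  · exact Or.inl ⟨M, inferInstance, inferInstance, φ, hcov⟩
  · right
    push Not at hcov
    intro e
    obtain ⟨c, hc⟩ := hcov e
    have h1 : IsAlgebraic R c := by
      rw [IsFractionRing.isAlgebraic_iff R (FractionRing R) M]
      exact Algebra.IsAlgebraic.isAlgebraic c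
    obtain ⟨Q, hQ0, hQ⟩ := h1
    refine ⟨Q, hQ0, ?_⟩
    let j : R →+* F⟮β⟯ := ((algebraMap F F⟮β⟯).comp (algebraMap R[X] F)).comp Polynomial.C
    have h2 : Q.eval₂ j (φ0 e) = 0 := by
      apply σ.injective
      rw [map_zero, Polynomial.hom_eval₂]
      have h3 : σ.comp j = (algebraMap M (RatFunc M)).comp (algebraMap R M) := by
        rw [← hξC]
        ext r
        change σ (algebraMap F F⟮β⟯ (algebraMap R[X] F (Polynomial.C r))) = ξ (Polynomial.C r)
        rw [hσ, hi]
      have h4 : σ (φ0 e) = algebraMap M (RatFunc M) c := hc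
      rw [h3, h4, ← Polynomial.hom_eval₂]
      have h5 : Q.eval₂ (algebraMap R M) c = 0 := hQ
      rw [h5, map_zero]
    have h6 := congrArg (fun x : F⟮β⟯ => (x : L)) h2
    have h7 : ((Q.eval₂ j (φ0 e) : F⟮β⟯) : L) =
        Q.eval₂ ((algebraMap F⟮β⟯ L).comp j) (ψ e) :=
      Polynomial.hom_eval₂ Q j (algebraMap F⟮β⟯ L) (φ0 e)
    have h8 : (algebraMap F⟮β⟯ L).comp j = θ.toRingHom.comp Polynomial.C := by
      ext r
      exact hFL _
    rw [← h8, ← h7]
    exact h6

end Pool.Agent.X316.ZG
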