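import Mathlib

/-!
Entire functions: polynomial growth, limits along an ultrafilter, periodic algebraic functions.
The proof of `montel_aux` is that of `Helper684/GX/Cov/C14`.
-/

set_option autoImplicit false

open Filter Topology Metric Set Polynomial

namespace Pool.Agent.X316.ZG

/-- entire functions of polynomial growth are polynomials -/
theorem poly_of_growth {G : ℂ → ℂ} (hG : Differentiable ℂ G) {C : ℝ} {m : ℕ}
    (h : ∀ q, ‖G q‖ ≤ C * (1 + ‖q‖) ^ m) :
    ∃ P : ℂ[X], P.natDegree ≤ m ∧ ∀ q, P.eval q = G q := by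
  have hC : 0 ≤ C := by
    have h1 := h 0
    rw [norm_zero, add_zero, one_pow, mul_one] at h1
    exact (norm_nonneg _).trans h1
  have h0 : ∀ n, m < n → iteratedDeriv n G 0 = 0 := by
    intro n hn
    rw [← norm_le_zero_iff]
    have h1 : ∀ R : ℝ, 1 ≤ R →
        ‖iteratedDeriv n G 0‖ ≤ n.factorial * (C * 2 ^ m) * R⁻¹ := by
      intro R hR
      have hR0 : 0 < R := by linarith
      have h2 := Complex.norm_iteratedDeriv_le_of_forall_mem_sphere_norm_le (c := 0) n hR0
        (hG.diffContOnCl (s := ball 0 R)) (C := C * (2 * R) ^ m) (fun z hz => by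
          have h3 : ‖z‖ = R := by simpa using hz
          refine (h z).trans ?_
          rw [h3]
          gcongr
          linarith)
      refine h2.trans ?_
      obtain ⟨k, rfl⟩ : ∃ k, n = m + 1 + k := ⟨n - (m + 1), by omega⟩
      have h4 : (1 : ℝ) ≤ R ^ k := one_le_pow₀ hR
      rw [div_le_iff₀ (by positivity)]
      have h5 : ((m + 1 + k).factorial : ℝ) * (C * 2 ^ m) * R⁻¹ * R ^ (m + 1 + k) =
          (m + 1 + k).factorial * (C * 2 ^ m) * R ^ m * R ^ k := by
        field_simp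
        ring
      rw [h5, mul_pow]
      have h6 : 0 ≤ ((m + 1 + k).factorial : ℝ) * (C * 2 ^ m) * R ^ m := by positivity
      nlinarith [mul_le_mul_of_nonneg_left h4 h6]
    have h2 := (tendsto_inv_atTop_zero (𝕜 := ℝ)).const_mul ((n.factorial : ℝ) * (C * 2 ^ m))
    rw [mul_zero] at h2
    exact ge_of_tendsto h2 (eventually_atTop.2 ⟨1, h1⟩)
  refine ⟨∑ n ∈ Finset.range (m + 1), Polynomial.C ((n.factorial : ℂ)⁻¹ * iteratedDeriv n G 0) *
    X ^ n, ?_, fun q => ?_⟩
  · refine Polynomial.natDegree_sum_le_of_forall_le _ _ fun n hn => ?_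
    have := Finset.mem_range.1 hn
    refine (Polynomial.natDegree_C_mul_X_pow_le _ _).trans (by omega)
  · rw [Polynomial.eval_finsetSum]
    have h1 := Complex.taylorSeries_eq_of_entire' 0 q hG
    rw [← h1, tsum_eq_sum (s := Finset.range (m + 1))]
    · refine Finset.sum_congr rfl fun n _ => ?_
      rw [Polynomial.eval_mul, Polynomial.eval_C, Polynomial.eval_pow, Polynomial.eval_X, sub_zero]
    · intro n hn
      rw [Finset.mem_range, not_lt] at hn
      rw [h0 n (by omega), mul_zero, zero_mul]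

/-- Equicontinuity of a bounded family of holomorphic functions. -/
theorem equicont_aux {ι : Type*} {W : Set ℂ} (hWo : IsOpen W) (G : ι → ℂ → ℂ)
    (hF : ∀ n, DifferentiableOn ℂ (G n) W) (K : ℝ) (hM : ∀ n, ∀ z ∈ W, ‖G n z‖ ≤ K) (hM0 : 0 ≤ K)
    {x : ℂ} (hx : x ∈ W) {ε : ℝ} (hε : 0 < ε) :
    ∀ᶠ y in 𝓝 x, ∀ n, dist (G n y) (G n x) < ε := by
  obtain ⟨r, hr, hrW⟩ := Metric.isOpen_iff.1 hWo x hx
  have hc : 0 < (2 * K + 1) / r := by positivity
  have h1 : ∀ᶠ y in 𝓝 x, dist y x < min r (ε / ((2 * K + 1) / r)) :=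
    Metric.ball_mem_nhds x (by positivity)
  filter_upwards [h1] with y hy n
  have hy1 : y ∈ ball x r := lt_of_lt_of_le hy (min_le_left _ _)
  have hy2 : dist y x < ε / ((2 * K + 1) / r) := lt_of_lt_of_le hy (min_le_right _ _)
  have hmaps : MapsTo (G n) (ball x r) (ball (G n x) (2 * K + 1)) := by
    intro w hw
    rw [mem_ball, dist_eq_norm]
    calc ‖G n w - G n x‖ ≤ ‖G n w‖ + ‖G n x‖ := norm_sub_le _ _
      _ ≤ K + K := add_le_add (hM n w (hrW hw)) (hM n x hx)
      _ < 2 * K + 1 := by linarith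
  have h2 := Complex.dist_le_div_mul_dist_of_mapsTo_ball ((hF n).mono hrW)
    (hmaps.mono_right ball_subset_closedBall) hy1
  refine lt_of_le_of_lt h2 ?_
  rw [lt_div_iff₀ hc] at hy2
  linarith

/-- Montel along an ultrafilter. -/
theorem montel_aux {ι : Type*} {W : Set ℂ} (hWo : IsOpen W) (G : ι → ℂ → ℂ)
    (hF : ∀ n, DifferentiableOn ℂ (G n) W) (K : ℝ) (hK : 0 ≤ K) (hM : ∀ n, ∀ z ∈ W, ‖G n z‖ ≤ K)
    (𝒰 : Ultrafilter ι) :
    ∃ Φ : ℂ → ℂ, DifferentiableOn ℂ Φ W ∧
      ∀ z ∈ W, Tendsto (fun i => G i z) (𝒰 : Filter ι) (𝓝 (Φ z)) := by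
  have h1 : ∀ z, ∃ v : ℂ, z ∈ W → Tendsto (fun n => G n z) 𝒰 (𝓝 v) := by
    intro z
    by_cases hz : z ∈ W
    · have hcomp := isCompact_closedBall (0 : ℂ) K
      have hle : ((𝒰.map (fun n => G n z) : Ultrafilter ℂ) : Filter ℂ) ≤ 𝓟 (closedBall 0 K) := by
        rw [le_principal_iff, Ultrafilter.coe_map, Filter.mem_map]
        refine Filter.mem_of_superset Filter.univ_mem ?_
        intro n _
        show G n z ∈ closedBall 0 K
        rw [mem_closedBall_zero_iff]
        exact hM n z hz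
      obtain ⟨v, -, hv⟩ := hcomp.ultrafilter_le_nhds _ hle
      exact ⟨v, fun _ => hv⟩
    · exact ⟨0, fun h => absurd h hz⟩
  choose Φ hΦ using h1
  have hlu : TendstoLocallyUniformlyOn G Φ (𝒰 : Filter ι) W := by
    rw [Metric.tendstoLocallyUniformlyOn_iff]
    intro ε hε x hx
    have h2 := equicont_aux hWo G hF K hM hK hx (show 0 < ε / 4 by linarith)
    refine ⟨{y | ∀ n, dist (G n y) (G n x) < ε / 4} ∩ W, ?_, ?_⟩
    · exact inter_mem (mem_nhdsWithin_of_mem_nhds h2) self_mem_nhdsWithin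
    · have h3 : ∀ᶠ n in (𝒰 : Filter ι), dist (G n x) (Φ x) < ε / 4 :=
        (hΦ x hx) (Metric.ball_mem_nhds _ (by linarith))
      filter_upwards [h3] with n hn y hy
      have h4 : dist (Φ y) (Φ x) ≤ ε / 4 := by
        refine le_of_tendsto ((hΦ y hy.2).dist (hΦ x hx)) ?_
        exact Eventually.of_forall fun m => (hy.1 m).le
      have h5 := hy.1 n
      calc dist (Φ y) (G n y) ≤ dist (Φ y) (Φ x) + dist (Φ x) (G n x) + dist (G n x) (G n y) :=
            dist_triangle4 _ _ _ _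
        _ < ε := by
            rw [dist_comm (Φ x), dist_comm (G n x) (G n y)]
            linarith
  exact ⟨Φ, hlu.differentiableOn (Eventually.of_forall hF) hWo, fun z hz => hΦ z hz⟩

/-- functions on growing discs, locally uniformly bounded, converge along an ultrafilter to an
entire function -/
theorem limit_entire (𝒰 : Ultrafilter ℕ) (h𝒰 : (𝒰 : Filter ℕ) ≤ atTop) (w : ℕ → ℂ → ℂ)
    (M : ℝ → ℝ) (hd : ∀ (k : ℕ) (ρ : ℝ), 0 < ρ → ρ < k → DifferentiableOn ℂ (w k) (ball 0 ρ) ∧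
      ∀ t ∈ ball (0 : ℂ) ρ, ‖w k t‖ ≤ M ρ) :
    ∃ W : ℂ → ℂ, Differentiable ℂ W ∧ ∀ t, Tendsto (fun k => w k t) 𝒰 (𝓝 (W t)) := by
  classical
  have key : ∀ n : ℕ, ∃ Φ : ℂ → ℂ, DifferentiableOn ℂ Φ (ball 0 (n + 1)) ∧
      ∀ z ∈ ball (0 : ℂ) (n + 1), Tendsto (fun i => w i z) (𝒰 : Filter ℕ) (𝓝 (Φ z)) := by
    intro n
    have hn : (0 : ℝ) < n + 1 := by positivity
    let G : ℕ → ℂ → ℂ := fun k => if ((n : ℝ) + 1 < k) then w k else fun _ => 0
    obtain ⟨Φ, h1, h2⟩ := montel_aux (isOpen_ball (x := (0 : ℂ)) (ε := n + 1)) G (fun k => by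
      by_cases hk : (n : ℝ) + 1 < k
      · simp only [G, if_pos hk]
        exact (hd k _ hn hk).1
      · simp only [G, if_neg hk]
        exact differentiableOn_const _) |M (n + 1)| (abs_nonneg _) (fun k z hz => by
      by_cases hk : (n : ℝ) + 1 < k
      · simp only [G, if_pos hk]
        exact ((hd k _ hn hk).2 z hz).trans (le_abs_self _)
      · simp only [G, if_neg hk, norm_zero]
        exact abs_nonneg _) 𝒰
    refine ⟨Φ, h1, fun z hz => (h2 z hz).congr' ?_⟩
    have h3 : ∀ᶠ k : ℕ in atTop, (n : ℝ) + 1 < k := by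
      filter_upwards [eventually_gt_atTop (n + 1)] with k hk
      exact_mod_cast hk
    filter_upwards [h𝒰 h3] with k hk
    simp only [G, if_pos hk]
  choose Φ hΦ1 hΦ2 using key
  have hmem : ∀ t : ℂ, ∃ n : ℕ, t ∈ ball (0 : ℂ) (n + 1) := fun t => by
    obtain ⟨n, hn⟩ := exists_nat_gt ‖t‖
    exact ⟨n, by rw [mem_ball_zero_iff]; linarith⟩
  choose n hn using hmem
  refine ⟨fun t => Φ (n t) t, fun t => ?_, fun t => hΦ2 _ _ (hn t)⟩
  have h1 : (fun t => Φ (n t) t) =ᶠ[𝓝 t] Φ (n t) := by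
    filter_upwards [isOpen_ball.mem_nhds (hn t)] with s hs
    exact tendsto_nhds_unique (hΦ2 _ _ (hn s)) (hΦ2 _ _ hs)
  exact ((hΦ1 (n t)).differentiableAt (isOpen_ball.mem_nhds (hn t))).congr_of_eventuallyEq h1

/-- finitely many shifts -/
theorem exists_period {W : ℂ → ℂ} (hW : Differentiable ℂ W) {d : ℕ}
    (h : ∀ t, ∃ k l : ℕ, k < l ∧ l ≤ d ∧
      W (t + k * (2 * Real.pi * Complex.I)) = W (t + l * (2 * Real.pi * Complex.I))) :
    ∃ n : ℕ, 0 < n ∧ n ≤ d ∧ ∀ t, W (t + n * (2 * Real.pi * Complex.I)) = W t := by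
  classical
  let S : Fin (d + 1) × Fin (d + 1) → Set ℂ := fun p =>
    if p.1 < p.2 then {t | W (t + (p.1 : ℕ) * (2 * Real.pi * Complex.I)) =
      W (t + (p.2 : ℕ) * (2 * Real.pi * Complex.I))} else ∅
  have hS : ∀ p, IsClosed (S p) := by
    intro p
    by_cases hp : p.1 < p.2
    · simp only [S, if_pos hp]
      exact isClosed_eq (hW.continuous.comp (by fun_prop)) (hW.continuous.comp (by fun_prop))
    · simp only [S, if_neg hp]
      exact isClosed_empty
  have hU : ⋃ p, S p = univ := by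
    rw [eq_univ_iff_forall]
    intro t
    obtain ⟨k, l, h1, h2, h3⟩ := h t
    rw [mem_iUnion]
    refine ⟨(⟨k, by omega⟩, ⟨l, by omega⟩), ?_⟩
    simp only [S]
    rw [if_pos (by rw [Fin.lt_def]; exact h1)]
    exact h3
  obtain ⟨p, t0, ht0⟩ := nonempty_interior_of_iUnion_of_closed hS hU
  by_cases hp : p.1 < p.2
  · have hp' : (p.1 : ℕ) < p.2 := hp
    simp only [S, if_pos hp] at ht0
    have h1 : (fun t => W (t + (p.1 : ℕ) * (2 * Real.pi * Complex.I))) =
        fun t => W (t + (p.2 : ℕ) * (2 * Real.pi * Complex.I)) := by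
      refine AnalyticOnNhd.eq_of_eventuallyEq (𝕜 := ℂ) (z₀ := t0)
        (DifferentiableOn.analyticOnNhd (Differentiable.differentiableOn
          (hW.comp (by fun_prop))) isOpen_univ)
        (DifferentiableOn.analyticOnNhd (Differentiable.differentiableOn
          (hW.comp (by fun_prop))) isOpen_univ) ?_
      exact mem_of_superset (isOpen_interior.mem_nhds ht0) interior_subset
    refine ⟨p.2 - p.1, by omega, by have := p.2.2; omega, fun t => ?_⟩
    have h2 : W (t - (p.1 : ℕ) * (2 * Real.pi * Complex.I) +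
        (p.1 : ℕ) * (2 * Real.pi * Complex.I)) = W (t - (p.1 : ℕ) * (2 * Real.pi * Complex.I) +
        (p.2 : ℕ) * (2 * Real.pi * Complex.I)) :=
      congrFun h1 (t - (p.1 : ℕ) * (2 * Real.pi * Complex.I))
    rw [sub_add_cancel] at h2
    rw [h2]
    congr 1
    rw [Nat.cast_sub hp'.le]
    ring
  · simp only [S, if_neg hp, interior_empty] at ht0
    exact absurd ht0 (Set.notMem_empty _)

end Pool.Agent.X316.ZG
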