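import Pool.Agent.X316.ZG.Uni
import Pool.Agent.TH143.EL.Mero

/-!
Meromorphic functions which are algebraic over the derivatives of a jointly universal tuple.
-/

set_option autoImplicit false

open Filter Topology Metric Set Polynomial

namespace Pool.Agent.X316.ZG

variable {τ : Type} [Fintype τ]

omit [Fintype τ] in
theorem continuous_evroot (Φ : (MvPolynomial τ ℂ)[X][X]) :
    Continuous fun p : ((τ → ℂ) × ℂ) × ℂ => (Φ.map (evalAt p.1.1 p.1.2)).eval p.2 := by
  simp only [Polynomial.eval_map, Polynomial.eval₂_eq_sum_range]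
  exact continuous_finsetSum _ fun i _ =>
    ((continuous_evalAt _).comp continuous_fst).mul (continuous_snd.pow i)

omit [Fintype τ] in
/-- roots of monic polynomials are analytic where the coefficients are -/
theorem root_analytic {Φ : (MvPolynomial τ ℂ)[X][X]} (hΦ : Φ.Monic) {x : ℂ → τ → ℂ} {x0 w : ℂ → ℂ}
    {z0 : ℂ} (hx : ContinuousAt x z0) (hx0 : ContinuousAt x0 z0) (hw : MeromorphicNFAt w z0)
    (hr : ∀ᶠ z in 𝓝[≠] z0, (Φ.map (evalAt (x z) (x0 z))).eval (w z) = 0) :
    AnalyticAt ℂ w z0 ∧ (Φ.map (evalAt (x z0) (x0 z0))).eval (w z0) = 0 := by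
  have hcr : ContinuousAt (fun z => rb Φ (x z, x0 z)) z0 :=
    (continuous_rb Φ).continuousAt.comp (f := fun z => (x z, x0 z)) (hx.prodMk hx0)
  have hw1 : AnalyticAt ℂ w z0 := by
    rw [← hw.meromorphicOrderAt_nonneg_iff_analyticAt]
    by_contra hneg
    rw [not_le] at hneg
    have h1 := (tendsto_cobounded_iff_meromorphicOrderAt_neg hw.meromorphicAt).2 hneg
    rw [← tendsto_norm_atTop_iff_cobounded] at h1
    have h2 : ∀ᶠ z in 𝓝[≠] z0, rb Φ (x z, x0 z) < rb Φ (x z0, x0 z0) + 1 :=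
      (hcr.tendsto.mono_left nhdsWithin_le_nhds).eventually (gt_mem_nhds (by linarith))
    obtain ⟨z, ⟨h3, h4⟩, h5⟩ := (((h1.eventually (eventually_ge_atTop
      (rb Φ (x z0, x0 z0) + 1))).and h2).and hr).exists
    linarith [norm_root_le hΦ h5]
  refine ⟨hw1, ?_⟩
  have h1 : ContinuousAt (fun z => (Φ.map (evalAt (x z) (x0 z))).eval (w z)) z0 :=
    (continuous_evroot Φ).continuousAt.comp (f := fun z => ((x z, x0 z), w z))
      ((hx.prodMk hx0).prodMk hw1.continuousAt)
  have h2 : Tendsto (fun z => (Φ.map (evalAt (x z) (x0 z))).eval (w z)) (𝓝[≠] z0)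
      (𝓝 ((Φ.map (evalAt (x z0) (x0 z0))).eval (w z0))) := h1.tendsto.mono_left nhdsWithin_le_nhds
  exact tendsto_nhds_unique h2 (tendsto_const_nhds.congr' (hr.mono fun z hz => hz.symm))

variable {ι : Type} {T : Finset (ι × ℕ)} {j0 : ι} {m : ℕ}

/-- the sequences of arguments -/
theorem exists_seq {u : ι → ℂ → ℂ} (hu : JointlyUniversal u) (hT : ∀ v ∈ T, v.1 = j0 → v.2 < m)
    (a : T → ℂ) (ha : ∀ v : T, v.1.2 = 0 → a v ≠ 0) :
    ∃ (c : ℕ → ℂ) (δ : ℕ → ℝ), (∀ k, 0 < δ k) ∧
      (∀ k j, (j = j0 ∨ ∃ v ∈ T, v.1 = j) →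
        DifferentiableOn ℂ (u j) (ball (c k) (δ k * (k + 2)))) ∧
      (∀ (k : ℕ) (t : ℂ), ‖t‖ < k + 1 → ∀ v : T,
        ‖iteratedDeriv v.1.2 (u v.1.1) (c k + δ k * t) - a v‖ ≤ 1 / (k + 1)) ∧
      ∀ (k : ℕ) (t : ℂ), ‖t‖ < k + 1 →
        ‖iteratedDeriv m (u j0) (c k + δ k * t) - Complex.exp t‖ ≤ 1 / (k + 1) := by
  classical
  let J : Finset ι := insert j0 (T.image Prod.fst)
  have hJ : ∀ v : T, v.1.1 ∈ J := fun v =>
    Finset.mem_insert_of_mem (Finset.mem_image_of_mem _ v.2)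
  let a' : J → ℕ → ℂ := fun j i => if h : (j.1, i) ∈ T then a ⟨(j.1, i), h⟩ else 1
  have ha' : ∀ j : J, j ≠ ⟨j0, Finset.mem_insert_self _ _⟩ ∨ 0 < m → a' j 0 ≠ 0 := by
    intro j _
    by_cases h : (j.1, 0) ∈ T
    · simp only [a', dif_pos h]
      exact ha _ rfl
    · simp only [a', dif_neg h]
      exact one_ne_zero
  obtain ⟨n, hn⟩ : ∃ n, m < n ∧ ∀ v ∈ T, v.2 < n := by
    refine ⟨(T.sup fun v => v.2) + m + 1, by omega, fun v hv => ?_⟩
    have h1 : v.2 ≤ T.sup fun v => v.2 := Finset.le_sup (f := fun v : ι × ℕ => v.2) hv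
    omega
  have h1 : ∀ k : ℕ, _ := fun k => exists_shift (hu.approx J) ⟨j0, Finset.mem_insert_self _ _⟩
    hn.1 a' ha' (R := k + 1) (ε := 1 / (k + 1)) (by positivity) (by positivity)
  choose c δ hδ hd hc using h1
  refine ⟨c, δ, hδ, fun k j hj => ?_, fun k t ht v => ?_, fun k t ht => ((hc k t ht).2).le⟩
  · have hjJ : j ∈ J := by
      rcases hj with rfl | ⟨v, hv, rfl⟩
      · exact Finset.mem_insert_self _ _
      · exact hJ ⟨v, hv⟩
    have h2 := hd k ⟨j, hjJ⟩
    have h3 : (k : ℝ) + 1 + 1 = k + 2 := by ring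
    rwa [h3] at h2
  · have h2 := (hc k t ht).1 ⟨v.1.1, hJ v⟩ v.1.2 (hn.2 v v.2) (by
      by_cases h : v.1.1 = j0
      · exact Or.inr (hT v v.2 h)
      · exact Or.inl fun h' => h (congrArg Subtype.val h'))
    have h3 : a' ⟨v.1.1, hJ v⟩ v.1.2 = a v := by
      simp only [a', Prod.mk.eta]
      rw [dif_pos v.2]
    rw [h3] at h2
    exact h2.le

theorem an_deriv {f : ℂ → ℂ} {c z : ℂ} {r : ℝ} (h : DifferentiableOn ℂ f (ball c r))
    (hz : z ∈ ball c r) (i : ℕ) : AnalyticAt ℂ (iteratedDeriv i f) z := by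
  have h1 := h.analyticOnNhd isOpen_ball z hz
  induction i with
  | zero => rwa [iteratedDeriv_zero]
  | succ n ih =>
    rw [iteratedDeriv_succ]
    exact ih.deriv

/-- **The key lemma**: the specialisations of the algebraic equation have polynomial solutions. -/
theorem key {u : ι → ℂ → ℂ} (hu : JointlyUniversal u) (hT : ∀ v ∈ T, v.1 = j0 → v.2 < m)
    {Φ : (MvPolynomial T ℂ)[X][X]} (hΦ : Φ.Monic) {w : ℂ → ℂ} (hw : Meromorphic w)
    (hr : ∀ᶠ z in codiscrete ℂ, (Φ.map (evalAt (fun v : T => iteratedDeriv v.1.2 (u v.1.1) z)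
      (iteratedDeriv m (u j0) z))).eval (w z) = 0)
    (a : T → ℂ) (ha : ∀ v : T, v.1.2 = 0 → a v ≠ 0) :
    ∃ G : ℂ[X], G.natDegree ≤ Φ.natDegree.factorial * dg Φ ∧
      ((Φ.map (Polynomial.mapRingHom (MvPolynomial.eval a))).map
        (Polynomial.expand ℂ Φ.natDegree.factorial).toRingHom).eval G = 0 := by
  classical
  obtain ⟨c, δ, hδ, hd, h1, h2⟩ := exists_seq hu hT a ha
  have hwm : MeromorphicOn w univ := fun z _ => hw z
  let w' : ℂ → ℂ := toMeromorphicNFOn w univ
  have hw' : MeromorphicNFOn w' univ := meromorphicNFOn_toMeromorphicNFOn w univ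
  have hww : ∀ᶠ z in codiscrete ℂ, w z = w' z := toMeromorphicNFOn_eqOn_codiscrete hwm
  have hmem : ∀ (k : ℕ) (t : ℂ), ‖t‖ < k + 1 → c k + δ k * t ∈ ball (c k) (δ k * (k + 2)) := by
    intro k t ht
    rw [mem_ball, dist_eq_norm, add_sub_cancel_left, norm_mul, Complex.norm_real,
      Real.norm_of_nonneg (hδ k).le]
    exact mul_lt_mul_of_pos_left (by linarith) (hδ k)
  have hreg : ∀ (k : ℕ) (t : ℂ), ‖t‖ < k + 1 → AnalyticAt ℂ w' (c k + δ k * t) ∧
      (Φ.map (evalAt (fun v : T => iteratedDeriv v.1.2 (u v.1.1) (c k + δ k * t))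
        (iteratedDeriv m (u j0) (c k + δ k * t)))).eval (w' (c k + δ k * t)) = 0 := by
    intro k t ht
    have h3 := hmem k t ht
    refine root_analytic hΦ (x := fun z (v : T) => iteratedDeriv v.1.2 (u v.1.1) z)
      (x0 := iteratedDeriv m (u j0)) (w := w') ?_ ?_ (hw' (mem_univ _)) ?_
    · rw [continuousAt_pi]
      exact fun v => (an_deriv (hd k v.1.1 (Or.inr ⟨v, v.2, rfl⟩)) h3 v.1.2).continuousAt
    · exact (an_deriv (hd k j0 (Or.inl rfl)) h3 m).continuousAt
    · filter_upwards [Pool.Agent.TH143.EL.codis_ev hr (c k + δ k * t),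
        Pool.Agent.TH143.EL.codis_ev hww (c k + δ k * t)] with z h4 h5
      rwa [← h5]
  have hk1 : ∀ (k : ℕ) (t : ℂ), t ∈ ball (0 : ℂ) k → ‖t‖ < k + 1 := fun k t ht => by
    rw [mem_ball_zero_iff] at ht
    linarith
  obtain ⟨W, hW, hWr⟩ := exists_limit_root hΦ a
    (fun k t v => iteratedDeriv v.1.2 (u v.1.1) (c k + δ k * t))
    (fun k t => iteratedDeriv m (u j0) (c k + δ k * t)) (fun k t => w' (c k + δ k * t))
    (fun k t ht => by
      have h3 := (hreg k t (hk1 k t ht)).1.differentiableAt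
      exact (h3.comp t (f := fun t : ℂ => c k + δ k * t) (by fun_prop)).differentiableWithinAt)
    (fun k t ht => (hreg k t (hk1 k t ht)).2) (fun k t ht v => h1 k t (hk1 k t ht) v)
    (fun k t ht => h2 k t (hk1 k t ht))
  exact exists_poly_root hΦ hW hWr

/-- the derivatives are algebraically independent -/
theorem key_indep {u : ι → ℂ → ℂ} (hu : JointlyUniversal u)
    (hT : ∀ v ∈ T, v.1 = j0 → v.2 < m) {P : (MvPolynomial T ℂ)[X]}
    (hr : ∀ᶠ z in codiscrete ℂ, evalAt (fun v : T => iteratedDeriv v.1.2 (u v.1.1) z)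
      (iteratedDeriv m (u j0) z) P = 0) : P = 0 := by
  classical
  have key : ∀ a : T → ℂ, (∀ v : T, v.1.2 = 0 → a v ≠ 0) → ∀ i, MvPolynomial.eval a (P.coeff i) = 0 := by
    intro a ha
    obtain ⟨c, δ, hδ, hd, h1, h2⟩ := exists_seq hu hT a ha
    have hmem : ∀ (k : ℕ) (t : ℂ), ‖t‖ < k + 1 → c k + δ k * t ∈ ball (c k) (δ k * (k + 2)) := by
      intro k t ht
      rw [mem_ball, dist_eq_norm, add_sub_cancel_left, norm_mul, Complex.norm_real,
        Real.norm_of_nonneg (hδ k).le]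
      exact mul_lt_mul_of_pos_left (by linarith) (hδ k)
    have hzero : ∀ (k : ℕ) (t : ℂ), ‖t‖ < k + 1 →
        evalAt (fun v : T => iteratedDeriv v.1.2 (u v.1.1) (c k + δ k * t))
          (iteratedDeriv m (u j0) (c k + δ k * t)) P = 0 := by
      intro k t ht
      have h3 := hmem k t ht
      have hc1 : ContinuousAt (fun z (v : T) => iteratedDeriv v.1.2 (u v.1.1) z)
          (c k + δ k * t) := by
        rw [continuousAt_pi]
        exact fun v => (an_deriv (hd k v.1.1 (Or.inr ⟨v, v.2, rfl⟩)) h3 v.1.2).continuousAt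
      have hc2 : ContinuousAt (iteratedDeriv m (u j0)) (c k + δ k * t) :=
        (an_deriv (hd k j0 (Or.inl rfl)) h3 m).continuousAt
      have h4 : ContinuousAt (fun z => evalAt (fun v : T => iteratedDeriv v.1.2 (u v.1.1) z)
          (iteratedDeriv m (u j0) z) P) (c k + δ k * t) :=
        (continuous_evalAt P).continuousAt.comp (f := fun z =>
          ((fun v : T => iteratedDeriv v.1.2 (u v.1.1) z), iteratedDeriv m (u j0) z))
          (hc1.prodMk hc2)
      have h5 := h4.tendsto.mono_left (nhdsWithin_le_nhds (s := {c k + δ k * t}ᶜ))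
      exact tendsto_nhds_unique h5 (tendsto_const_nhds.congr'
        ((Pool.Agent.TH143.EL.codis_ev hr (c k + δ k * t)).mono fun z hz => hz.symm))
    have hexp : ∀ t : ℂ, evalAt a (Complex.exp t) P = 0 := by
      intro t
      have hev : ∀ᶠ k : ℕ in atTop, ‖t‖ < k + 1 := by
        obtain ⟨n, hn⟩ := exists_nat_gt ‖t‖
        filter_upwards [eventually_ge_atTop n] with k hk
        have : (n : ℝ) ≤ k := by exact_mod_cast hk
        linarith
      have hlim : Tendsto (fun k : ℕ => (1 : ℝ) / (k + 1)) atTop (𝓝 0) :=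
        tendsto_one_div_add_atTop_nhds_zero_nat
      have hXt : Tendsto (fun (k : ℕ) (v : T) => iteratedDeriv v.1.2 (u v.1.1) (c k + δ k * t))
          atTop (𝓝 a) := by
        rw [tendsto_pi_nhds]
        intro v
        rw [tendsto_iff_norm_sub_tendsto_zero]
        exact squeeze_zero' (Eventually.of_forall fun _ => norm_nonneg _)
          (hev.mono fun k hk => h1 k t hk v) hlim
      have hxt : Tendsto (fun k : ℕ => iteratedDeriv m (u j0) (c k + δ k * t)) atTop
          (𝓝 (Complex.exp t)) := by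
        rw [tendsto_iff_norm_sub_tendsto_zero]
        exact squeeze_zero' (Eventually.of_forall fun _ => norm_nonneg _)
          (hev.mono fun k hk => h2 k t hk) hlim
      have h3 := ((continuous_evalAt P).tendsto (a, Complex.exp t)).comp (hXt.prodMk_nhds hxt)
      exact tendsto_nhds_unique h3 (tendsto_const_nhds.congr' (hev.mono fun k hk =>
        (hzero k t hk).symm))
    have hmap : P.map (MvPolynomial.eval a) = 0 := by
      refine Polynomial.eq_zero_of_infinite_isRoot _ (Set.Infinite.mono (s := {0}ᶜ) ?_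
        (Set.Finite.infinite_compl (Set.finite_singleton (0 : ℂ))))
      intro x hx
      have hx0 : x ≠ 0 := hx
      have h3 := hexp (Complex.log x)
      rw [Complex.exp_log hx0] at h3
      exact h3
    intro i
    have h3 := congrArg (fun Q => Q.coeff i) hmap
    simpa only [Polynomial.coeff_map, Polynomial.coeff_zero] using h3
  ext1 i
  rw [Polynomial.coeff_zero]
  by_contra hne
  -- a point where nothing vanishes
  have hprod : P.coeff i * ∏ v : T, (MvPolynomial.X v : MvPolynomial T ℂ) ≠ 0 :=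
    mul_ne_zero hne (Finset.prod_ne_zero_iff.2 fun v _ => MvPolynomial.X_ne_zero v)
  obtain ⟨a, ha⟩ : ∃ a : T → ℂ, MvPolynomial.eval a (P.coeff i * ∏ v : T, MvPolynomial.X v) ≠ 0 := by
    by_contra hcon
    push Not at hcon
    exact hprod (MvPolynomial.funext fun a => by rw [hcon a, map_zero])
  rw [map_mul, map_prod] at ha
  simp only [MvPolynomial.eval_X] at ha
  have h3 := right_ne_zero_of_mul ha
  rw [Finset.prod_ne_zero_iff] at h3
  exact left_ne_zero_of_mul ha (key a (fun v _ => h3 v (Finset.mem_univ v)) i)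

end Pool.Agent.X316.ZG
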