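import Pool.Agent.X316.ZG.Mfd

/-!
Entire functions which are algebraic over the derivatives of a jointly universal family: the
specialisations are polynomials in a root of the exponential function and its inverse.
-/

set_option autoImplicit false

open Filter Topology Metric Set Polynomial

namespace Pool.Agent.X316.ZG

/-- a quotient of polynomials which is bounded near all points except zero -/
theorem dvd_of_bound {p q : ℂ[X]} (hq : q ≠ 0)
    (h : ∀ α : ℂ, α ≠ 0 → ∃ C : ℝ, ∀ᶠ v in 𝓝 α, ‖p.eval v‖ ≤ C * ‖q.eval v‖) {K : ℕ}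
    (hK : q.natDegree ≤ K) : q ∣ X ^ K * p := by
  classical
  obtain ⟨q1, p1, c, hrel, hq1, hp1⟩ := UniqueFactorizationMonoid.exists_reduced_factors q hq p
  have hc0 : c ≠ 0 := by
    rintro rfl
    rw [zero_mul] at hq1
    exact hq hq1.symm
  have hq10 : q1 ≠ 0 := by
    rintro rfl
    rw [mul_zero] at hq1
    exact hq hq1.symm
  have hcop : IsCoprime q1 p1 := hrel.isCoprime
  have hroots : ∀ α ∈ q1.roots, α = 0 := by
    intro α hα
    by_contra hα0
    rw [Polynomial.mem_roots hq10, Polynomial.IsRoot.def] at hα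
    obtain ⟨C, hC⟩ := h α hα0
    have h1 : ∀ᶠ v in 𝓝[≠] α, ‖p1.eval v‖ ≤ C * ‖q1.eval v‖ := by
      have h2 : ∀ᶠ v in 𝓝[≠] α, c.eval v ≠ 0 := by
        have h3 : (c.roots.toFinset : Set ℂ).Finite := c.roots.toFinset.finite_toSet
        have h4 : ((c.roots.toFinset : Set ℂ) \ {α}).Finite := h3.subset sdiff_subset
        have h5 : ((c.roots.toFinset : Set ℂ) \ {α})ᶜ ∈ 𝓝 α :=
          h4.isClosed.isOpen_compl.mem_nhds (by simp)
        rw [eventually_nhdsWithin_iff]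
        filter_upwards [h5] with v hv hvα h0
        apply hv
        refine ⟨?_, hvα⟩
        rw [Finset.mem_coe, Multiset.mem_toFinset, Polynomial.mem_roots hc0]
        exact h0
      filter_upwards [h2, nhdsWithin_le_nhds hC] with v h3 h4
      rw [← hq1, ← hp1, Polynomial.eval_mul, Polynomial.eval_mul, norm_mul, norm_mul] at h4
      have h5 : 0 < ‖c.eval v‖ := norm_pos_iff.2 h3
      have h6 : ‖c.eval v‖ * ‖p1.eval v‖ ≤ ‖c.eval v‖ * (C * ‖q1.eval v‖) := by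
        calc _ ≤ _ := h4
          _ = _ := by ring
      exact le_of_mul_le_mul_left h6 h5
    have h2 : ‖p1.eval α‖ ≤ C * ‖q1.eval α‖ := by
      have h3 : Tendsto (fun v => ‖p1.eval v‖) (𝓝[≠] α) (𝓝 ‖p1.eval α‖) :=
        (p1.continuous.norm.tendsto α).mono_left nhdsWithin_le_nhds
      have h4 : Tendsto (fun v => C * ‖q1.eval v‖) (𝓝[≠] α) (𝓝 (C * ‖q1.eval α‖)) :=
        ((continuous_const.mul q1.continuous.norm).tendsto α).mono_left nhdsWithin_le_nhds
      exact le_of_tendsto_of_tendsto h3 h4 h1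
    rw [hα, norm_zero, mul_zero] at h2
    have h3 : p1.eval α = 0 := norm_eq_zero.1 (le_antisymm h2 (norm_nonneg _))
    obtain ⟨r, s, hrs⟩ := hcop
    have h4 := congrArg (Polynomial.eval α) hrs
    rw [Polynomial.eval_add, Polynomial.eval_mul, Polynomial.eval_mul, hα, h3, mul_zero, mul_zero,
      add_zero, Polynomial.eval_one] at h4
    exact zero_ne_one h4
  have h1 : q1.roots = Multiset.replicate q1.natDegree 0 := by
    rw [Multiset.eq_replicate]
    exact ⟨(IsAlgClosed.splits q1).natDegree_eq_card_roots.symm, hroots⟩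
  have h2 : q1 = Polynomial.C q1.leadingCoeff * X ^ q1.natDegree := by
    conv_lhs => rw [(IsAlgClosed.splits q1).eq_prod_roots]
    rw [h1]
    simp
  have h3 : q1 ∣ X ^ K := by
    have h4 : q1.natDegree ≤ K := by
      refine le_trans ?_ hK
      rw [← hq1, Polynomial.natDegree_mul hc0 hq10]
      omega
    have h5 : q1.leadingCoeff ≠ 0 := Polynomial.leadingCoeff_ne_zero.2 hq10
    generalize q1.leadingCoeff = c0 at h2 h5
    generalize q1.natDegree = n at h2 h4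
    refine ⟨Polynomial.C c0⁻¹ * X ^ (K - n), ?_⟩
    have h7 : (X : ℂ[X]) ^ K = X ^ n * X ^ (K - n) := by
      rw [← pow_add, Nat.add_sub_cancel' h4]
    have h6 : Polynomial.C c0 * Polynomial.C c0⁻¹ = 1 := by
      rw [← Polynomial.C_mul, mul_inv_cancel₀ h5, Polynomial.C_1]
    rw [h2]
    calc (X : ℂ[X]) ^ K = (Polynomial.C c0 * Polynomial.C c0⁻¹) *
        (X ^ n * X ^ (K - n)) := by rw [h6, one_mul, h7]
      _ = _ := by ring
  obtain ⟨s, hs⟩ := h3
  refine ⟨s * p1, ?_⟩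
  rw [hs, ← hp1]
  conv_rhs => rw [← hq1]
  ring

theorem sp_eq_sum {R A : Type} [CommRing R] [CommRing A] (Ψ : R[X][X]) (φ : R →+* A) (N : ℕ)
    (G : A[X]) : sp Ψ φ N G = ∑ i ∈ Finset.range (Ψ.natDegree + 1),
      Polynomial.expand A N ((Ψ.coeff i).map φ) * G ^ i := by
  unfold sp
  rw [Polynomial.map_map, Polynomial.eval_map, Polynomial.eval₂_eq_sum_range]
  rfl

theorem sp_natDegree_le {R A : Type} [CommRing R] [CommRing A] (Ψ : R[X][X]) (φ : R →+* A) (N : ℕ)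
    {G : A[X]} {B : ℕ} (hG : G.natDegree ≤ B) : (sp Ψ φ N G).natDegree ≤
      (Finset.range (Ψ.natDegree + 1)).sup fun i => N * (Ψ.coeff i).natDegree + i * B := by
  rw [sp_eq_sum]
  refine Polynomial.natDegree_sum_le_of_forall_le _ _ fun i hi => ?_
  have h1 : N * (Ψ.coeff i).natDegree + i * B ≤
      (Finset.range (Ψ.natDegree + 1)).sup fun i => N * (Ψ.coeff i).natDegree + i * B :=
    Finset.le_sup (f := fun i => N * (Ψ.coeff i).natDegree + i * B) hi
  refine le_trans ?_ h1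
  refine (Polynomial.natDegree_mul_le).trans ?_
  refine Nat.add_le_add ?_ ?_
  · rw [Polynomial.natDegree_expand, mul_comm]
    exact Nat.mul_le_mul_left _ Polynomial.natDegree_map_le
  · exact Polynomial.natDegree_pow_le.trans (Nat.mul_le_mul_left _ hG)

theorem sp_C {R A : Type} [CommRing R] [CommRing A] (b : R[X]) (φ : R →+* A) (N : ℕ)
    (G : A[X]) : sp (Polynomial.C b) φ N G = Polynomial.expand A N (b.map φ) := by
  unfold sp
  rw [Polynomial.map_map, Polynomial.eval_map, Polynomial.eval₂_C]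
  rfl

theorem sp_eval {τ : Type} (Ψ : (MvPolynomial τ ℂ)[X][X]) (a : τ → ℂ) (N : ℕ) (G : ℂ[X])
    (v : ℂ) : (sp Ψ (MvPolynomial.eval a) N G).eval v =
      (Ψ.map (evalAt a (v ^ N))).eval (G.eval v) := by
  rw [sp_eq_sum, Polynomial.eval_finsetSum, Polynomial.eval_map, Polynomial.eval₂_eq_sum_range]
  refine Finset.sum_congr rfl fun i _ => ?_
  rw [Polynomial.eval_mul, Polynomial.eval_pow, Polynomial.expand_eval]
  rfl

variable {τ : Type} [Fintype τ]

/-- the limit of roots along arguments which converge to `(a, exp t)` -/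
theorem exists_limit_root' {Φ : (MvPolynomial τ ℂ)[X][X]} (hΦ : Φ.Monic) (a : τ → ℂ)
    (Xk : ℕ → ℂ → τ → ℂ) (xk wk : ℕ → ℂ → ℂ)
    (hw : ∀ k : ℕ, DifferentiableOn ℂ (wk k) (ball 0 k))
    (hroot : ∀ k : ℕ, ∀ t ∈ ball (0 : ℂ) k,
      (Φ.map (evalAt (Xk k t) (xk k t))).eval (wk k t) = 0)
    (hX : ∀ k : ℕ, ∀ t ∈ ball (0 : ℂ) k, ∀ v, ‖Xk k t v - a v‖ ≤ 1 / (k + 1))
    (hx : ∀ k : ℕ, ∀ t ∈ ball (0 : ℂ) k, ‖xk k t - Complex.exp t‖ ≤ 1 / (k + 1)) :
    ∃ (𝒰 : Ultrafilter ℕ) (W : ℂ → ℂ), (𝒰 : Filter ℕ) ≤ atTop ∧ Differentiable ℂ W ∧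
      (∀ t, Tendsto (fun k => wk k t) 𝒰 (𝓝 (W t))) ∧
      (∀ t, Tendsto (fun k => ((Xk k t, xk k t) : (τ → ℂ) × ℂ)) 𝒰 (𝓝 (a, Complex.exp t))) ∧
      ∀ t, (Φ.map (evalAt a (Complex.exp t))).eval (W t) = 0 := by
  have hk1 : ∀ k : ℕ, (1 : ℝ) / (k + 1) ≤ 1 := fun k => by
    rw [div_le_one (by positivity)]
    linarith [(Nat.cast_nonneg k : (0 : ℝ) ≤ k)]
  -- bounds on compact sets
  have hM : ∀ ρ : ℝ, ∃ M : ℝ, ∀ p : (τ → ℂ) × ℂ, ‖p.1‖ ≤ ‖a‖ + 1 → ‖p.2‖ ≤ Real.exp ρ + 1 →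
      rb Φ p ≤ M := by
    intro ρ
    have hc : IsCompact (closedBall (0 : τ → ℂ) (‖a‖ + 1) ×ˢ closedBall (0 : ℂ) (Real.exp ρ + 1)) :=
      (isCompact_closedBall _ _).prod (isCompact_closedBall _ _)
    obtain ⟨M, hM⟩ := hc.exists_bound_of_continuousOn (continuous_rb Φ).continuousOn
    refine ⟨M, fun p h1 h2 => (le_abs_self _).trans ?_⟩
    exact hM p ⟨by rwa [mem_closedBall_zero_iff], by rwa [mem_closedBall_zero_iff]⟩
  choose M hM using hM
  obtain ⟨𝒰, h𝒰⟩ : ∃ 𝒰 : Ultrafilter ℕ, (𝒰 : Filter ℕ) ≤ atTop := Ultrafilter.exists_le _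
  obtain ⟨W, hW, hWt⟩ := limit_entire 𝒰 h𝒰 wk M (fun k ρ hρ hρk => by
    refine ⟨(hw k).mono (ball_subset_ball hρk.le), fun t ht => ?_⟩
    have htk : t ∈ ball (0 : ℂ) k := ball_subset_ball hρk.le ht
    refine (norm_root_le hΦ (hroot k t htk)).trans (hM ρ _ ?_ ?_)
    · have h1 : ‖Xk k t - a‖ ≤ 1 := by
        rw [pi_norm_le_iff_of_nonneg zero_le_one]
        exact fun v => (hX k t htk v).trans (hk1 k)
      calc ‖Xk k t‖ = ‖a + (Xk k t - a)‖ := by congr 1; abel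
        _ ≤ ‖a‖ + ‖Xk k t - a‖ := norm_add_le _ _
        _ ≤ ‖a‖ + 1 := by linarith
    · have h1 := (hx k t htk).trans (hk1 k)
      have h2 : ‖Complex.exp t‖ ≤ Real.exp ρ := by
        rw [Complex.norm_exp, Real.exp_le_exp]
        have h3 : ‖t‖ < ρ := by rwa [mem_ball_zero_iff] at ht
        linarith [Complex.re_le_norm t]
      calc ‖xk k t‖ = ‖Complex.exp t + (xk k t - Complex.exp t)‖ := by congr 1; ring
        _ ≤ ‖Complex.exp t‖ + ‖xk k t - Complex.exp t‖ := norm_add_le _ _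
        _ ≤ Real.exp ρ + 1 := by linarith)
  have hev : ∀ t : ℂ, ∀ᶠ k : ℕ in (𝒰 : Filter ℕ), t ∈ ball (0 : ℂ) k := by
    intro t
    refine h𝒰 ?_
    obtain ⟨n, hn⟩ := exists_nat_gt ‖t‖
    filter_upwards [eventually_ge_atTop n] with k hk
    rw [mem_ball_zero_iff]
    exact hn.trans_le (by exact_mod_cast hk)
  have hlim : Tendsto (fun k : ℕ => (1 : ℝ) / (k + 1)) (𝒰 : Filter ℕ) (𝓝 0) :=
    tendsto_one_div_add_atTop_nhds_zero_nat.mono_left h𝒰
  have hlimp : ∀ t, Tendsto (fun k => ((Xk k t, xk k t) : (τ → ℂ) × ℂ)) 𝒰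
      (𝓝 (a, Complex.exp t)) := by
    intro t
    have hXt : Tendsto (fun k => Xk k t) (𝒰 : Filter ℕ) (𝓝 a) := by
      rw [tendsto_pi_nhds]
      intro v
      rw [tendsto_iff_norm_sub_tendsto_zero]
      exact squeeze_zero' (Eventually.of_forall fun _ => norm_nonneg _)
        ((hev t).mono fun k hk => hX k t hk v) hlim
    have hxt : Tendsto (fun k => xk k t) (𝒰 : Filter ℕ) (𝓝 (Complex.exp t)) := by
      rw [tendsto_iff_norm_sub_tendsto_zero]
      exact squeeze_zero' (Eventually.of_forall fun _ => norm_nonneg _)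
        ((hev t).mono fun k hk => hx k t hk) hlim
    exact hXt.prodMk_nhds hxt
  refine ⟨𝒰, W, h𝒰, hW, hWt, hlimp, fun t => ?_⟩
  have h1 := ((continuous_evroot Φ).tendsto ((a, Complex.exp t), W t)).comp
    ((hlimp t).prodMk_nhds (hWt t))
  refine tendsto_nhds_unique h1 (tendsto_const_nhds.congr' ?_)
  filter_upwards [hev t] with k hk
  exact (hroot k t hk).symm

omit [Fintype τ] in
/-- entire roots over the exponential function are polynomials -/
theorem exists_poly_root' {Φ : (MvPolynomial τ ℂ)[X][X]} (hΦ : Φ.Monic) {a : τ → ℂ}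
    {W : ℂ → ℂ} (hW : Differentiable ℂ W)
    (hroot : ∀ t, (Φ.map (evalAt a (Complex.exp t))).eval (W t) = 0) :
    ∃ G : ℂ[X], G.natDegree ≤ Φ.natDegree.factorial * dg Φ ∧
      (∀ t, G.eval (Complex.exp (t / Φ.natDegree.factorial)) = W t) ∧
      sp Φ (MvPolynomial.eval a) Φ.natDegree.factorial G = 0 := by
  classical
  have hexp : ∀ (t : ℂ) (k : ℕ), Complex.exp (t + k * (2 * Real.pi * Complex.I)) = Complex.exp t :=
    fun t k => Complex.exp_periodic.nat_mul k t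
  obtain ⟨n, hn0, hnd, hn⟩ := exists_period hW (d := Φ.natDegree) (fun t => by
    let P : ℂ[X] := Φ.map (evalAt a (Complex.exp t))
    have hP : P.Monic := hΦ.map _
    have h1 : P.roots.toFinset.card < (Finset.range (Φ.natDegree + 1)).card := by
      rw [Finset.card_range]
      have h2 := (Multiset.toFinset_card_le P.roots).trans P.card_roots'
      rw [show P.natDegree = Φ.natDegree from hΦ.natDegree_map _] at h2
      omega
    obtain ⟨k, hk, l, hl, hne, heq⟩ := Finset.exists_ne_map_eq_of_card_lt_of_maps_to h1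
      (f := fun k : ℕ => W (t + k * (2 * Real.pi * Complex.I))) (fun k _ => by
        rw [Finset.mem_coe, Multiset.mem_toFinset, Polynomial.mem_roots hP.ne_zero,
          Polynomial.IsRoot.def]
        have h3 := hroot (t + k * (2 * Real.pi * Complex.I))
        rwa [hexp] at h3)
    have hk' := Finset.mem_range.1 hk
    have hl' := Finset.mem_range.1 hl
    rcases lt_or_gt_of_ne hne with h4 | h4
    · exact ⟨k, l, h4, by omega, heq⟩
    · exact ⟨l, k, h4, by omega, heq.symm⟩)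
  set N := Φ.natDegree.factorial with hN
  have hNpos : 0 < N := Nat.factorial_pos _
  obtain ⟨e, he⟩ : n ∣ N := Nat.dvd_factorial hn0 hnd
  have hper : ∀ t, W (t + N * (2 * Real.pi * Complex.I)) = W t := by
    intro t
    have h1 : ∀ j : ℕ, W (t + j * (n * (2 * Real.pi * Complex.I))) = W t := by
      intro j
      induction j with
      | zero => simp
      | succ j ih =>
        rw [← ih, ← hn (t + j * (n * (2 * Real.pi * Complex.I)))]
        congr 1
        push_cast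
        ring
    rw [← h1 e]
    congr 1
    rw [he]
    push_cast
    ring
  obtain ⟨C, hC⟩ := rb_growth Φ a
  obtain ⟨G, hG, hGe⟩ := exists_poly_exp hW hNpos hper (C := C) (m := dg Φ)
    (fun t => (norm_root_le hΦ (hroot t)).trans (hC _))
  refine ⟨G, hG, hGe, ?_⟩
  -- a polynomial with infinitely many zeros
  refine Polynomial.eq_zero_of_infinite_isRoot _ (Set.Infinite.mono (s := {0}ᶜ) ?_
    (Set.Finite.infinite_compl (Set.finite_singleton (0 : ℂ))))
  intro u hu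
  have hu0 : u ≠ 0 := hu
  have hNC : (N : ℂ) ≠ 0 := by exact_mod_cast hNpos.ne'
  have e1 : Complex.exp ((N * Complex.log u) / N) = u := by
    rw [mul_div_cancel_left₀ _ hNC, Complex.exp_log hu0]
  have e2 : Complex.exp (N * Complex.log u) = u ^ N := by
    rw [Complex.exp_nat_mul, Complex.exp_log hu0]
  have h1 := hroot (N * Complex.log u)
  rw [← hGe, e1, e2] at h1
  change Polynomial.IsRoot _ _
  rw [Polynomial.IsRoot.def, sp_eval, h1]

/-- the bound for quotients -/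
theorem quot_bound {b : (MvPolynomial τ ℂ)[X]} {Ψ Φ : (MvPolynomial τ ℂ)[X][X]} (hΦ : Φ.Monic)
    (a : τ → ℂ) (hb : b.map (MvPolynomial.eval a) ≠ 0)
    (Xk : ℕ → ℂ → τ → ℂ) (xk wk gk : ℕ → ℂ → ℂ)
    (hg : ∀ k : ℕ, Differentiable ℂ (gk k))
    (hroot : ∀ k : ℕ, ∀ t ∈ ball (0 : ℂ) k,
      (Φ.map (evalAt (Xk k t) (xk k t))).eval (wk k t) = 0)
    (hrel : ∀ k : ℕ, ∀ t ∈ ball (0 : ℂ) k, evalAt (Xk k t) (xk k t) b * gk k t =
      (Ψ.map (evalAt (Xk k t) (xk k t))).eval (wk k t))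
    (hX : ∀ k : ℕ, ∀ t ∈ ball (0 : ℂ) k, ∀ v, ‖Xk k t v - a v‖ ≤ 1 / (k + 1))
    (hx : ∀ k : ℕ, ∀ t ∈ ball (0 : ℂ) k, ‖xk k t - Complex.exp t‖ ≤ 1 / (k + 1))
    {𝒰 : Ultrafilter ℕ} (h𝒰 : (𝒰 : Filter ℕ) ≤ atTop) {W : ℂ → ℂ}
    (hW : ∀ t, Tendsto (fun k => wk k t) 𝒰 (𝓝 (W t)))
    (hlim : ∀ t, Tendsto (fun k => ((Xk k t, xk k t) : (τ → ℂ) × ℂ)) 𝒰
      (𝓝 (a, Complex.exp t))) (t0 : ℂ) :
    ∃ C ρ : ℝ, 0 < ρ ∧ ∀ t ∈ ball t0 ρ, ‖(Ψ.map (evalAt a (Complex.exp t))).eval (W t)‖ ≤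
      C * ‖evalAt a (Complex.exp t) b‖ := by
  classical
  have hk1 : ∀ k : ℕ, (1 : ℝ) / (k + 1) ≤ 1 := fun k => by
    rw [div_le_one (by positivity)]
    linarith [(Nat.cast_nonneg k : (0 : ℝ) ≤ k)]
  let F : (τ → ℂ) × ℂ → ℂ := fun p => evalAt p.1 p.2 b
  have hF : Continuous F := continuous_evalAt b
  let β : ℂ → ℂ := fun t => F (a, Complex.exp t)
  have hβe : ∀ t, β t = (b.map (MvPolynomial.eval a)).eval (Complex.exp t) := fun t => rfl
  have hβd : Differentiable ℂ β := by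
    have h1 : β = fun t => (b.map (MvPolynomial.eval a)).eval (Complex.exp t) := funext hβe
    rw [h1]
    exact (Polynomial.differentiable _).comp Complex.differentiable_exp
  have hβa : AnalyticOnNhd ℂ β univ := fun t _ => hβd.analyticAt t
  have hne : ∀ᶠ t in 𝓝[≠] t0, β t ≠ 0 := by
    rcases (hβd.analyticAt t0).eventually_eq_zero_or_eventually_ne_zero with h1 | h1
    · exfalso
      have h2 : β = fun _ => 0 := hβa.eq_of_eventuallyEq (fun t _ => analyticAt_const) h1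
      apply hb
      refine Polynomial.eq_zero_of_infinite_isRoot _ (Set.Infinite.mono (s := {0}ᶜ) ?_
        (Set.Finite.infinite_compl (Set.finite_singleton (0 : ℂ))))
      intro x hx
      have hx0 : x ≠ 0 := hx
      have h3 := congrFun h2 (Complex.log x)
      rw [hβe, Complex.exp_log hx0] at h3
      exact h3
    · exact h1
  obtain ⟨ρ, hρ, hρb⟩ : ∃ ρ : ℝ, 0 < ρ ∧ ∀ t ∈ sphere t0 ρ, β t ≠ 0 := by
    rw [eventually_nhdsWithin_iff, Metric.eventually_nhds_iff] at hne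
    obtain ⟨ε, hε, h1⟩ := hne
    refine ⟨ε / 2, by positivity, fun t ht => h1 ?_ ?_⟩
    · rw [mem_sphere.1 ht]
      linarith
    · rintro rfl
      rw [mem_sphere, dist_self] at ht
      linarith
  -- the lower bound on the circle
  have hSc : IsCompact (sphere t0 ρ) := isCompact_sphere _ _
  obtain ⟨C1, hC1⟩ := hSc.exists_bound_of_continuousOn (f := fun t => (β t)⁻¹)
    (hβd.continuous.continuousOn.inv₀ hρb)
  have hC1' : 0 < |C1| + 1 := by positivity
  set η : ℝ := (|C1| + 1)⁻¹ with hη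
  have hη0 : 0 < η := by positivity
  have hlow : ∀ t ∈ sphere t0 ρ, η ≤ ‖β t‖ := by
    intro t ht
    have h1 := hC1 t ht
    have h2 : 0 < ‖β t‖ := norm_pos_iff.2 (hρb t ht)
    rw [norm_inv] at h1
    rw [hη, inv_le_comm₀ hC1' h2]
    linarith [le_abs_self C1]
  -- the compact set
  set E : ℝ := Real.exp (‖t0‖ + ρ) + 1 with hE
  let 𝒦 : Set ((τ → ℂ) × ℂ) := closedBall (0 : τ → ℂ) (‖a‖ + 1) ×ˢ closedBall (0 : ℂ) E
  have h𝒦 : IsCompact 𝒦 := (isCompact_closedBall _ _).prod (isCompact_closedBall _ _)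
  have hexpn : ∀ t ∈ closedBall t0 ρ, ‖Complex.exp t‖ ≤ Real.exp (‖t0‖ + ρ) := by
    intro t ht
    rw [Complex.norm_exp, Real.exp_le_exp]
    have h1 : ‖t‖ ≤ ‖t0‖ + ρ := by
      have h2 : ‖t - t0‖ ≤ ρ := by rwa [mem_closedBall, dist_eq_norm] at ht
      calc ‖t‖ = ‖t0 + (t - t0)‖ := by congr 1; ring
        _ ≤ ‖t0‖ + ‖t - t0‖ := norm_add_le _ _
        _ ≤ _ := by linarith
    exact (Complex.re_le_norm t).trans h1
  have hmem0 : ∀ t ∈ closedBall t0 ρ, ((a, Complex.exp t) : (τ → ℂ) × ℂ) ∈ 𝒦 := by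
    intro t ht
    refine ⟨?_, ?_⟩
    · rw [mem_closedBall_zero_iff]
      linarith
    · rw [mem_closedBall_zero_iff]
      linarith [hexpn t ht]
  have hmemk : ∀ k : ℕ, ∀ t ∈ ball (0 : ℂ) k, t ∈ closedBall t0 ρ →
      ((Xk k t, xk k t) : (τ → ℂ) × ℂ) ∈ 𝒦 := by
    intro k t htk ht
    refine ⟨?_, ?_⟩
    · rw [mem_closedBall_zero_iff]
      have h1 : ‖Xk k t - a‖ ≤ 1 := by
        rw [pi_norm_le_iff_of_nonneg zero_le_one]
        exact fun v => (hX k t htk v).trans (hk1 k)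
      calc ‖Xk k t‖ = ‖a + (Xk k t - a)‖ := by congr 1; abel
        _ ≤ ‖a‖ + ‖Xk k t - a‖ := norm_add_le _ _
        _ ≤ ‖a‖ + 1 := by linarith
    · rw [mem_closedBall_zero_iff]
      have h1 := (hx k t htk).trans (hk1 k)
      calc ‖xk k t‖ = ‖Complex.exp t + (xk k t - Complex.exp t)‖ := by congr 1; ring
        _ ≤ ‖Complex.exp t‖ + ‖xk k t - Complex.exp t‖ := norm_add_le _ _
        _ ≤ E := by linarith [hexpn t ht]
  have hucF := h𝒦.uniformContinuousOn_of_continuous hF.continuousOn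
  rw [Metric.uniformContinuousOn_iff] at hucF
  obtain ⟨δ', hδ', hucF⟩ := hucF (η / 2) (by positivity)
  -- the upper bound
  obtain ⟨M1, hM1⟩ := h𝒦.exists_bound_of_continuousOn (continuous_rb Φ).continuousOn
  have hcomp2 : IsCompact (𝒦 ×ˢ closedBall (0 : ℂ) |M1|) := h𝒦.prod (isCompact_closedBall _ _)
  obtain ⟨M2, hM2⟩ := hcomp2.exists_bound_of_continuousOn (continuous_evroot Ψ).continuousOn
  refine ⟨|M2| / (η / 2), ρ, hρ, fun t ht => ?_⟩
  have hlarge : ∀ᶠ k : ℕ in (𝒰 : Filter ℕ), closedBall t0 ρ ⊆ ball (0 : ℂ) k ∧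
      (1 : ℝ) / (k + 1) < δ' := by
    refine h𝒰 ?_
    obtain ⟨n, hn⟩ := exists_nat_gt (‖t0‖ + ρ)
    have h1 : ∀ᶠ k : ℕ in atTop, (1 : ℝ) / (k + 1) < δ' :=
      tendsto_one_div_add_atTop_nhds_zero_nat.eventually (gt_mem_nhds hδ')
    filter_upwards [eventually_ge_atTop n, h1] with k hk h2
    refine ⟨fun s hs => ?_, h2⟩
    rw [mem_ball_zero_iff]
    have h3 : ‖s‖ ≤ ‖t0‖ + ρ := by
      have h2 : ‖s - t0‖ ≤ ρ := by rwa [mem_closedBall, dist_eq_norm] at hs
      calc ‖s‖ = ‖t0 + (s - t0)‖ := by congr 1; ring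
        _ ≤ ‖t0‖ + ‖s - t0‖ := norm_add_le _ _
        _ ≤ _ := by linarith
    have h4 : (n : ℝ) ≤ k := by exact_mod_cast hk
    linarith
  have hbd : ∀ᶠ k : ℕ in (𝒰 : Filter ℕ),
      ‖(Ψ.map (evalAt (Xk k t) (xk k t))).eval (wk k t)‖ ≤
        |M2| / (η / 2) * ‖evalAt (Xk k t) (xk k t) b‖ := by
    filter_upwards [hlarge] with k hk
    obtain ⟨hk, hkδ⟩ := hk
    have htc : t ∈ closedBall t0 ρ := ball_subset_closedBall ht
    rw [← hrel k t (hk htc), norm_mul, mul_comm]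
    refine mul_le_mul_of_nonneg_right ?_ (norm_nonneg _)
    refine Complex.norm_le_of_forall_mem_frontier_norm_le (U := ball t0 ρ) isBounded_ball
      (hg k).diffContOnCl (fun s hs => ?_) (subset_closure ht)
    rw [frontier_ball t0 hρ.ne'] at hs
    have hsc : s ∈ closedBall t0 ρ := sphere_subset_closedBall hs
    have hsk := hk hsc
    have h1 : ‖(Ψ.map (evalAt (Xk k s) (xk k s))).eval (wk k s)‖ ≤ |M2| := by
      refine (hM2 ((Xk k s, xk k s), wk k s) ⟨hmemk k s hsk hsc, ?_⟩).trans (le_abs_self _)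
      rw [mem_closedBall_zero_iff]
      refine (norm_root_le hΦ (hroot k s hsk)).trans ?_
      exact (le_abs_self _).trans ((hM1 _ (hmemk k s hsk hsc)).trans (le_abs_self _))
    have h2 : η / 2 ≤ ‖evalAt (Xk k s) (xk k s) b‖ := by
      have h3 := hucF _ (hmemk k s hsk hsc) _ (hmem0 s hsc) (by
        refine lt_of_le_of_lt ?_ hkδ
        rw [dist_eq_norm]
        refine norm_prod_le_iff.2 ⟨?_, hx k s hsk⟩
        have h5 : (0 : ℝ) ≤ 1 / (k + 1) := by positivity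
        change ‖Xk k s - a‖ ≤ _
        rw [pi_norm_le_iff_of_nonneg h5]
        exact fun v => hX k s hsk v)
      rw [dist_eq_norm] at h3
      have h4 := hlow s hs
      have h5 : ‖β s‖ ≤ ‖F (Xk k s, xk k s)‖ + ‖F (Xk k s, xk k s) - F (a, Complex.exp s)‖ := by
        calc ‖β s‖ = ‖F (Xk k s, xk k s) - (F (Xk k s, xk k s) - F (a, Complex.exp s))‖ := by
              congr 1; ring
          _ ≤ _ := norm_sub_le _ _
      change η / 2 ≤ ‖F (Xk k s, xk k s)‖
      linarith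
    have h3 := congrArg norm (hrel k s hsk)
    rw [norm_mul] at h3
    rw [le_div_iff₀ (by positivity)]
    calc ‖gk k s‖ * (η / 2) ≤ ‖gk k s‖ * ‖evalAt (Xk k s) (xk k s) b‖ := by gcongr
      _ = ‖evalAt (Xk k s) (xk k s) b‖ * ‖gk k s‖ := mul_comm _ _
      _ ≤ |M2| := by rw [h3]; exact h1
  have h1 : Tendsto (fun k => ‖(Ψ.map (evalAt (Xk k t) (xk k t))).eval (wk k t)‖) 𝒰
      (𝓝 ‖(Ψ.map (evalAt a (Complex.exp t))).eval (W t)‖) :=
    ((continuous_evroot Ψ).norm.tendsto ((a, Complex.exp t), W t)).comp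
      ((hlim t).prodMk_nhds (hW t))
  have h2 : Tendsto (fun k => |M2| / (η / 2) * ‖evalAt (Xk k t) (xk k t) b‖) 𝒰
      (𝓝 (|M2| / (η / 2) * ‖evalAt a (Complex.exp t) b‖)) :=
    ((continuous_const.mul hF.norm).tendsto (a, Complex.exp t)).comp (hlim t)
  exact le_of_tendsto_of_tendsto h1 h2 hbd

end Pool.Agent.X316.ZG
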