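import Pool.Agent.X316.ZG.Log1

/-!
Fields of meromorphic functions which are algebraic over the derivatives of a jointly universal
family, with entire elements: families of maps from the punctured line.
-/

set_option autoImplicit false

open Filter Topology Metric Set Polynomial IntermediateField

namespace Pool.Agent.X316.ZG

section keylog

variable {ι : Type} {T : Finset (ι × ℕ)} {j0 : ι} {m : ℕ}

/-- **The key lemma, with poles only at zero.** -/
theorem key_log {u : ι → ℂ → ℂ} (hu : JointlyUniversal u) (hT : ∀ v ∈ T, v.1 = j0 → v.2 < m)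
    {Φ : (MvPolynomial T ℂ)[X][X]} (hΦ : Φ.Monic) {w : ℂ → ℂ} (hw : Meromorphic w)
    (hr : ∀ᶠ z in codiscrete ℂ, (Φ.map (evalAt (fun v : T => iteratedDeriv v.1.2 (u v.1.1) z)
      (iteratedDeriv m (u j0) z))).eval (w z) = 0)
    {κ : Type} (b : κ → (MvPolynomial T ℂ)[X]) (Ψ : κ → (MvPolynomial T ℂ)[X][X])
    (g : κ → ℂ → ℂ) (hg : ∀ i, Differentiable ℂ (g i))
    (hrel : ∀ i, ∀ᶠ z in codiscrete ℂ, evalAt (fun v : T => iteratedDeriv v.1.2 (u v.1.1) z)
      (iteratedDeriv m (u j0) z) (b i) * g i z =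
        ((Ψ i).map (evalAt (fun v : T => iteratedDeriv v.1.2 (u v.1.1) z)
          (iteratedDeriv m (u j0) z))).eval (w z))
    (a : T → ℂ) (ha : ∀ v : T, v.1.2 = 0 → a v ≠ 0)
    (hb : ∀ i, (b i).map (MvPolynomial.eval a) ≠ 0) :
    ∃ G : ℂ[X], G.natDegree ≤ Φ.natDegree.factorial * dg Φ ∧
      sp Φ (MvPolynomial.eval a) Φ.natDegree.factorial G = 0 ∧
      ∀ i, sp (Polynomial.C (b i)) (MvPolynomial.eval a) Φ.natDegree.factorial G ∣
        X ^ ((b i).natDegree * Φ.natDegree.factorial) *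
          sp (Ψ i) (MvPolynomial.eval a) Φ.natDegree.factorial G := by
  classical
  obtain ⟨c, δ, hδ, hd, h1, h2⟩ := exists_seq hu hT a ha
  have hwm : MeromorphicOn w univ := fun z _ => hw z
  let w' : ℂ → ℂ := toMeromorphicNFOn w univ
  have hw' : MeromorphicNFOn w' univ := meromorphicNFOn_toMeromorphicNFOn w univ
  have hww : ∀ᶠ z in codiscrete ℂ, w z = w' z := toMeromorphicNFOn_eqOn_codiscrete hwm
  have hmem : ∀ (k : ℕ) (t : ℂ), ‖t‖ < k + 1 → c k + δ k * t ∈ ball (c k) (δ k * (k + 2)) := by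
    intro k t ht
    rw [mem_ball, dist_eq_norm, add_sub_cancel_left, norm_mul, Complex.norm_real,
      Real.norm_of_nonneg (hδ k).le]
    exact mul_lt_mul_of_pos_left (by linarith) (hδ k)
  have hcX : ∀ (k : ℕ) (t : ℂ), ‖t‖ < k + 1 →
      ContinuousAt (fun z (v : T) => iteratedDeriv v.1.2 (u v.1.1) z) (c k + δ k * t) := by
    intro k t ht
    rw [continuousAt_pi]
    exact fun v => (an_deriv (hd k v.1.1 (Or.inr ⟨v, v.2, rfl⟩)) (hmem k t ht) v.1.2).continuousAt
  have hcx : ∀ (k : ℕ) (t : ℂ), ‖t‖ < k + 1 →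
      ContinuousAt (iteratedDeriv m (u j0)) (c k + δ k * t) := fun k t ht =>
    (an_deriv (hd k j0 (Or.inl rfl)) (hmem k t ht) m).continuousAt
  have hreg : ∀ (k : ℕ) (t : ℂ), ‖t‖ < k + 1 → AnalyticAt ℂ w' (c k + δ k * t) ∧
      (Φ.map (evalAt (fun v : T => iteratedDeriv v.1.2 (u v.1.1) (c k + δ k * t))
        (iteratedDeriv m (u j0) (c k + δ k * t)))).eval (w' (c k + δ k * t)) = 0 := by
    intro k t ht
    refine root_analytic hΦ (x := fun z (v : T) => iteratedDeriv v.1.2 (u v.1.1) z)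
      (x0 := iteratedDeriv m (u j0)) (w := w') (hcX k t ht) (hcx k t ht) (hw' (mem_univ _)) ?_
    filter_upwards [Pool.Agent.TH143.EL.codis_ev hr (c k + δ k * t),
      Pool.Agent.TH143.EL.codis_ev hww (c k + δ k * t)] with z h4 h5
    rwa [← h5]
  have hreg2 : ∀ i (k : ℕ) (t : ℂ), ‖t‖ < k + 1 →
      evalAt (fun v : T => iteratedDeriv v.1.2 (u v.1.1) (c k + δ k * t))
        (iteratedDeriv m (u j0) (c k + δ k * t)) (b i) * g i (c k + δ k * t) =
        ((Ψ i).map (evalAt (fun v : T => iteratedDeriv v.1.2 (u v.1.1) (c k + δ k * t))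
          (iteratedDeriv m (u j0) (c k + δ k * t)))).eval (w' (c k + δ k * t)) := by
    intro i k t ht
    have hA : ContinuousAt (fun z => evalAt (fun v : T => iteratedDeriv v.1.2 (u v.1.1) z)
        (iteratedDeriv m (u j0) z) (b i) * g i z) (c k + δ k * t) :=
      ((continuous_evalAt (b i)).continuousAt.comp (f := fun z =>
        ((fun v : T => iteratedDeriv v.1.2 (u v.1.1) z), iteratedDeriv m (u j0) z))
        ((hcX k t ht).prodMk (hcx k t ht))).mul (hg i).continuous.continuousAt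
    have hB : ContinuousAt (fun z => ((Ψ i).map (evalAt
        (fun v : T => iteratedDeriv v.1.2 (u v.1.1) z)
        (iteratedDeriv m (u j0) z))).eval (w' z)) (c k + δ k * t) :=
      (continuous_evroot (Ψ i)).continuousAt.comp (f := fun z =>
        (((fun v : T => iteratedDeriv v.1.2 (u v.1.1) z), iteratedDeriv m (u j0) z), w' z))
        (((hcX k t ht).prodMk (hcx k t ht)).prodMk (hreg k t ht).1.continuousAt)
    have hA' := hA.tendsto.mono_left (nhdsWithin_le_nhds (s := {c k + δ k * t}ᶜ))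
    have hB' := hB.tendsto.mono_left (nhdsWithin_le_nhds (s := {c k + δ k * t}ᶜ))
    refine tendsto_nhds_unique hA' (hB'.congr' ?_)
    filter_upwards [Pool.Agent.TH143.EL.codis_ev (hrel i) (c k + δ k * t),
      Pool.Agent.TH143.EL.codis_ev hww (c k + δ k * t)] with z h4 h5
    rw [h4, h5]
  have hk1 : ∀ (k : ℕ) (t : ℂ), t ∈ ball (0 : ℂ) k → ‖t‖ < k + 1 := fun k t ht => by
    rw [mem_ball_zero_iff] at ht
    linarith
  obtain ⟨𝒰, W, h𝒰, hW, hWt, hlim, hWr⟩ := exists_limit_root' hΦ a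
    (fun k t v => iteratedDeriv v.1.2 (u v.1.1) (c k + δ k * t))
    (fun k t => iteratedDeriv m (u j0) (c k + δ k * t)) (fun k t => w' (c k + δ k * t))
    (fun k t ht => by
      have h3 := (hreg k t (hk1 k t ht)).1.differentiableAt
      exact (h3.comp t (f := fun t : ℂ => c k + δ k * t) (by fun_prop)).differentiableWithinAt)
    (fun k t ht => (hreg k t (hk1 k t ht)).2) (fun k t ht v => h1 k t (hk1 k t ht) v)
    (fun k t ht => h2 k t (hk1 k t ht))
  obtain ⟨G, hG, hGe, hsp⟩ := exists_poly_root' hΦ hW hWr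
  refine ⟨G, hG, hsp, fun i => ?_⟩
  set N := Φ.natDegree.factorial with hN
  have hNpos : 0 < N := Nat.factorial_pos _
  have hNC : (N : ℂ) ≠ 0 := by exact_mod_cast hNpos.ne'
  have hspb : sp (Polynomial.C (b i)) (MvPolynomial.eval a) N G ≠ 0 := by
    rw [sp_C]
    exact (Polynomial.expand_ne_zero hNpos).2 (hb i)
  refine dvd_of_bound hspb (fun α hα => ?_) ?_
  · obtain ⟨C, ρ, hρ, hC⟩ := quot_bound (b := b i) (Ψ := Ψ i) hΦ a (hb i)
      (fun k t v => iteratedDeriv v.1.2 (u v.1.1) (c k + δ k * t))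
      (fun k t => iteratedDeriv m (u j0) (c k + δ k * t)) (fun k t => w' (c k + δ k * t))
      (fun k t => g i (c k + δ k * t)) (fun k => (hg i).comp (by fun_prop))
      (fun k t ht => (hreg k t (hk1 k t ht)).2) (fun k t ht => hreg2 i k t (hk1 k t ht))
      (fun k t ht v => h1 k t (hk1 k t ht) v) (fun k t ht => h2 k t (hk1 k t ht)) h𝒰 hWt hlim
      (N * Complex.log α)
    refine ⟨C, ?_⟩
    -- the local inverse of the exponential function
    have hcont : ContinuousAt (fun v : ℂ => (N : ℂ) * (Complex.log α + Complex.log (v / α))) α := by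
      have h3 : ContinuousAt (fun v : ℂ => Complex.log (v / α)) α := by
        refine ContinuousAt.clog (continuousAt_id.div_const α) ?_
        change α / α ∈ Complex.slitPlane
        rw [div_self hα]
        exact Complex.one_mem_slitPlane
      exact continuousAt_const.mul (continuousAt_const.add h3)
    have h4 : (N : ℂ) * (Complex.log α + Complex.log (α / α)) = N * Complex.log α := by
      rw [div_self hα, Complex.log_one, add_zero]
    have h5 : ∀ᶠ v in 𝓝 α, (N : ℂ) * (Complex.log α + Complex.log (v / α)) ∈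
        ball ((N : ℂ) * Complex.log α) ρ := by
      have h6 := hcont.tendsto
      rw [h4] at h6
      exact h6.eventually (ball_mem_nhds _ hρ)
    have h6 : ∀ᶠ v in 𝓝 α, v ≠ 0 := isOpen_ne.mem_nhds hα
    filter_upwards [h5, h6] with v h7 h8
    have h9 := hC _ h7
    have hv : v / α ≠ 0 := div_ne_zero h8 hα
    have e0 : Complex.exp (Complex.log α + Complex.log (v / α)) = v := by
      rw [Complex.exp_add, Complex.exp_log hα, Complex.exp_log hv, mul_div_cancel₀ _ hα]
    have e1 : Complex.exp ((N : ℂ) * (Complex.log α + Complex.log (v / α))) = v ^ N := by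
      rw [Complex.exp_nat_mul, e0]
    have e2 : W ((N : ℂ) * (Complex.log α + Complex.log (v / α))) = G.eval v := by
      rw [← hGe, mul_div_cancel_left₀ _ hNC, e0]
    rw [e1, e2] at h9
    rw [sp_eval, sp_eval, Polynomial.map_C, Polynomial.eval_C]
    exact h9
  · rw [sp_C, Polynomial.natDegree_expand]
    exact Nat.mul_le_mul_right _ Polynomial.natDegree_map_le

end keylog

/-- the transfer of solutions -/
theorem exists_generic_log {R : Type} [CommRing R] [IsDomain R] (Φ : R[X][X]) (N B : ℕ)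
    {κ : Type} [Finite κ] (b : κ → R[X]) (Ψ : κ → R[X][X]) (K : κ → ℕ)
    (h : ∀ r : R, r ≠ 0 → ∃ a : R →+* ℂ, a r ≠ 0 ∧ ∃ G : ℂ[X], G.natDegree ≤ B ∧
      sp Φ a N G = 0 ∧ ∀ i, ∃ H : ℂ[X], H.natDegree ≤ B ∧
        sp (Polynomial.C (b i)) a N G * H = X ^ K i * sp (Ψ i) a N G) :
    ∃ G : (AlgebraicClosure (FractionRing R))[X], sp Φ (algebraMap R _) N G = 0 ∧
      ∀ i, ∃ H : (AlgebraicClosure (FractionRing R))[X],
        sp (Polynomial.C (b i)) (algebraMap R _) N G * H =
          X ^ K i * sp (Ψ i) (algebraMap R _) N G := by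
  classical
  let U := MvPolynomial (Option κ × Fin (B + 1)) R
  let P0 : Option κ → U[X] := fun o => ∑ i : Fin (B + 1), Polynomial.C (MvPolynomial.X (o, i)) *
    X ^ (i : ℕ)
  let S : U[X] := sp Φ (MvPolynomial.C : R →+* U) N (P0 none)
  let S' : κ → U[X] := fun i => sp (Polynomial.C (b i)) (MvPolynomial.C : R →+* U) N (P0 none) *
    P0 (some i) - X ^ K i * sp (Ψ i) (MvPolynomial.C : R →+* U) N (P0 none)
  let I : Ideal U := Ideal.span ((Set.range fun l => S.coeff l) ∪
    Set.range fun p : κ × ℕ => (S' p.1).coeff p.2)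
  have hker : ∀ {A : Type} [CommRing A] (ξ : U →+* A), S.map ξ = 0 → (∀ i, (S' i).map ξ = 0) →
      ∀ P ∈ I, ξ P = 0 := by
    intro A _ ξ h1 h1' P hP
    have h2 : I ≤ RingHom.ker ξ := by
      rw [Ideal.span_le]
      rintro _ (⟨l, rfl⟩ | ⟨⟨i, l⟩, rfl⟩)
      · have h3 := congrArg (fun Q => Q.coeff l) h1
        simp only [Polynomial.coeff_map, Polynomial.coeff_zero] at h3
        exact h3
      · have h3 := congrArg (fun Q => Q.coeff l) (h1' i)
        simp only [Polynomial.coeff_map, Polynomial.coeff_zero] at h3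
        exact h3
    exact h2 hP
  obtain ⟨γ, hγ⟩ := null I (fun r hr hrI => by
    obtain ⟨a, har, G, hG, hsp, hH⟩ := h r hr
    choose H hHd hHe using hH
    let GG : Option κ → ℂ[X] := fun o => o.elim G H
    have hGG : ∀ o, (GG o).natDegree ≤ B := by
      rintro (_ | i)
      · exact hG
      · exact hHd i
    let ξ : U →+* ℂ := MvPolynomial.eval₂Hom a fun p => (GG p.1).coeff p.2
    have hξC : ξ.comp (MvPolynomial.C : R →+* U) = a := by
      ext r
      exact MvPolynomial.eval₂_C _ _ r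
    have hP0 : ∀ o, (P0 o).map ξ = GG o := by
      intro o
      simp only [P0, Polynomial.map_sum, Polynomial.map_mul, Polynomial.map_C,
        Polynomial.map_pow, Polynomial.map_X]
      have h2 : ∀ i, ξ (MvPolynomial.X (o, i)) = (GG o).coeff i :=
        fun i => MvPolynomial.eval₂_X _ _ _
      simp only [h2]
      rw [Fin.sum_univ_eq_sum_range (fun i => Polynomial.C ((GG o).coeff i) * X ^ i) (B + 1)]
      exact ((GG o).as_sum_range_C_mul_X_pow' (by have := hGG o; omega)).symm
    have h1 : S.map ξ = 0 := by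
      simp only [S]
      rw [sp_map, hξC, hP0]
      exact hsp
    have h1' : ∀ i, (S' i).map ξ = 0 := by
      intro i
      simp only [S']
      rw [Polynomial.map_sub, Polynomial.map_mul, Polynomial.map_mul, Polynomial.map_pow,
        Polynomial.map_X, sp_map, sp_map, hξC, hP0, hP0, sub_eq_zero]
      exact hHe i
    have h3 := hker ξ h1 h1' _ hrI
    apply har
    rw [← h3]
    exact (MvPolynomial.eval₂_C _ _ r).symm)
  let ξ : U →+* AlgebraicClosure (FractionRing R) := (MvPolynomial.aeval γ).toRingHom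
  have hξC : ξ.comp (MvPolynomial.C : R →+* U) = algebraMap R _ := by
    ext r
    change MvPolynomial.aeval γ (MvPolynomial.C r) = algebraMap R _ r
    rw [← MvPolynomial.algebraMap_eq, AlgHom.commutes]
  refine ⟨(P0 none).map ξ, ?_, fun i => ⟨(P0 (some i)).map ξ, ?_⟩⟩
  · have h1 : S.map ξ = 0 := by
      ext l
      rw [Polynomial.coeff_map, Polynomial.coeff_zero]
      exact hγ _ (Ideal.subset_span (Or.inl ⟨l, rfl⟩))
    rw [← hξC, ← sp_map]
    exact h1
  · have h1 : (S' i).map ξ = 0 := by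
      ext l
      rw [Polynomial.coeff_map, Polynomial.coeff_zero]
      exact hγ _ (Ideal.subset_span (Or.inr ⟨(i, l), rfl⟩))
    simp only [S'] at h1
    rw [Polynomial.map_sub, Polynomial.map_mul, Polynomial.map_mul, Polynomial.map_pow,
      Polynomial.map_X, sp_map, sp_map, hξC, sub_eq_zero] at h1
    exact h1

theorem lift_hom' {F K L : Type} [Field F] [Field K] [Field L] [Algebra F L]
    (i : F →+* K) (β : L) (hβ : IsIntegral F β) (g : K) (hg : (minpoly F β).eval₂ i g = 0) :
    ∃ σ : F⟮β⟯ →+* K, (∀ x : F, σ (algebraMap F F⟮β⟯ x) = i x) ∧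
      σ (AdjoinSimple.gen F β) = g := by
  let : Algebra F K := i.toAlgebra
  have hg' : g ∈ (minpoly F β).aroots K := by
    rw [Polynomial.mem_aroots]
    exact ⟨minpoly.ne_zero hβ, hg⟩
  let σ : F⟮β⟯ →ₐ[F] K := (IntermediateField.algHomAdjoinIntegralEquiv F hβ).symm ⟨g, hg'⟩
  refine ⟨σ.toRingHom, fun x => σ.commutes x, ?_⟩
  exact IntermediateField.algHomAdjoinIntegralEquiv_symm_apply_gen F hβ ⟨g, hg'⟩

variable {R : Type} [CommRing R] [IsDomain R] [Algebra ℂ R] [UniqueFactorizationMonoid R]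
variable {L : Type} [Field L] [Algebra ℂ L]

/-- elements of a simple extension have a common denominator -/
theorem exists_num {F : Type} [Field F] [Algebra R[X] F] [IsFractionRing R[X] F] [Algebra F L]
    (θ : R[X] →+* L) (hFL : ∀ x : R[X], algebraMap F L (algebraMap R[X] F x) = θ x) {β : L}
    (hβ : IsIntegral F β) {x : L} (hx : x ∈ F⟮β⟯) :
    ∃ (b : R[X]) (Ψ : R[X][X]), b ≠ 0 ∧ θ b * x = Ψ.eval₂ θ β := by
  have h1 : x ∈ Algebra.adjoin F {β} := by
    rw [← IntermediateField.adjoin_simple_toSubalgebra_of_isAlgebraic hβ.isAlgebraic]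
    exact hx
  rw [Algebra.adjoin_singleton_eq_range_aeval] at h1
  obtain ⟨p, rfl⟩ := h1
  obtain ⟨b, hb, hbp⟩ := IsLocalization.integerNormalization_spec (nonZeroDivisors R[X]) p
  refine ⟨b, IsLocalization.integerNormalization (nonZeroDivisors R[X]) p,
    nonZeroDivisors.ne_zero hb, ?_⟩
  have h2 : (IsLocalization.integerNormalization (nonZeroDivisors R[X]) p).map
      (algebraMap R[X] F) = Polynomial.C (algebraMap R[X] F b) * p := by
    rw [hbp]
    ext1 i
    rw [Polynomial.coeff_smul, Polynomial.coeff_C_mul, Algebra.smul_def]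
  have h3 : (IsLocalization.integerNormalization (nonZeroDivisors R[X]) p).eval₂ θ β =
      ((IsLocalization.integerNormalization (nonZeroDivisors R[X]) p).map
        (algebraMap R[X] F)).eval₂ (algebraMap F L) β := by
    rw [Polynomial.eval₂_map]
    congr 1
    exact RingHom.ext fun x => (hFL x).symm
  rw [h3, h2, Polynomial.eval₂_mul, Polynomial.eval₂_C, hFL]
  rfl

/-- **The embedding.** -/
theorem embed_log (θ : R[X] →ₐ[ℂ] L) (hθ : Function.Injective θ) {E : Type} [Field E]
    [Algebra ℂ E] (ψ : E →ₐ[ℂ] L) (hfg : (⊤ : IntermediateField ℂ E).FG)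
    (halg : ∀ e, ∃ Q : R[X][X], Q ≠ 0 ∧ Q.eval₂ θ.toRingHom (ψ e) = 0)
    {κ : Type} [Finite κ] (s : κ → E)
    (hKP : ∀ (Φ : R[X][X]) (β : L) (b : κ → R[X]) (Ψ : κ → R[X][X]), Φ.Monic →
      Φ.eval₂ θ.toRingHom β = 0 → (∀ i, b i ≠ 0) →
      (∀ i, θ (b i) * ψ (s i) = (Ψ i).eval₂ θ.toRingHom β) → ∃ (N B : ℕ) (K : κ → ℕ), 0 < N ∧
      ∀ r : R, r ≠ 0 → ∃ a : R →+* ℂ, a r ≠ 0 ∧ ∃ G : ℂ[X], G.natDegree ≤ B ∧
      sp Φ a N G = 0 ∧ ∀ i, ∃ H : ℂ[X], H.natDegree ≤ B ∧
        sp (Polynomial.C (b i)) a N G * H = X ^ K i * sp (Ψ i) a N G) :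
    (∃ (M : Type) (_ : Field M) (_ : Algebra ℂ M) (φ : E →ₐ[ℂ] RatFunc M),
      (∃ r : E, ∀ c : M, φ r ≠ algebraMap M (RatFunc M) c) ∧
      ∀ i, ∃ (p : M[X]) (k : ℕ), φ (s i) * RatFunc.X ^ k = algebraMap M[X] (RatFunc M) p) ∨
    ∀ e, ∃ Q : R[X], Q ≠ 0 ∧ Q.eval₂ (θ.toRingHom.comp Polynomial.C) (ψ e) = 0 := by
  classical
  let : Algebra R[X] L := θ.toRingHom.toAlgebra
  have hfs : FaithfulSMul R[X] L := (faithfulSMul_iff_algebraMap_injective _ _).2 hθ
  let : Algebra (FractionRing R[X]) L := FractionRing.liftAlgebra R[X] L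
  have : IsScalarTower R[X] (FractionRing R[X]) L := FractionRing.isScalarTower_liftAlgebra _ _
  let F := FractionRing R[X]
  have hFL : ∀ x : R[X], algebraMap F L (algebraMap R[X] F x) = θ x := fun x =>
    (IsScalarTower.algebraMap_apply R[X] F L x).symm
  have : CharZero F := by
    have h1 : CharZero L := charZero_of_injective_algebraMap (algebraMap ℂ L).injective
    exact (algebraMap F L).charZero
  have hint : ∀ e, IsIntegral F (ψ e) := by
    intro e
    obtain ⟨Q, hQ0, hQ⟩ := halg e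
    have h1 : IsAlgebraic R[X] (ψ e) := ⟨Q, hQ0, hQ⟩
    exact (h1.extendScalars (IsFractionRing.injective R[X] F)).isIntegral
  obtain ⟨t, ht⟩ := hfg
  obtain ⟨α, hα⟩ := exists_prim (F := F) (ψ '' (t : Set E)) (t.finite_toSet.image ψ) (by
    rintro _ ⟨e, -, rfl⟩
    exact hint e)
  have hαint : IsIntegral F α := by
    have h1 : α ∈ IntermediateField.adjoin F (ψ '' (t : Set E)) := by
      rw [hα]
      exact mem_adjoin_simple_self F α
    have : Finite (ψ '' (t : Set E)) := t.finite_toSet.image ψ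
    have := finiteDimensional_adjoin (K := F) (S := ψ '' (t : Set E)) (by
      rintro _ ⟨e, -, rfl⟩
      exact hint e)
    have h2 := IsIntegral.of_finite F
      (⟨α, h1⟩ : IntermediateField.adjoin F (ψ '' (t : Set E)))
    exact h2.map (IntermediateField.val _)
  -- an integral generator
  have hαalg : IsAlgebraic R[X] α := by
    rw [IsFractionRing.isAlgebraic_iff R[X] F L]
    exact hαint.isAlgebraic
  obtain ⟨b, hb0, hb⟩ := hαalg.exists_integral_multiple
  have hbF : algebraMap R[X] F b ≠ 0 := by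
    rw [Ne, map_eq_zero_iff _ (IsFractionRing.injective R[X] F)]
    exact hb0
  set β : L := b • α with hβdef
  have hβ' : β = algebraMap F L (algebraMap R[X] F b) * α := by
    rw [hβdef, Algebra.smul_def, IsScalarTower.algebraMap_apply R[X] F L]
  have hle : IntermediateField.adjoin F (ψ '' (t : Set E)) ≤ F⟮β⟯ := by
    rw [hα, IntermediateField.adjoin_simple_le_iff]
    have h1 : α = (algebraMap F L (algebraMap R[X] F b))⁻¹ * β := by
      rw [hβ', inv_mul_cancel_left₀]
      rwa [Ne, map_eq_zero]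
    rw [h1]
    exact mul_mem (inv_mem (IntermediateField.algebraMap_mem _ _)) (mem_adjoin_simple_self F β)
  have hΦ : (minpoly R[X] β).Monic := minpoly.monic hb
  have hΦ0 : (minpoly R[X] β).eval₂ θ.toRingHom β = 0 := minpoly.aeval R[X] β
  have hΦF : minpoly F β = (minpoly R[X] β).map (algebraMap R[X] F) :=
    minpoly.isIntegrallyClosed_eq_field_fractions' F hb
  have hβint : IsIntegral F β := by
    rw [hβ']
    exact isIntegral_algebraMap.mul hαint
  -- the field `E`
  have hmem : ∀ e : E, ψ e ∈ F⟮β⟯ := by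
    intro e
    have h1 : (⊤ : IntermediateField ℂ E) ≤ ((F⟮β⟯).restrictScalars ℂ).comap ψ := by
      rw [← ht, IntermediateField.adjoin_le_iff]
      intro e he
      exact hle (IntermediateField.subset_adjoin _ _ ⟨e, he, rfl⟩)
    exact h1 trivial
  have hnum : ∀ i, ∃ (b : R[X]) (Ψ : R[X][X]), b ≠ 0 ∧
      θ b * ψ (s i) = Ψ.eval₂ θ.toRingHom β := fun i =>
    exists_num θ.toRingHom hFL hβint (hmem (s i))
  choose b' Ψ hb'0 hb'Ψ using hnum
  obtain ⟨N, B, K, hN, hsys⟩ := hKP _ β b' Ψ hΦ hΦ0 hb'0 hb'Ψ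
  obtain ⟨G, hG, hGH⟩ := exists_generic_log (minpoly R[X] β) N B b' Ψ K hsys
  let M := AlgebraicClosure (FractionRing R)
  have hRM : Function.Injective (algebraMap R M) := by
    rw [IsScalarTower.algebraMap_eq R (FractionRing R) M]
    exact (algebraMap (FractionRing R) M).injective.comp (IsFractionRing.injective R _)
  -- the homomorphism to the rational functions
  let ξ0 : R[X] →+* M[X] :=
    (Polynomial.expand M N).toRingHom.comp (Polynomial.mapRingHom (algebraMap R M))
  let ξ : R[X] →+* RatFunc M := (algebraMap M[X] (RatFunc M)).comp ξ0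
  have hξ : Function.Injective ξ := by
    refine (RatFunc.algebraMap_injective M).comp ?_
    exact (Polynomial.expand_injective hN).comp (Polynomial.map_injective _ hRM)
  have hsp0 : ∀ Ψ : R[X][X], sp Ψ (algebraMap R M) N G = Ψ.eval₂ ξ0 G := by
    intro Ψ
    unfold sp
    rw [Polynomial.map_map, Polynomial.eval_map]
  let i : F →+* RatFunc M := IsFractionRing.lift hξ
  have hi : ∀ x : R[X], i (algebraMap R[X] F x) = ξ x := IsFractionRing.lift_algebraMap hξ
  obtain ⟨σ, hσ, hσg⟩ := lift_hom' i β hβint (algebraMap M[X] (RatFunc M) G) (by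
    rw [hΦF, Polynomial.eval₂_map]
    have h1 : i.comp (algebraMap R[X] F) = (algebraMap M[X] (RatFunc M)).comp ξ0 := by
      ext x
      · exact hi _
      · exact hi _
    rw [h1, ← Polynomial.hom_eval₂, ← hsp0, hG, map_zero])
  let φ0 : E →+* F⟮β⟯ := ψ.toRingHom.codRestrict F⟮β⟯.toSubfield hmem
  have hφ0 : ∀ e, ((φ0 e : F⟮β⟯) : L) = ψ e := fun e => rfl
  have hC : ∀ c : ℂ, φ0 (algebraMap ℂ E c) =
      algebraMap F F⟮β⟯ (algebraMap R[X] F (Polynomial.C (algebraMap ℂ R c))) := by
    intro c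
    apply Subtype.ext
    rw [hφ0, AlgHom.commutes]
    change _ = algebraMap F L (algebraMap R[X] F (Polynomial.C (algebraMap ℂ R c)))
    rw [hFL, ← θ.commutes c]
    rfl
  have hξC : ξ.comp Polynomial.C = (algebraMap M (RatFunc M)).comp (algebraMap R M) := by
    ext r
    change algebraMap M[X] (RatFunc M) (Polynomial.expand M N
      (Polynomial.map (algebraMap R M) (Polynomial.C r))) = algebraMap M (RatFunc M) _
    rw [Polynomial.map_C, Polynomial.expand_C]
    rfl
  let φ : E →ₐ[ℂ] RatFunc M :=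
    { toRingHom := σ.comp φ0
      commutes' := fun c => by
        change σ (φ0 (algebraMap ℂ E c)) = _
        rw [hC, hσ, hi]
        have h1 := RingHom.congr_fun hξC (algebraMap ℂ R c)
        change ξ (Polynomial.C (algebraMap ℂ R c)) = _
        change ξ (Polynomial.C (algebraMap ℂ R c)) = _ at h1
        rw [h1]
        change algebraMap M (RatFunc M) (algebraMap R M (algebraMap ℂ R c)) = _
        rw [← IsScalarTower.algebraMap_apply ℂ R M, ← IsScalarTower.algebraMap_apply ℂ M] }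
  have hφs : ∀ i, ∃ (p : M[X]) (k : ℕ),
      φ (s i) * RatFunc.X ^ k = algebraMap M[X] (RatFunc M) p := by
    intro i'
    obtain ⟨H, hH⟩ := hGH i'
    refine ⟨H, K i', ?_⟩
    -- the relation in `F(β)`
    let j : R[X] →+* F⟮β⟯ := (algebraMap F F⟮β⟯).comp (algebraMap R[X] F)
    have h1 : j (b' i') * φ0 (s i') = (Ψ i').eval₂ j (AdjoinSimple.gen F β) := by
      apply Subtype.ext
      have h2 : (((Ψ i').eval₂ j (AdjoinSimple.gen F β) : F⟮β⟯) : L) =
          (Ψ i').eval₂ ((algebraMap F⟮β⟯ L).comp j) β :=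
        Polynomial.hom_eval₂ (Ψ i') j (algebraMap F⟮β⟯ L) (AdjoinSimple.gen F β)
      have h3 : (algebraMap F⟮β⟯ L).comp j = θ.toRingHom := RingHom.ext fun x => hFL x
      rw [h2, h3, ← hb'Ψ i']
      change algebraMap F L (algebraMap R[X] F (b' i')) * ψ (s i') = _
      rw [hFL]
    have h4 := congrArg σ h1
    have hσj : σ.comp j = (algebraMap M[X] (RatFunc M)).comp ξ0 := RingHom.ext fun x => by
      change σ (algebraMap F F⟮β⟯ (algebraMap R[X] F x)) = _
      rw [hσ, hi]
    have hσj' : σ (j (b' i')) = algebraMap M[X] (RatFunc M) (ξ0 (b' i')) :=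
      RingHom.congr_fun hσj (b' i')
    rw [map_mul, hσj', Polynomial.hom_eval₂, hσj, hσg, ← Polynomial.hom_eval₂, ← hsp0] at h4
    have h5 : ξ0 (b' i') ≠ 0 := by
      intro h0
      apply hb'0 i'
      apply hξ
      rw [map_zero]
      change algebraMap M[X] (RatFunc M) (ξ0 (b' i')) = 0
      rw [h0, map_zero]
    have h6 : algebraMap M[X] (RatFunc M) (ξ0 (b' i')) ≠ 0 := by
      rw [Ne, map_eq_zero_iff _ (RatFunc.algebraMap_injective M)]
      exact h5
    apply mul_left_cancel₀ h6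
    have h7 : sp (Polynomial.C (b' i')) (algebraMap R M) N G = ξ0 (b' i') := by
      rw [hsp0, Polynomial.eval₂_C]
    rw [h7] at hH
    have h8 : RatFunc.X = algebraMap M[X] (RatFunc M) Polynomial.X := RatFunc.algebraMap_X.symm
    change algebraMap M[X] (RatFunc M) (ξ0 (b' i')) * (σ (φ0 (s i')) * RatFunc.X ^ K i') = _
    rw [← map_mul, hH, ← mul_assoc, h4, h8, ← map_pow, ← map_mul, mul_comm]
  by_cases hcov : ∃ r : E, ∀ c : M, φ r ≠ algebraMap M (RatFunc M) c
  · exact Or.inl ⟨M, inferInstance, inferInstance, φ, hcov, hφs⟩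
  · right
    push Not at hcov
    intro e
    obtain ⟨c, hc⟩ := hcov e
    have h1 : IsAlgebraic R c := by
      rw [IsFractionRing.isAlgebraic_iff R (FractionRing R) M]
      exact Algebra.IsAlgebraic.isAlgebraic c
    obtain ⟨Q, hQ0, hQ⟩ := h1
    refine ⟨Q, hQ0, ?_⟩
    let j : R →+* F⟮β⟯ := ((algebraMap F F⟮β⟯).comp (algebraMap R[X] F)).comp Polynomial.C
    have h2 : Q.eval₂ j (φ0 e) = 0 := by
      apply σ.injective
      rw [map_zero, Polynomial.hom_eval₂]
      have h3 : σ.comp j = (algebraMap M (RatFunc M)).comp (algebraMap R M) := by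
        rw [← hξC]
        ext r
        change σ (algebraMap F F⟮β⟯ (algebraMap R[X] F (Polynomial.C r))) = ξ (Polynomial.C r)
        rw [hσ, hi]
      have h4 : σ (φ0 e) = algebraMap M (RatFunc M) c := hc
      rw [h3, h4, ← Polynomial.hom_eval₂]
      have h5 : Q.eval₂ (algebraMap R M) c = 0 := hQ
      rw [h5, map_zero]
    have h6 := congrArg (fun x : F⟮β⟯ => (x : L)) h2
    have h7 : ((Q.eval₂ j (φ0 e) : F⟮β⟯) : L) =
        Q.eval₂ ((algebraMap F⟮β⟯ L).comp j) (ψ e) :=
      Polynomial.hom_eval₂ Q j (algebraMap F⟮β⟯ L) (φ0 e)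
    have h8 : (algebraMap F⟮β⟯ L).comp j = θ.toRingHom.comp Polynomial.C := by
      ext r
      exact hFL _
    rw [← h8, ← h7]
    exact h6

end Pool.Agent.X316.ZG
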