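import Pool.Agent.X316.ZG.Log2
import Pool.Agent.X316.ZG.Str
import Pool.Agent.Y377.IL.AllE

/-!
Fields of meromorphic functions over the derivatives of a jointly universal family, with entire
elements; curves in the complement of a hypersurface.
-/

set_option autoImplicit false

open Filter Topology Metric Set Polynomial

namespace Pool.Agent.X316.ZG

variable {ι : Type}

/-- **The main theorem on fields with entire elements.** -/
theorem fields_log {u : ι → ℂ → ℂ} (hu : JointlyUniversal u) {E : Type} [Field E] [Algebra ℂ E]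
    (ψ : E →ₐ[ℂ] Mf) (hfg : (⊤ : IntermediateField ℂ E).FG) {κ : Type} [Finite κ] (s : κ → E)
    (g : κ → ℂ → ℂ) (hg : ∀ i, Differentiable ℂ (g i)) (hgm : ∀ i, Meromorphic (g i))
    (hs : ∀ i, ψ (s i) = cl (g i) (hgm i)) :
    ∀ (n : ℕ) (T : Finset (ι × ℕ)), T.card = n →
    (∀ e, IsAlgebraic (Algebra.adjoin ℂ ((fun v : ι × ℕ => cl (iteratedDeriv v.2 (u v.1))
      (meromorphic_iteratedDeriv (hu.mero v.1) v.2)) '' (T : Set (ι × ℕ))) : Subalgebra ℂ Mf)
      (ψ e)) →
    (∃ (M : Type) (_ : Field M) (_ : Algebra ℂ M) (φ : E →ₐ[ℂ] RatFunc M),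
      (∃ r : E, ∀ c : M, φ r ≠ algebraMap M (RatFunc M) c) ∧
      ∀ i, ∃ (p : M[X]) (k : ℕ), φ (s i) * RatFunc.X ^ k = algebraMap M[X] (RatFunc M) p) ∨
    ∀ e : E, IsAlgebraic ℂ e := by
  classical
  intro n
  induction n with
  | zero =>
    intro T hT h
    right
    intro e
    rw [Finset.card_eq_zero] at hT
    subst hT
    have h1 := h e
    rw [Finset.coe_empty, image_empty, Algebra.adjoin_empty] at h1
    have h2 : IsAlgebraic ℂ (ψ e) := by
      obtain ⟨Q, hQ0, hQ⟩ := alg_lift (Algebra.ofId ℂ Mf) (S := ⊥) (by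
        intro x hx
        obtain ⟨c, rfl⟩ := Algebra.mem_bot.1 hx
        exact ⟨c, rfl⟩) h1
      exact ⟨Q, hQ0, hQ⟩
    exact (isAlgebraic_algHom_iff ψ ψ.injective).1 h2
  | succ n ih =>
    intro T hT h
    have hne : T.Nonempty := by
      rw [← Finset.card_pos]
      omega
    obtain ⟨v1, hv1⟩ := hne
    -- the last derivative
    obtain ⟨v0, hv0, hmax⟩ := Finset.exists_max_image (T.filter fun v => v.1 = v1.1)
      (fun v => v.2) ⟨v1, Finset.mem_filter.2 ⟨hv1, rfl⟩⟩
    rw [Finset.mem_filter] at hv0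
    obtain ⟨hv0T, hv01⟩ := hv0
    let T' := T.erase v0
    have hT'c : T'.card = n := by
      rw [Finset.card_erase_of_mem hv0T, hT]
      rfl
    have hT' : ∀ v ∈ T', v.1 = v0.1 → v.2 < v0.2 := by
      intro v hv hv'
      rw [Finset.mem_erase] at hv
      have h1 := hmax v (Finset.mem_filter.2 ⟨hv.2, hv'.trans hv01⟩)
      refine lt_of_le_of_ne h1 fun h2 => hv.1 ?_
      exact Prod.ext hv' h2
    let x : ι × ℕ → ℂ → ℂ := fun v => iteratedDeriv v.2 (u v.1)
    have hx : ∀ v, Meromorphic (x v) := fun v =>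
      meromorphic_iteratedDeriv (hu.mero v.1) v.2
    let θ := toMf (fun v : T' => x v) (fun v => hx v) (x v0) (hx v0)
    have hθC : ∀ v : T', θ (Polynomial.C (MvPolynomial.X v)) = cl (x v) (hx v) := by
      intro v
      simp only [θ, toMf, AlgHom.comp_apply]
      rw [toMer_C, MvPolynomial.aeval_X]
      rfl
    have hθX : θ Polynomial.X = cl (x v0) (hx v0) := by
      simp only [θ, toMf, AlgHom.comp_apply]
      rw [toMer_X]
      rfl
    have hθi : Function.Injective θ := by
      rw [injective_iff_map_eq_zero]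
      intro P hP
      exact key_indep hu hT' ((toMf_zero _ _ _ _).1 hP)
    have halg : ∀ e, ∃ Q : (MvPolynomial T' ℂ)[X][X], Q ≠ 0 ∧
        Q.eval₂ θ.toRingHom (ψ e) = 0 := by
      intro e
      refine alg_lift θ ?_ (h e)
      rw [Algebra.adjoin_le_iff]
      rintro _ ⟨v, hv, rfl⟩
      by_cases hvv : v = v0
      · subst hvv
        exact ⟨Polynomial.X, hθX⟩
      · exact ⟨_, hθC ⟨v, Finset.mem_erase.2 ⟨hvv, hv⟩⟩⟩
    have hKP : ∀ (Φ : (MvPolynomial T' ℂ)[X][X]) (β : Mf) (b : κ → (MvPolynomial T' ℂ)[X])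
        (Ψ : κ → (MvPolynomial T' ℂ)[X][X]), Φ.Monic →
        Φ.eval₂ θ.toRingHom β = 0 → (∀ i, b i ≠ 0) →
        (∀ i, θ (b i) * ψ (s i) = (Ψ i).eval₂ θ.toRingHom β) →
        ∃ (N B : ℕ) (K : κ → ℕ), 0 < N ∧
        ∀ r : MvPolynomial T' ℂ, r ≠ 0 → ∃ a : MvPolynomial T' ℂ →+* ℂ, a r ≠ 0 ∧
          ∃ G : ℂ[X], G.natDegree ≤ B ∧ sp Φ a N G = 0 ∧ ∀ i, ∃ H : ℂ[X], H.natDegree ≤ B ∧
            sp (Polynomial.C (b i)) a N G * H = X ^ K i * sp (Ψ i) a N G := by
      intro Φ β b Ψ hΦ hβ hb hbΨ
      obtain ⟨⟨w, hw⟩, rfl⟩ := Ideal.Quotient.mk_surjective β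
      have : Fintype κ := Fintype.ofFinite κ
      set N := Φ.natDegree.factorial with hN
      let B0 := N * dg Φ
      let K : κ → ℕ := fun i => (b i).natDegree * N
      let B1 : κ → ℕ := fun i => K i + (Finset.range ((Ψ i).natDegree + 1)).sup
        fun j => N * ((Ψ i).coeff j).natDegree + j * B0
      refine ⟨N, B0 + ∑ i, B1 i, K, Nat.factorial_pos _, fun r hr => ?_⟩
      have hprod : (r * ∏ v : T', (MvPolynomial.X v : MvPolynomial T' ℂ)) *
          ∏ i, (b i).leadingCoeff ≠ 0 :=
        mul_ne_zero (mul_ne_zero hr (Finset.prod_ne_zero_iff.2 fun v _ =>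
          MvPolynomial.X_ne_zero v)) (Finset.prod_ne_zero_iff.2 fun i _ =>
            Polynomial.leadingCoeff_ne_zero.2 (hb i))
      obtain ⟨a, ha⟩ : ∃ a : T' → ℂ,
          MvPolynomial.eval a ((r * ∏ v : T', (MvPolynomial.X v : MvPolynomial T' ℂ)) *
            ∏ i, (b i).leadingCoeff) ≠ 0 := by
        by_contra hcon
        push Not at hcon
        exact hprod (MvPolynomial.funext fun a => by rw [hcon a, map_zero])
      rw [map_mul, map_mul, map_prod, map_prod] at ha
      simp only [MvPolynomial.eval_X] at ha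
      have h3 := right_ne_zero_of_mul (left_ne_zero_of_mul ha)
      have h3' := right_ne_zero_of_mul ha
      rw [Finset.prod_ne_zero_iff] at h3 h3'
      have hba : ∀ i, (b i).map (MvPolynomial.eval a) ≠ 0 := by
        intro i h0
        apply h3' i (Finset.mem_univ i)
        have h4 := congrArg (fun Q => Q.coeff (b i).natDegree) h0
        rw [Polynomial.coeff_map, Polynomial.coeff_zero] at h4
        exact h4
      have hrel : ∀ i, ∀ᶠ z in codiscrete ℂ,
          evalAt (fun v : T' => iteratedDeriv v.1.2 (u v.1.1) z)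
            (iteratedDeriv v0.2 (u v0.1) z) (b i) * g i z =
          ((Ψ i).map (evalAt (fun v : T' => iteratedDeriv v.1.2 (u v.1.1) z)
            (iteratedDeriv v0.2 (u v0.1) z))).eval (w z) := by
        intro i
        -- both sides as meromorphic functions
        have h5 := hbΨ i
        rw [hs i] at h5
        have h6 : θ (b i) = Ideal.Quotient.mk nullI
            (toMer (fun v : T' => x v) (fun v => hx v) (x v0) (hx v0) (b i)) := rfl
        have h7 : (Ψ i).eval₂ θ.toRingHom (Ideal.Quotient.mk nullI (⟨w, hw⟩ : merS)) =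
            Ideal.Quotient.mk nullI ((Ψ i).eval₂
              (toMer (fun v : T' => x v) (fun v => hx v) (x v0) (hx v0)).toRingHom ⟨w, hw⟩) := by
          rw [Polynomial.hom_eval₂]
          rfl
        have h8 : cl (g i) (hgm i) = Ideal.Quotient.mk nullI (⟨g i, hgm i⟩ : merS) := rfl
        rw [h6, h7, h8, ← map_mul, Ideal.Quotient.eq, mem_nullI] at h5
        filter_upwards [h5] with z hz
        have h9 : evz z (toMer (fun v : T' => x v) (fun v => hx v) (x v0) (hx v0) (b i) *
            (⟨g i, hgm i⟩ : merS) - (Ψ i).eval₂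
              (toMer (fun v : T' => x v) (fun v => hx v) (x v0) (hx v0)).toRingHom ⟨w, hw⟩) =
            0 := hz
        rw [map_sub, map_mul, sub_eq_zero, evz_toMer] at h9
        have h10 := Polynomial.hom_eval₂ (Ψ i)
          (toMer (fun v : T' => x v) (fun v => hx v) (x v0) (hx v0)).toRingHom
          (evz z).toRingHom ⟨w, hw⟩
        have h11 : (evz z).toRingHom.comp
            (toMer (fun v : T' => x v) (fun v => hx v) (x v0) (hx v0)).toRingHom =
            evalAt (fun v : T' => x v z) (x v0 z) :=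
          RingHom.ext fun P => evz_toMer _ _ _ _ z P
        rw [h11] at h10
        rw [Polynomial.eval_map]
        exact h9.trans h10
      obtain ⟨G, hG, hsp, hdvd⟩ := key_log hu hT' hΦ hw (root_toMf _ _ _ _ hβ) b Ψ g hg hrel a
        (fun v _ => h3 v (Finset.mem_univ v)) hba
      refine ⟨MvPolynomial.eval a, left_ne_zero_of_mul (left_ne_zero_of_mul ha), G,
        hG.trans (Nat.le_add_right _ _), hsp, fun i => ?_⟩
      obtain ⟨H, hH⟩ := hdvd i
      have hB1 : B1 i ≤ B0 + ∑ i, B1 i :=
        (Finset.single_le_sum (fun _ _ => Nat.zero_le _) (Finset.mem_univ i)).trans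
          (Nat.le_add_left _ _)
      refine ⟨H, ?_, hH.symm⟩
      have hspb : sp (Polynomial.C (b i)) (MvPolynomial.eval a) N G ≠ 0 := by
        rw [sp_C]
        exact (Polynomial.expand_ne_zero (Nat.factorial_pos _)).2 (hba i)
      by_cases hH0 : H = 0
      · rw [hH0, Polynomial.natDegree_zero]
        exact Nat.zero_le _
      · have h4 := congrArg Polynomial.natDegree hH
        rw [Polynomial.natDegree_mul hspb hH0] at h4
        have h5 : (X ^ K i * sp (Ψ i) (MvPolynomial.eval a) N G : ℂ[X]).natDegree ≤ B1 i := by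
          refine Polynomial.natDegree_mul_le.trans ?_
          refine Nat.add_le_add (Polynomial.natDegree_X_pow_le _) ?_
          exact sp_natDegree_le _ _ _ hG
        have h6 : (X ^ ((b i).natDegree * N) * sp (Ψ i) (MvPolynomial.eval a) N G :
          ℂ[X]).natDegree ≤ B1 i := h5
        exact (Nat.le_add_left _ _).trans ((h4.symm.le.trans h6).trans hB1)
    rcases embed_log (R := MvPolynomial T' ℂ) θ hθi ψ hfg halg s hKP with h1 | h1
    · exact Or.inl h1
    · refine ih T' hT'c fun e => ?_
      refine alg_unlift (θ.comp (Polynomial.CAlgHom (R := ℂ) (A := MvPolynomial T' ℂ))) ?_ ?_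
        (h1 e)
      · exact hθi.comp Polynomial.C_injective
      · rintro _ ⟨P, rfl⟩
        change θ (Polynomial.C P) ∈ _
        induction P using MvPolynomial.induction_on with
        | C c =>
          have h2 : θ (Polynomial.C (MvPolynomial.C c)) = algebraMap ℂ Mf c := θ.commutes c
          rw [h2]
          exact Subalgebra.algebraMap_mem _ _
        | add P Q hP hQ =>
          rw [Polynomial.C_add, map_add]
          exact add_mem hP hQ
        | mul_X P v hP =>
          rw [Polynomial.C_mul, map_mul, hθC]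
          exact mul_mem hP (Algebra.subset_adjoin ⟨v, v.2, rfl⟩)

section curves

open MvPolynomial
open scoped LinearAlgebra.Projectivization
open Pool.Agent.TH143.EL (HolMap Rep InV codis_ev codis_nhds mero_an inV_of_punct inV_iff
  rep_rep rep_smul)
open Pool.Agent.Y377.IL (DB AlgebraicOver IterLin AlgRatio algI mem_algI form_scale
  prop_of_wronskian regf form_rep prod_two sum_two aeval_mon eval_scale)

variable {N : ℕ}

/-- the regular functions are entire along the curve -/
theorem regf_diff {f : ℂ → ℙ ℂ (Fin (N + 1) → ℂ)} (hf : HolMap f)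
    {Q : MvPolynomial (Fin (N + 1)) ℂ} {d : ℕ} (hQ : Q.IsHomogeneous d)
    (hX : ∀ z, eval (f z).rep Q ≠ 0) {α : Fin (N + 1) →₀ ℕ} (hα : ∑ j, α j = d) :
    Differentiable ℂ (regf Q α f) := by
  intro z0
  obtain ⟨v, hv, hr⟩ := hf z0
  have h1 : ∀ᶠ z in 𝓝 z0, regf Q α f z = (∏ j, v j z ^ α j) / eval (fun j => v j z) Q := by
    filter_upwards [hr] with z hz
    obtain ⟨hv0, h3⟩ := hz
    obtain ⟨a, ha⟩ := Projectivization.exists_smul_eq_mk_rep ℂ _ hv0
    have h4 : (f z).rep = fun j => (a : ℂ) * v j z := by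
      funext k
      rw [h3, ← ha]
      rfl
    have ha0 : (a : ℂ) ≠ 0 := a.ne_zero
    unfold regf
    rw [h4, eval_scale hQ]
    simp only [mul_pow, Finset.prod_mul_distrib]
    rw [Finset.prod_pow_eq_pow_sum, hα, mul_div_mul_left _ _ (pow_ne_zero _ ha0)]
  have h2 : AnalyticAt ℂ (fun z => (∏ j, v j z ^ α j) / eval (fun j => v j z) Q) z0 := by
    refine AnalyticAt.div ?_ ?_ ?_
    · exact Finset.analyticAt_fun_prod _ fun j _ => (hv j).pow _
    · have : (fun z => eval (fun j => v j z) Q) = fun z => aeval (fun j => v j z) Q := by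
        funext z
        rw [aeval_eq_eval]
      rw [this]
      exact AnalyticAt.aeval_mvPolynomial hv Q
    · obtain ⟨hv0, h3⟩ := hr.self_of_nhds
      obtain ⟨a, ha⟩ := Projectivization.exists_smul_eq_mk_rep ℂ _ hv0
      have h4 : (f z0).rep = fun j => (a : ℂ) * v j z0 := by
        funext k
        rw [h3, ← ha]
        rfl
      have h5 := hX z0
      rw [h4, eval_scale hQ] at h5
      exact right_ne_zero_of_mul h5
  exact (h2.differentiableAt).congr_of_eventuallyEq h1

/-- **Curves in the complement of a hypersurface.** -/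
theorem log_alg {u : ι → ℂ → ℂ} (hu : JointlyUniversal u) {Q : MvPolynomial (Fin (N + 1)) ℂ}
    {d : ℕ} (hd : 0 < d) (hQ : Q.IsHomogeneous d) {f : ℂ → ℙ ℂ (Fin (N + 1) → ℂ)}
    (hf : HolMap f) (hX : ∀ z, eval (f z).rep Q ≠ 0) (ha : AlgebraicOver (dring u) f) :
    (∀ z z', f z = f z') ∨
      ∃ (M : Type) (_ : Field M) (_ : Algebra ℂ M) (P : Fin (N + 1) → Polynomial M),
        (∀ G : MvPolynomial (Fin (N + 1)) ℂ, (∃ e, G.IsHomogeneous e) →
          (aeval P G = 0 ↔ ∀ z, eval (f z).rep G = 0)) ∧
        (∃ (c : M) (k : ℕ), c ≠ 0 ∧ aeval P Q = Polynomial.C c * Polynomial.X ^ k) ∧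
        ∃ j k, Polynomial.derivative (P j) * P k ≠ P j * Polynomial.derivative (P k) := by
  classical
  have hB := db_dring hu.mero
  obtain ⟨l, hl0⟩ := Function.ne_iff.1 (f 0).rep_nonzero
  obtain ⟨-, hne⟩ := Pool.Agent.Y125.IL.t_RT N f hf l ⟨0, hl0⟩
  let α : Fin (N + 1) → Fin (N + 1) →₀ ℕ := fun j => Finsupp.single j 1 + Finsupp.single l (d - 1)
  have hα : ∀ j, ∑ i, α j i = d := by
    intro j
    rw [sum_two]
    omega
  have hdiff : ∀ β : Fin (N + 1) →₀ ℕ, ∑ j, β j = d → Differentiable ℂ (regf Q β f) :=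
    fun β hβ => regf_diff hf hQ hX hβ
  have hmer : ∀ β : Fin (N + 1) →₀ ℕ, ∑ j, β j = d → Meromorphic (regf Q β f) :=
    fun β hβ z => ((hdiff β hβ).analyticAt z).meromorphicAt
  let h : Fin (N + 1) → ℂ → ℂ := fun j => regf Q (α j) f
  let c : ℂ → ℂ := fun z => (f z).rep l ^ (d - 1) / eval (f z).rep Q
  have hh : ∀ z, (fun j => h j z) = fun j => c z * (f z).rep j := by
    intro z
    funext j
    change (∏ i, (f z).rep i ^ α j i) / eval (f z).rep Q = _
    rw [prod_two]
    change _ = (f z).rep l ^ (d - 1) / eval (f z).rep Q * (f z).rep j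
    ring
  have hc : ∀ z, (f z).rep l ≠ 0 → c z ≠ 0 := fun z hz => div_ne_zero (pow_ne_zero _ hz) (hX z)
  have hr : ∀ᶠ z in codiscrete ℂ, Rep (f z) fun j => h j z := by
    filter_upwards [hne] with z hz
    rw [hh z]
    exact (rep_smul (hc z hz)).2 (rep_rep (f z))
  have hm : ∀ j, Meromorphic (h j) := fun j => hmer (α j) (hα j)
  have hrat : ∀ i j, AlgRatio (dring u) (h i) (h j) := by
    intro i j
    refine Pool.Agent.Y377.IL.algRatio_scale ?_ (ha i j)
    filter_upwards [hne] with z hz
    refine ⟨c z, ?_, ?_⟩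
    · exact congrFun (hh z) i
    · exact congrFun (hh z) j
  let Y : Fin (N + 1) → Mf := fun j => cl (h j) (hm j)
  have hYl : Y l ≠ 0 := by
    intro h4
    have h5 : ∀ᶠ z in codiscrete ℂ, h l z = 0 := cl_zero.1 h4
    obtain ⟨z, h6, h7⟩ := (h5.and hne).exists
    have h8 := congrFun (hh z) l
    rw [h6] at h8
    exact mul_ne_zero (hc z h7) h7 h8.symm
  let E : IntermediateField ℂ Mf :=
    IntermediateField.adjoin ℂ (Set.range fun j => Y j / Y l)
  let y : Fin (N + 1) → E := fun j =>
    ⟨Y j / Y l, IntermediateField.subset_adjoin _ _ ⟨j, rfl⟩⟩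
  have hyl : y l = 1 := Subtype.ext (div_self hYl)
  have htop : IntermediateField.adjoin ℂ (Set.range y) = (⊤ : IntermediateField ℂ E) := by
    have h2 : (IntermediateField.adjoin ℂ (Set.range y)).map E.val =
        (⊤ : IntermediateField ℂ E).map E.val := by
      rw [IntermediateField.adjoin_map, ← AlgHom.fieldRange_eq_map, IntermediateField.fieldRange_val,
        ← Set.range_comp]
      rfl
    exact IntermediateField.map_injective E.val h2
  -- algebraicity
  have halg : ∀ j, ∃ T : Finset (ι × ℕ),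
      IsAlgebraic (Algebra.adjoin ℂ (xc hu.mero '' (T : Set (ι × ℕ))) : Subalgebra ℂ Mf)
        (E.val (y j)) := fun j => alg_of_ratio hu.mero (hm j) (hm l) hYl (hrat j l)
  choose Te hTe using halg
  let T : Finset (ι × ℕ) := Finset.univ.biUnion Te
  have hall : ∀ e : E,
      IsAlgebraic (Algebra.adjoin ℂ (xc hu.mero '' (T : Set (ι × ℕ))) : Subalgebra ℂ Mf)
        (E.val e) := by
    intro e
    have h4 : (⊤ : IntermediateField ℂ E) ≤ (algI (Algebra.adjoin ℂ (xc hu.mero ''
        (T : Set (ι × ℕ))) : Subalgebra ℂ Mf)).comap E.val := by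
      rw [← htop, IntermediateField.adjoin_le_iff]
      rintro _ ⟨j, rfl⟩
      change E.val (y j) ∈ algI _
      rw [mem_algI]
      have h5 : (Algebra.adjoin ℂ (xc hu.mero '' (Te j : Set (ι × ℕ))) : Subalgebra ℂ Mf) ≤
          Algebra.adjoin ℂ (xc hu.mero '' (T : Set (ι × ℕ))) := by
        apply Algebra.adjoin_mono
        apply Set.image_mono
        intro v hv
        exact Finset.mem_coe.2 (Finset.mem_biUnion.2 ⟨j, Finset.mem_univ j, hv⟩)
      exact Pool.Agent.Y377.EL.alg_mono h5 (hTe j)
    exact h4 (IntermediateField.mem_top (x := e))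
  have hfg : (⊤ : IntermediateField ℂ E).FG := by
    rw [← htop]
    exact IntermediateField.fg_adjoin_of_finite (Set.finite_range y)
  -- values of forms
  have hval : ∀ (G : MvPolynomial (Fin (N + 1)) ℂ), (∃ d, G.IsHomogeneous d) →
      (aeval y G = 0 ↔ ∀ᶠ z in codiscrete ℂ, eval (fun j => h j z) G = 0) := by
    rintro G ⟨d, hG⟩
    rw [← aeval_cl_zero h hm G]
    have e4 : aeval Y G = Y l ^ d * aeval (fun j => Y j / Y l) G := by
      rw [← form_scale hG]
      congr 2
      funext j
      rw [mul_div_cancel₀ _ hYl]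
    have e5 : ((aeval y G : E) : Mf) = aeval (fun j => Y j / Y l) G :=
      MvPolynomial.comp_aeval_apply (f := y) E.val G
    change _ ↔ aeval Y G = 0
    rw [e4, mul_eq_zero, or_iff_right (pow_ne_zero _ hYl), ← e5]
    exact Subtype.ext_iff
  have hval' : ∀ (G : MvPolynomial (Fin (N + 1)) ℂ), (∃ d, G.IsHomogeneous d) →
      (aeval y G = 0 ↔ ∀ z, eval (f z).rep G = 0) := by
    intro G hG
    rw [hval G hG, form_rep hf hr hG]
  have hQy : aeval y Q ≠ 0 := by
    intro h0
    exact hX 0 ((hval' Q ⟨d, hQ⟩).1 h0 0)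
  -- the regular functions
  let A : Finset (Fin (N + 1) →₀ ℕ) := Finset.univ.finsuppAntidiag d
  have hA : ∀ β : Fin (N + 1) →₀ ℕ, β ∈ A ↔ ∑ j, β j = d := by
    intro β
    rw [Finset.mem_finsuppAntidiag]
    exact ⟨fun h1 => h1.1, fun h1 => ⟨h1, Finset.subset_univ _⟩⟩
  let s : A → E := fun β => (∏ j, y j ^ β.1 j) * (aeval y Q)⁻¹
  have hs : ∀ β : A, E.val (s β) = cl (regf Q β.1 f) (hmer β.1 ((hA β.1).1 β.2)) := by
    intro β
    have hβ : ∑ j, β.1 j = d := (hA β.1).1 β.2
    have hmon : (monomial β.1 (1 : ℂ)).IsHomogeneous d := by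
      apply isHomogeneous_monomial
      rw [Finsupp.degree_eq_sum]
      exact hβ
    -- the values of forms in the field of meromorphic functions
    have hcl : ∀ G : MvPolynomial (Fin (N + 1)) ℂ, G.IsHomogeneous d →
        E.val (aeval y G) * Y l ^ d = cl _ (Pool.Agent.TH143.EL.mero_eval hm G) := by
      intro G hG
      have e5 : E.val (aeval y G) = aeval (fun j => Y j / Y l) G :=
        MvPolynomial.comp_aeval_apply (f := y) E.val G
      have e4 : aeval Y G = Y l ^ d * aeval (fun j => Y j / Y l) G := by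
        rw [← form_scale hG]
        congr 2
        funext j
        rw [mul_div_cancel₀ _ hYl]
      rw [e5, mul_comm, ← e4, show aeval Y G = Ideal.Quotient.mk nullI _ from aeval_cl h hm G]
      refine cl_eq (Eventually.of_forall fun z => ?_)
      exact val_aeval h hm G z
    have h1 : E.val (s β) * E.val (aeval y Q) = E.val (aeval y (monomial β.1 (1 : ℂ))) := by
      rw [← map_mul]
      congr 1
      simp only [s]
      rw [inv_mul_cancel_right₀ hQy, aeval_mon]
    have hEQ : E.val (aeval y Q) ≠ 0 := by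
      rw [Ne, map_eq_zero_iff E.val E.val.injective]
      exact hQy
    apply mul_right_cancel₀ hEQ
    rw [h1]
    have hYd : Y l ^ d ≠ 0 := pow_ne_zero _ hYl
    apply mul_right_cancel₀ hYd
    rw [hcl _ hmon, mul_assoc, hcl Q hQ]
    change _ = Ideal.Quotient.mk nullI (⟨regf Q β.1 f, _⟩ : merS) *
      Ideal.Quotient.mk nullI (⟨_, _⟩ : merS)
    rw [← map_mul]
    refine cl_eq (Eventually.of_forall fun z => ?_)
    have e3 : ∀ v : Fin (N + 1) → ℂ, eval v (monomial β.1 (1 : ℂ)) = ∏ j, v j ^ β.1 j := by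
      intro v
      rw [← aeval_eq_eval, aeval_mon]
    change eval (fun j => h j z) (monomial β.1 (1 : ℂ)) =
      regf Q β.1 f z * eval (fun j => h j z) Q
    rw [hh z, eval_scale hmon, eval_scale hQ, e3]
    unfold regf
    have := hX z
    field_simp
  rcases fields_log hu E.val hfg s (fun β : A => regf Q β.1 f)
    (fun β => hdiff β.1 ((hA β.1).1 β.2)) (fun β => hmer β.1 ((hA β.1).1 β.2)) hs
    T.card T rfl hall with ⟨M, i1, i2, φ, hnc, hφ⟩ | halgC
  · right
    obtain ⟨r, hr'⟩ := hnc
    let v : Fin (N + 1) → RatFunc M := fun j => φ (y j)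
    have hvl : v l = 1 := by
      simp only [v]
      rw [hyl, map_one]
    have hvG : ∀ G : MvPolynomial (Fin (N + 1)) ℂ, aeval v G = φ (aeval y G) := fun G =>
      (MvPolynomial.comp_aeval_apply (f := y) φ G).symm
    obtain ⟨P, g, hg, hPg, hcQ⟩ := Pool.Agent.Y988.IL.t_LOGP N d Q hd hQ M v
      (φ (aeval y Q)⁻¹) l hvl (by rw [hvG, ← map_mul, mul_inv_cancel₀ hQy, map_one]) (by
        intro β hβ
        obtain ⟨p, k, hp⟩ := hφ ⟨β, (hA β).2 hβ⟩
        refine ⟨p, k, ?_⟩
        rw [← hp]
        congr 1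
        simp only [s, v]
        rw [map_mul, map_prod]
        simp only [map_pow])
    have hM : CharZero M := charZero_of_injective_algebraMap (algebraMap ℂ M).injective
    refine ⟨M, i1, i2, P, ?_, hcQ, ?_⟩
    · rintro G ⟨e, hG⟩
      have e1 : algebraMap (Polynomial M) (RatFunc M) (aeval P G) = g ^ e * φ (aeval y G) := by
        have e2 : algebraMap (Polynomial M) (RatFunc M) (aeval P G) =
            aeval (fun j => algebraMap (Polynomial M) (RatFunc M) (P j)) G := by
          have := MvPolynomial.comp_aeval_apply (f := P)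
            (IsScalarTower.toAlgHom ℂ (Polynomial M) (RatFunc M)) G
          exact this
        rw [e2]
        have e3 : (fun j => algebraMap (Polynomial M) (RatFunc M) (P j)) =
            fun j => g * v j := funext hPg
        rw [e3, form_scale hG, hvG]
      rw [← map_eq_zero_iff _ (RatFunc.algebraMap_injective M), e1, mul_eq_zero,
        or_iff_right (pow_ne_zero _ hg), map_eq_zero_iff φ φ.injective]
      exact hval' G ⟨e, hG⟩
    · have hPl : P l ≠ 0 := by
        intro h0
        have h6 := hPg l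
        rw [h0, map_zero, hvl, mul_one] at h6
        exact hg h6.symm
      by_contra hno
      push Not at hno
      have hex : ∀ j, ∃ c : M, φ (y j) = algebraMap M (RatFunc M) c := by
        intro j
        obtain ⟨c, hc⟩ := prop_of_wronskian hPl (hno j l)
        refine ⟨c, ?_⟩
        have e7 := hPg j
        have e9 := hPg l
        rw [hvl, mul_one] at e9
        rw [hc, map_mul, e9] at e7
        have e8 : algebraMap (Polynomial M) (RatFunc M) (Polynomial.C c) =
            algebraMap M (RatFunc M) c := rfl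
        rw [e8, mul_comm] at e7
        exact (mul_left_cancel₀ hg e7).symm
      have h5 : (⊤ : IntermediateField ℂ E) ≤
          (IsScalarTower.toAlgHom ℂ M (RatFunc M)).fieldRange.comap φ := by
        rw [← htop, IntermediateField.adjoin_le_iff]
        rintro _ ⟨j, rfl⟩
        obtain ⟨c, hc⟩ := hex j
        exact ⟨c, hc.symm⟩
      obtain ⟨c, hc⟩ := h5 (IntermediateField.mem_top (x := r))
      exact hr' c hc.symm
  · left
    have hc : ∀ j, ∃ c : ℂ, y j = algebraMap ℂ E c := by
      intro j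
      have h3 : IsIntegral ℂ (y j) := (halgC (y j)).isIntegral
      have h4 := IsAlgClosed.degree_eq_one_of_irreducible ℂ (minpoly.irreducible h3)
      obtain ⟨c, hc⟩ := minpoly.mem_range_of_degree_eq_one ℂ (y j) h4
      exact ⟨c, hc.symm⟩
    choose c' hc' using hc
    have hlin : ∀ z j, (f z).rep j = c' j * (f z).rep l := by
      intro z j
      have h3 : (MvPolynomial.X j - MvPolynomial.C (c' j) * MvPolynomial.X l :
          MvPolynomial (Fin (N + 1)) ℂ).IsHomogeneous 1 := by
        refine (isHomogeneous_X _ _).sub ?_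
        have := (isHomogeneous_C (Fin (N + 1)) (c' j)).mul (isHomogeneous_X ℂ l)
        rwa [zero_add] at this
      have h4 : MvPolynomial.eval (f z).rep
          (MvPolynomial.X j - MvPolynomial.C (c' j) * MvPolynomial.X l) = 0 := by
        refine (hval' _ ⟨1, h3⟩).1 ?_ z
        rw [map_sub, map_mul, MvPolynomial.aeval_X, MvPolynomial.aeval_X, hyl, mul_one, hc' j,
          ← MvPolynomial.algebraMap_eq, AlgHom.commutes, sub_self]
      rw [map_sub, map_mul, MvPolynomial.eval_X, MvPolynomial.eval_X, MvPolynomial.eval_C] at h4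
      exact sub_eq_zero.1 h4
    intro z z'
    have hne' : ∀ z, (f z).rep l ≠ 0 := by
      intro z h3
      apply (f z).rep_nonzero
      funext j
      rw [hlin z j, h3, mul_zero]
      rfl
    rw [← (f z).mk_rep, ← (f z').mk_rep, Projectivization.mk_eq_mk_iff']
    refine ⟨(f z).rep l / (f z').rep l, ?_⟩
    funext j
    rw [Pi.smul_apply, smul_eq_mul, hlin z j, hlin z' j]
    have := hne' z'
    field_simp

end curves

end Pool.Agent.X316.ZG
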