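import Pool.Agent.X316.ZG.Log3
import Pool.Agent.X316.ZG.Zeta

/-!
Entire curves in quasi-projective varieties built from universal functions: the closure of the
curves of the multiplicative group, and logarithmic general type.
-/

set_option autoImplicit false

open Filter Topology Set MvPolynomial

namespace Pool.Agent.X316.ZG

open scoped LinearAlgebra.Projectivization
open Pool.Agent.TH143.EL (HolMap Rep InV)
open Pool.Agent.TH143.GT (FunField)
open Pool.Agent.W602.GT (IsForm LogGeneralType)
open Pool.Agent.W603.GR (OffQ)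
open Pool.Agent.Y377.IL (IterLin AlgebraicOver GmCurve log_family poly_ne nonconst_of_wr' regf
  form_scale)

variable {N : ℕ} {ι : Type}

/-- `f` is an entire curve in the complement `X` of the hypersurface `Q = 0` in the algebraic set of
the ideal `I`, built from the functions `u j` and their derivatives: the regular functions
`x ^ α / Q`, `|α| = d`, are given along `f` by iterated linear differential equations over the ring
of the polynomials in the derivatives of the functions `u j`, or `f` is algebraic over this ring. -/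
structure LogCurve (I : Ideal (MvPolynomial (Fin (N + 1)) ℂ)) (Q : MvPolynomial (Fin (N + 1)) ℂ)
    (d : ℕ) (u : ι → ℂ → ℂ) (f : ℂ → ℙ ℂ (Fin (N + 1) → ℂ)) : Prop where
  hol : HolMap f
  mem : ∀ z, InV I (f z)
  off : ∀ z, eval (f z).rep Q ≠ 0
  built : (∀ α : Fin (N + 1) →₀ ℕ, ∑ j, α j = d →
    IterLin (dring u) fun z => (∏ j, (f z).rep j ^ α j) / eval (f z).rep Q) ∨
    AlgebraicOver (dring u) f

variable {I : Ideal (MvPolynomial (Fin (N + 1)) ℂ)} {Q : MvPolynomial (Fin (N + 1)) ℂ} {d : ℕ}
  {u : ι → ℂ → ℂ} {f : ℂ → ℙ ℂ (Fin (N + 1) → ℂ)}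

/-- the family of maps from the punctured line -/
theorem log_curve (hu : JointlyUniversal u) (hd : 0 < d) (hQ : Q.IsHomogeneous d)
    (hf : LogCurve I Q d u f) : (∀ z z', f z = f z') ∨
      ∃ (M : Type) (_ : Field M) (_ : Algebra ℂ M) (P : Fin (N + 1) → Polynomial M),
        (∀ G : MvPolynomial (Fin (N + 1)) ℂ, (∃ e, G.IsHomogeneous e) →
          (aeval P G = 0 ↔ ∀ z, eval (f z).rep G = 0)) ∧
        (∃ (c : M) (k : ℕ), c ≠ 0 ∧ aeval P Q = Polynomial.C c * Polynomial.X ^ k) ∧
        ∃ j k, Polynomial.derivative (P j) * P k ≠ P j * Polynomial.derivative (P k) := by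
  rcases hf.built with h1 | h1
  · rcases log_family hd hQ (db_dring hu.mero) hf.hol hf.off h1 with h2 | h2
    · exact log_alg hu hd hQ hf.hol hf.off h2
    · exact Or.inr h2
  · exact log_alg hu hd hQ hf.hol hf.off h1

/-- forms which vanish on the curves of the multiplicative group vanish on the curve -/
theorem log_form (hu : JointlyUniversal u) (hd : 0 < d) (hQ : Q.IsHomogeneous d)
    (hf : LogCurve I Q d u f) : (∀ z z', f z = f z') ∨
      ∀ G : MvPolynomial (Fin (N + 1)) ℂ, (∃ e, G.IsHomogeneous e) →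
      (∀ p : Fin (N + 1) → Polynomial ℂ, GmCurve I Q p → ∀ t, t ≠ 0 →
        eval (fun j => (p j).eval t) G = 0) → ∀ z, eval (f z).rep G = 0 := by
  rcases log_curve hu hd hQ hf with h1 | ⟨M, i1, i2, P, h1, h2, h3⟩
  · exact Or.inl h1
  · right
    intro G hG hGm
    rw [← h1 G hG]
    have hev : ∀ (p : Fin (N + 1) → Polynomial ℂ) (G : MvPolynomial (Fin (N + 1)) ℂ) (u : ℂ),
        (aeval p G : Polynomial ℂ).eval u = eval (fun j => (p j).eval u) G := by
      intro p G u
      have e1 := MvPolynomial.comp_aeval_apply (f := p) (Polynomial.aeval u) G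
      rw [Polynomial.coe_aeval_eq_eval] at e1
      rw [e1, MvPolynomial.aeval_eq_eval]
    refine Pool.Agent.Y356.IL.t_RCQ N I Q G (fun p e1 e2 e3 => ?_) M P
      (fun G' hG' hGh' => ?_) h2 h3
    · apply poly_ne
      intro t ht
      rw [hev]
      refine hGm p ⟨fun u hu => ?_, fun u _ G' hG' hGh' => ?_, nonconst_of_wr' e3⟩ t ht
      · obtain ⟨c, k, hc, hck⟩ := e2
        rw [← hev, hck, Polynomial.eval_mul, Polynomial.eval_C, Polynomial.eval_pow,
          Polynomial.eval_X]
        exact mul_ne_zero hc (pow_ne_zero _ hu)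
      · rw [← hev, e1 G' hG' hGh', Polynomial.eval_zero]
    · rw [h1 G' hGh']
      exact fun z => hf.mem z G' hG' hGh'

/-- varieties with a dense curve are not of logarithmic general type -/
theorem log_lgt (hu : JointlyUniversal u) (hd : 0 < d) (hQ : Q.IsHomogeneous d)
    (hf : LogCurve I Q d u f) {K : Type} [Field K] [Algebra ℂ K] {w : ℕ} {y : Fin (N + 1) → K}
    (hy : FunField I Q K w y) (hden : ∀ G : MvPolynomial (Fin (N + 1)) ℂ, IsForm G →
      (∀ z, eval (f z).rep G = 0) → G ∈ I) :
    (∀ z z', f z = f z') ∨ ¬ LogGeneralType ℂ K w (OffQ Q d y) := by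
  rcases log_curve hu hd hQ hf with h1 | ⟨M, i1, i2, P, h1, h2, h3⟩
  · exact Or.inl h1
  · right
    refine Pool.Agent.Y405.IL.t_LGT N I Q d K w y hQ hy M P (fun G hG => ?_) h2 h3
    constructor
    · intro h0
      rw [h1 G hG]
      exact fun z => hf.mem z G (hy.mem G hG h0) hG
    · intro h0
      exact hy.sub.mem G (hden G hG ((h1 G hG).1 h0))

end Pool.Agent.X316.ZG
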