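import Pool.Agent.X316.ZG.Lim
import Pool.Agent.X316.ZG.Emb

/-!
The field of meromorphic functions on the plane, and the fields of meromorphic functions which are
algebraic over the derivatives of a jointly universal family.
-/

set_option autoImplicit false

open Filter Topology Set Polynomial

namespace Pool.Agent.X316.ZG

open Pool.Agent.TH143.EL (mero_id mero_ne codis_ev freq_of_ev)

/-- the ring of meromorphic functions on the plane -/
def merS : Subalgebra ℂ (ℂ → ℂ) where
  carrier := {f | Meromorphic f}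
  mul_mem' := fun ha hb => ha.mul hb
  add_mem' := fun ha hb => ha.add hb
  algebraMap_mem' := fun c => Meromorphic.const c

/-- the functions which vanish outside a discrete set -/
def nullI : Ideal merS where
  carrier := {f | ∀ᶠ z in codiscrete ℂ, (f : ℂ → ℂ) z = 0}
  add_mem' := by
    intro a b ha hb
    have ha' : ∀ᶠ z in codiscrete ℂ, (a : ℂ → ℂ) z = 0 := ha
    have hb' : ∀ᶠ z in codiscrete ℂ, (b : ℂ → ℂ) z = 0 := hb
    change ∀ᶠ z in codiscrete ℂ, (a : ℂ → ℂ) z + (b : ℂ → ℂ) z = 0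
    filter_upwards [ha', hb'] with z h1 h2
    rw [h1, h2, add_zero]
  zero_mem' := by
    change ∀ᶠ z in codiscrete ℂ, (0 : ℂ) = 0
    exact Eventually.of_forall fun _ => rfl
  smul_mem' := by
    intro c a ha
    have ha' : ∀ᶠ z in codiscrete ℂ, (a : ℂ → ℂ) z = 0 := ha
    change ∀ᶠ z in codiscrete ℂ, (c : ℂ → ℂ) z * (a : ℂ → ℂ) z = 0
    filter_upwards [ha'] with z h1
    rw [h1, mul_zero]

theorem mem_nullI {f : merS} : f ∈ nullI ↔ ∀ᶠ z in codiscrete ℂ, (f : ℂ → ℂ) z = 0 := Iff.rfl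

theorem nullI_max : nullI.IsMaximal := by
  rw [Ideal.isMaximal_iff]
  constructor
  · intro h
    obtain ⟨z, hz⟩ := (mem_nullI.1 h).exists
    exact one_ne_zero hz
  · intro J f hJ hf hfJ
    have hfm : Meromorphic (f : ℂ → ℂ) := f.2
    have h1 := mero_ne hfm hf
    let g : merS := ⟨fun z => ((f : ℂ → ℂ) z)⁻¹, hfm.inv⟩
    have h2 : f * g - 1 ∈ nullI := by
      rw [mem_nullI]
      filter_upwards [h1] with z hz
      change (f : ℂ → ℂ) z * ((f : ℂ → ℂ) z)⁻¹ - 1 = 0
      rw [mul_inv_cancel₀ hz, sub_self]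
    have h3 : (1 : merS) = f * g - (f * g - 1) := by ring
    rw [h3]
    exact J.sub_mem (J.mul_mem_right _ hfJ) (hJ h2)

instance : nullI.IsMaximal := nullI_max

/-- the field of meromorphic functions on the plane -/
abbrev Mf : Type := merS ⧸ nullI

noncomputable instance : Field Mf := Ideal.Quotient.field nullI

/-- the class of a meromorphic function -/
noncomputable def cl (f : ℂ → ℂ) (hf : Meromorphic f) : Mf := Ideal.Quotient.mk nullI ⟨f, hf⟩

theorem cl_zero {f : ℂ → ℂ} {hf : Meromorphic f} :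
    cl f hf = 0 ↔ ∀ᶠ z in codiscrete ℂ, f z = 0 := Ideal.Quotient.eq_zero_iff_mem

/-- evaluation of a meromorphic function at a point -/
def evz (z : ℂ) : merS →ₐ[ℂ] ℂ := (Pi.evalAlgHom ℂ (fun _ : ℂ => ℂ) z).comp merS.val

theorem meromorphic_iteratedDeriv {f : ℂ → ℂ} (hf : Meromorphic f) (n : ℕ) :
    Meromorphic (iteratedDeriv n f) := by
  induction n with
  | zero => rwa [iteratedDeriv_zero]
  | succ n ih =>
    rw [iteratedDeriv_succ]
    exact fun x => (ih x).deriv

section

variable {τ : Type} (X' : τ → ℂ → ℂ) (hX : ∀ v, Meromorphic (X' v)) (x' : ℂ → ℂ)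
  (hx : Meromorphic x')

/-- the homomorphism to the meromorphic functions -/
noncomputable def toMer : (MvPolynomial τ ℂ)[X] →ₐ[ℂ] merS :=
  { Polynomial.eval₂RingHom (MvPolynomial.aeval fun v => (⟨X' v, hX v⟩ : merS)).toRingHom
      ⟨x', hx⟩ with
    commutes' := fun c => by
      change Polynomial.eval₂ _ _ (algebraMap ℂ (MvPolynomial τ ℂ)[X] c) = _
      rw [IsScalarTower.algebraMap_apply ℂ (MvPolynomial τ ℂ) (MvPolynomial τ ℂ)[X],
        Polynomial.algebraMap_eq, Polynomial.eval₂_C]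
      exact AlgHom.commutes _ c }

theorem toMer_C (P : MvPolynomial τ ℂ) : toMer X' hX x' hx (Polynomial.C P) =
    MvPolynomial.aeval (fun v => (⟨X' v, hX v⟩ : merS)) P :=
  Polynomial.eval₂_C _ _

theorem toMer_X : toMer X' hX x' hx Polynomial.X = ⟨x', hx⟩ := Polynomial.eval₂_X _ _

theorem evz_toMer (z : ℂ) (P : (MvPolynomial τ ℂ)[X]) :
    evz z (toMer X' hX x' hx P) = evalAt (fun v => X' v z) (x' z) P := by
  have h1 : ((evz z).comp (toMer X' hX x' hx)).toRingHom =
      evalAt (fun v => X' v z) (x' z) := by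
    refine Polynomial.ringHom_ext' ?_ ?_
    · refine MvPolynomial.ringHom_ext (fun c => ?_) fun v => ?_
      · change evz z (toMer X' hX x' hx (Polynomial.C (MvPolynomial.C c))) =
          evalAt _ _ (Polynomial.C (MvPolynomial.C c))
        rw [toMer_C, ← MvPolynomial.algebraMap_eq, AlgHom.commutes, AlgHom.commutes]
        simp [evalAt, MvPolynomial.algebraMap_eq]
      · change evz z (toMer X' hX x' hx (Polynomial.C (MvPolynomial.X v))) =
          evalAt _ _ (Polynomial.C (MvPolynomial.X v))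
        rw [toMer_C, MvPolynomial.aeval_X]
        simp only [evalAt, RingHom.comp_apply, Polynomial.coe_mapRingHom, Polynomial.map_C,
          Polynomial.coe_evalRingHom, Polynomial.eval_C, MvPolynomial.eval_X]
        rfl
    · change evz z (toMer X' hX x' hx Polynomial.X) = evalAt _ _ Polynomial.X
      rw [toMer_X]
      simp only [evalAt, RingHom.comp_apply, Polynomial.coe_mapRingHom, Polynomial.map_X,
          Polynomial.coe_evalRingHom, Polynomial.eval_X]
      rfl
  exact RingHom.congr_fun h1 P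

/-- the homomorphism to the field -/
noncomputable def toMf : (MvPolynomial τ ℂ)[X] →ₐ[ℂ] Mf :=
  (Ideal.Quotient.mkₐ ℂ nullI).comp (toMer X' hX x' hx)

theorem toMf_zero {P : (MvPolynomial τ ℂ)[X]} : toMf X' hX x' hx P = 0 ↔
    ∀ᶠ z in codiscrete ℂ, evalAt (fun v => X' v z) (x' z) P = 0 := by
  have h1 : toMf X' hX x' hx P = 0 ↔ toMer X' hX x' hx P ∈ nullI :=
    Ideal.Quotient.eq_zero_iff_mem
  rw [h1, mem_nullI]
  refine eventually_congr (Eventually.of_forall fun z => ?_)
  rw [← evz_toMer X' hX x' hx z P]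
  rfl

theorem root_toMf {Φ : (MvPolynomial τ ℂ)[X][X]} {w : ℂ → ℂ} {hw : Meromorphic w}
    (h : Φ.eval₂ (toMf X' hX x' hx).toRingHom (cl w hw) = 0) :
    ∀ᶠ z in codiscrete ℂ, (Φ.map (evalAt (fun v => X' v z) (x' z))).eval (w z) = 0 := by
  have h1 : Φ.eval₂ (toMf X' hX x' hx).toRingHom (cl w hw) =
      Ideal.Quotient.mk nullI (Φ.eval₂ (toMer X' hX x' hx).toRingHom ⟨w, hw⟩) := by
    rw [Polynomial.hom_eval₂]
    rfl
  rw [h1, Ideal.Quotient.eq_zero_iff_mem, mem_nullI] at h
  filter_upwards [h] with z hz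
  have h2 : evz z (Φ.eval₂ (toMer X' hX x' hx).toRingHom ⟨w, hw⟩) = 0 := hz
  have h3 := Polynomial.hom_eval₂ Φ (toMer X' hX x' hx).toRingHom (evz z).toRingHom ⟨w, hw⟩
  have h4 : (evz z).toRingHom (Φ.eval₂ (toMer X' hX x' hx).toRingHom ⟨w, hw⟩) = 0 := h2
  rw [h4] at h3
  rw [Polynomial.eval_map, h3]
  have h5 : (evz z).toRingHom.comp (toMer X' hX x' hx).toRingHom =
      evalAt (fun v => X' v z) (x' z) := RingHom.ext fun P => evz_toMer X' hX x' hx z P
  rw [h5]
  rfl

end

theorem alg_lift {A L : Type} [CommRing A] [Algebra ℂ A] [Field L] [Algebra ℂ L]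
    (θ : A →ₐ[ℂ] L) {S : Subalgebra ℂ L} (hS : S ≤ θ.range) {y : L} (hy : IsAlgebraic S y) :
    ∃ Q : A[X], Q ≠ 0 ∧ Q.eval₂ θ.toRingHom y = 0 := by
  obtain ⟨P, hP0, hP⟩ := hy
  have h1 : P.map (S.val.toRingHom) ∈ Polynomial.lifts θ.toRingHom := by
    rw [Polynomial.lifts_iff_coeff_lifts]
    intro n
    rw [Polynomial.coeff_map]
    obtain ⟨a, ha⟩ := hS (P.coeff n).2
    exact ⟨a, ha⟩
  obtain ⟨Q, hQ⟩ := h1
  have hQ' : Q.map θ.toRingHom = P.map S.val.toRingHom := hQ
  refine ⟨Q, ?_, ?_⟩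
  · rintro rfl
    apply hP0
    rw [Polynomial.map_zero] at hQ'
    have h2 : Function.Injective S.val.toRingHom := Subtype.val_injective
    exact (Polynomial.map_eq_zero_iff h2).1 hQ'.symm
  · rw [← Polynomial.eval_map, hQ', Polynomial.eval_map]
    exact hP

theorem alg_unlift {A L : Type} [CommRing A] [Algebra ℂ A] [Field L] [Algebra ℂ L]
    (θ : A →ₐ[ℂ] L) (hθ : Function.Injective θ) {S : Subalgebra ℂ L} (hS : θ.range ≤ S) {y : L}
    (hy : ∃ Q : A[X], Q ≠ 0 ∧ Q.eval₂ θ.toRingHom y = 0) : IsAlgebraic S y := by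
  obtain ⟨Q, hQ0, hQ⟩ := hy
  let f : A →ₐ[ℂ] S := θ.codRestrict S fun a => hS ⟨a, rfl⟩
  have hf : Function.Injective f.toRingHom := fun a b h => hθ (congrArg Subtype.val h)
  refine ⟨Q.map f.toRingHom, fun h0 => hQ0 ((Polynomial.map_eq_zero_iff hf).1 h0), ?_⟩
  rw [Polynomial.aeval_def, Polynomial.eval₂_map]
  exact hQ

variable {ι : Type}

/-- **The main theorem on fields.** A finitely generated field of meromorphic functions which are
algebraic over the derivatives of a jointly universal family consists of constants, or it is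
covered by rational curves. -/
theorem fields {u : ι → ℂ → ℂ} (hu : JointlyUniversal u) {E : Type} [Field E] [Algebra ℂ E]
    (ψ : E →ₐ[ℂ] Mf) (hfg : (⊤ : IntermediateField ℂ E).FG) :
    ∀ (n : ℕ) (T : Finset (ι × ℕ)), T.card = n →
    (∀ e, IsAlgebraic (Algebra.adjoin ℂ ((fun v : ι × ℕ => cl (iteratedDeriv v.2 (u v.1))
      (meromorphic_iteratedDeriv (hu.mero v.1) v.2)) '' (T : Set (ι × ℕ))) : Subalgebra ℂ Mf)
      (ψ e)) →
    (∃ (M : Type) (_ : Field M) (_ : Algebra ℂ M) (φ : E →ₐ[ℂ] RatFunc M),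
      ∃ r : E, ∀ c : M, φ r ≠ algebraMap M (RatFunc M) c) ∨ ∀ e : E, IsAlgebraic ℂ e := by
  classical
  intro n
  induction n with
  | zero =>
    intro T hT h
    right
    intro e
    rw [Finset.card_eq_zero] at hT
    subst hT
    have h1 := h e
    rw [Finset.coe_empty, image_empty, Algebra.adjoin_empty] at h1
    have h2 : IsAlgebraic ℂ (ψ e) := by
      obtain ⟨Q, hQ0, hQ⟩ := alg_lift (Algebra.ofId ℂ Mf) (S := ⊥) (by
        intro x hx
        obtain ⟨c, rfl⟩ := Algebra.mem_bot.1 hx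
        exact ⟨c, rfl⟩) h1
      exact ⟨Q, hQ0, hQ⟩
    exact (isAlgebraic_algHom_iff ψ ψ.injective).1 h2
  | succ n ih =>
    intro T hT h
    have hne : T.Nonempty := by
      rw [← Finset.card_pos]
      omega
    obtain ⟨v1, hv1⟩ := hne
    -- the last derivative
    obtain ⟨v0, hv0, hmax⟩ := Finset.exists_max_image (T.filter fun v => v.1 = v1.1)
      (fun v => v.2) ⟨v1, Finset.mem_filter.2 ⟨hv1, rfl⟩⟩
    rw [Finset.mem_filter] at hv0
    obtain ⟨hv0T, hv01⟩ := hv0
    let T' := T.erase v0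
    have hT'c : T'.card = n := by
      rw [Finset.card_erase_of_mem hv0T, hT]
      rfl
    have hT' : ∀ v ∈ T', v.1 = v0.1 → v.2 < v0.2 := by
      intro v hv hv'
      rw [Finset.mem_erase] at hv
      have h1 := hmax v (Finset.mem_filter.2 ⟨hv.2, hv'.trans hv01⟩)
      refine lt_of_le_of_ne h1 fun h2 => hv.1 ?_
      exact Prod.ext hv' h2
    let x : ι × ℕ → ℂ → ℂ := fun v => iteratedDeriv v.2 (u v.1)
    have hx : ∀ v, Meromorphic (x v) := fun v =>
      meromorphic_iteratedDeriv (hu.mero v.1) v.2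
    let θ := toMf (fun v : T' => x v) (fun v => hx v) (x v0) (hx v0)
    have hθC : ∀ v : T', θ (Polynomial.C (MvPolynomial.X v)) = cl (x v) (hx v) := by
      intro v
      simp only [θ, toMf, AlgHom.comp_apply]
      rw [toMer_C, MvPolynomial.aeval_X]
      rfl
    have hθX : θ Polynomial.X = cl (x v0) (hx v0) := by
      simp only [θ, toMf, AlgHom.comp_apply]
      rw [toMer_X]
      rfl
    have hθi : Function.Injective θ := by
      rw [injective_iff_map_eq_zero]
      intro P hP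
      exact key_indep hu hT' ((toMf_zero _ _ _ _).1 hP)
    have halg : ∀ e, ∃ Q : (MvPolynomial T' ℂ)[X][X], Q ≠ 0 ∧
        Q.eval₂ θ.toRingHom (ψ e) = 0 := by
      intro e
      refine alg_lift θ ?_ (h e)
      rw [Algebra.adjoin_le_iff]
      rintro _ ⟨v, hv, rfl⟩
      by_cases hvv : v = v0
      · subst hvv
        exact ⟨Polynomial.X, hθX⟩
      · exact ⟨_, hθC ⟨v, Finset.mem_erase.2 ⟨hvv, hv⟩⟩⟩
    have hKP : ∀ (Φ : (MvPolynomial T' ℂ)[X][X]) (β : Mf), Φ.Monic →
        Φ.eval₂ θ.toRingHom β = 0 → ∃ N B : ℕ, 0 < N ∧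
        ∀ r : MvPolynomial T' ℂ, r ≠ 0 → ∃ a : MvPolynomial T' ℂ →+* ℂ, a r ≠ 0 ∧
          ∃ G : ℂ[X], G.natDegree ≤ B ∧ sp Φ a N G = 0 := by
      intro Φ β hΦ hβ
      obtain ⟨⟨w, hw⟩, rfl⟩ := Ideal.Quotient.mk_surjective β
      refine ⟨Φ.natDegree.factorial, Φ.natDegree.factorial * dg Φ, Nat.factorial_pos _,
        fun r hr => ?_⟩
      have hprod : r * ∏ v : T', (MvPolynomial.X v : MvPolynomial T' ℂ) ≠ 0 :=
        mul_ne_zero hr (Finset.prod_ne_zero_iff.2 fun v _ => MvPolynomial.X_ne_zero v)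
      obtain ⟨a, ha⟩ : ∃ a : T' → ℂ,
          MvPolynomial.eval a (r * ∏ v : T', MvPolynomial.X v) ≠ 0 := by
        by_contra hcon
        push Not at hcon
        exact hprod (MvPolynomial.funext fun a => by rw [hcon a, map_zero])
      rw [map_mul, map_prod] at ha
      simp only [MvPolynomial.eval_X] at ha
      have h3 := right_ne_zero_of_mul ha
      rw [Finset.prod_ne_zero_iff] at h3
      exact ⟨MvPolynomial.eval a, left_ne_zero_of_mul ha,
        key hu hT' hΦ hw (root_toMf _ _ _ _ hβ) a fun v _ => h3 v (Finset.mem_univ v)⟩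
    rcases embed (R := MvPolynomial T' ℂ) θ hθi ψ hfg halg hKP with h1 | h1
    · exact Or.inl h1
    · refine ih T' hT'c fun e => ?_
      refine alg_unlift (θ.comp (Polynomial.CAlgHom (R := ℂ) (A := MvPolynomial T' ℂ))) ?_ ?_
        (h1 e)
      · exact hθi.comp Polynomial.C_injective
      · rintro _ ⟨P, rfl⟩
        change θ (Polynomial.C P) ∈ _
        induction P using MvPolynomial.induction_on with
        | C c =>
          have h2 : θ (Polynomial.C (MvPolynomial.C c)) = algebraMap ℂ Mf c := θ.commutes c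
          rw [h2]
          exact Subalgebra.algebraMap_mem _ _
        | add P Q hP hQ =>
          rw [Polynomial.C_add, map_add]
          exact add_mem hP hQ
        | mul_X P v hP =>
          rw [Polynomial.C_mul, map_mul, hθC]
          exact mul_mem hP (Algebra.subset_adjoin ⟨v, v.2, rfl⟩)

end Pool.Agent.X316.ZG
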