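import Pool.Agent.X316.ZG.Root

/-!
Solutions over the closure of the field of rational functions from solutions at the points.
-/

set_option autoImplicit false

open Polynomial

namespace Pool.Agent.X316.ZG

attribute [local instance] MvPolynomial.algebraMvPolynomial in
/-- the Nullstellensatz over a domain -/
theorem null {σ : Type} [Finite σ] {R : Type} [CommRing R] [IsDomain R]
    (I : Ideal (MvPolynomial σ R)) (h : ∀ r : R, r ≠ 0 → MvPolynomial.C r ∉ I) :
    ∃ γ : σ → AlgebraicClosure (FractionRing R), ∀ P ∈ I, MvPolynomial.aeval γ P = 0 := by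
  let k := FractionRing R
  let J : Ideal (MvPolynomial σ k) := I.map (algebraMap (MvPolynomial σ R) (MvPolynomial σ k))
  have hJ : J ≠ ⊤ := by
    rw [IsLocalization.map_algebraMap_ne_top_iff_disjoint
      ((nonZeroDivisors R).map (MvPolynomial.C : R →+* MvPolynomial σ R))]
    rw [Set.disjoint_left]
    rintro _ ⟨r, hr, rfl⟩ hrI
    exact h r (nonZeroDivisors.ne_zero hr) hrI
  obtain ⟨m, hm, hJm⟩ := Ideal.exists_le_maximal J hJ
  letI : Field (MvPolynomial σ k ⧸ m) := Ideal.Quotient.field m
  haveI : Module.Finite k (MvPolynomial σ k ⧸ m) :=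
    finite_of_finite_type_of_isJacobsonRing k (MvPolynomial σ k ⧸ m)
  haveI : Algebra.IsAlgebraic k (MvPolynomial σ k ⧸ m) := Algebra.IsAlgebraic.of_finite _ _
  let l : (MvPolynomial σ k ⧸ m) →ₐ[k] AlgebraicClosure k := IsAlgClosed.lift
  let f : MvPolynomial σ k →ₐ[k] AlgebraicClosure k := l.comp (Ideal.Quotient.mkₐ k m)
  refine ⟨fun i => f (MvPolynomial.X i), fun P hP => ?_⟩
  have h1 : MvPolynomial.aeval (fun i => f (MvPolynomial.X i)) P =
      f (algebraMap (MvPolynomial σ R) (MvPolynomial σ k) P) := by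
    have h2 : (MvPolynomial.aeval (R := R) (fun i => f (MvPolynomial.X i))).toRingHom =
        (f.toRingHom).comp (algebraMap (MvPolynomial σ R) (MvPolynomial σ k)) := by
      apply MvPolynomial.ringHom_ext
      · intro r
        have h3 : algebraMap (MvPolynomial σ R) (MvPolynomial σ k) (MvPolynomial.C r) =
            algebraMap k _ (algebraMap R k r) := by
          rw [MvPolynomial.algebraMap_def, MvPolynomial.map_C]
          rfl
        change MvPolynomial.aeval _ (MvPolynomial.C r) = f (algebraMap _ _ (MvPolynomial.C r))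
        rw [h3, f.commutes, ← MvPolynomial.algebraMap_eq, AlgHom.commutes]
        exact IsScalarTower.algebraMap_apply R k (AlgebraicClosure k) r
      · intro i
        change MvPolynomial.aeval _ (MvPolynomial.X i) = f (algebraMap _ _ (MvPolynomial.X i))
        rw [MvPolynomial.aeval_X, MvPolynomial.algebraMap_def, MvPolynomial.map_X]
    exact RingHom.congr_fun h2 P
  rw [h1]
  have h2 : algebraMap (MvPolynomial σ R) (MvPolynomial σ k) P ∈ m :=
    hJm (Ideal.mem_map_of_mem _ hP)
  change l (Ideal.Quotient.mk m _) = 0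
  rw [Ideal.Quotient.eq_zero_iff_mem.2 h2, map_zero]

section

variable {R : Type} [CommRing R]

/-- the value of the polynomial with the coefficients specialised by `φ` and `X` replaced by
`X ^ N` -/
noncomputable def sp {A : Type} [CommRing A] (Φ : R[X][X]) (φ : R →+* A) (N : ℕ) (G : A[X]) :
    A[X] :=
  ((Φ.map (Polynomial.mapRingHom φ)).map (Polynomial.expand A N).toRingHom).eval G

theorem sp_map {A A' : Type} [CommRing A] [CommRing A'] (Φ : R[X][X]) (φ : R →+* A) (N : ℕ)
    (G : A[X]) (ξ : A →+* A') : (sp Φ φ N G).map ξ = sp Φ (ξ.comp φ) N (G.map ξ) := by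
  unfold sp
  rw [← Polynomial.coe_mapRingHom, ← Polynomial.eval₂_hom, Polynomial.eval₂_map,
    Polynomial.eval₂_map, Polynomial.eval_map, Polynomial.eval₂_map]
  congr 1
  refine Polynomial.ringHom_ext (fun c => ?_) ?_
  · simp
  · simp

end

/-- the transfer of solutions -/
theorem exists_generic {R : Type} [CommRing R] [IsDomain R] (Φ : R[X][X]) (N B : ℕ)
    (h : ∀ r : R, r ≠ 0 → ∃ a : R →+* ℂ, a r ≠ 0 ∧ ∃ G : ℂ[X], G.natDegree ≤ B ∧ sp Φ a N G = 0) :
    ∃ G : (AlgebraicClosure (FractionRing R))[X], sp Φ (algebraMap R _) N G = 0 := by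
  classical
  let U := MvPolynomial (Fin (B + 1)) R
  let G0 : U[X] := ∑ i : Fin (B + 1), Polynomial.C (MvPolynomial.X i) * X ^ (i : ℕ)
  let S : U[X] := sp Φ (MvPolynomial.C : R →+* U) N G0
  let I : Ideal U := Ideal.span (Set.range fun l => S.coeff l)
  have hker : ∀ {A : Type} [CommRing A] (ξ : U →+* A), S.map ξ = 0 → ∀ P ∈ I, ξ P = 0 := by
    intro A _ ξ h1 P hP
    have h2 : I ≤ RingHom.ker ξ := by
      rw [Ideal.span_le]
      rintro _ ⟨l, rfl⟩
      have h3 := congrArg (fun Q => Q.coeff l) h1
      simp only [Polynomial.coeff_map, Polynomial.coeff_zero] at h3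
      exact h3
    exact h2 hP
  obtain ⟨γ, hγ⟩ := null I (fun r hr hrI => by
    obtain ⟨a, har, G, hG, hsp⟩ := h r hr
    let ξ : U →+* ℂ := MvPolynomial.eval₂Hom a fun i => G.coeff i
    have h1 : S.map ξ = 0 := by
      rw [← hsp]
      simp only [S]
      rw [sp_map]
      congr 1
      · ext r
        exact MvPolynomial.eval₂_C _ _ r
      · simp only [G0, Polynomial.map_sum, Polynomial.map_mul, Polynomial.map_C,
          Polynomial.map_pow, Polynomial.map_X]
        have h2 : ∀ i, ξ (MvPolynomial.X i) = G.coeff i := fun i => MvPolynomial.eval₂_X _ _ i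
        simp only [h2]
        rw [Fin.sum_univ_eq_sum_range (fun i => Polynomial.C (G.coeff i) * X ^ i) (B + 1)]
        exact (G.as_sum_range_C_mul_X_pow' (by omega)).symm
    have h3 := hker ξ h1 _ hrI
    apply har
    rw [← h3]
    exact (MvPolynomial.eval₂_C _ _ r).symm)
  let ξ : U →+* AlgebraicClosure (FractionRing R) := (MvPolynomial.aeval γ).toRingHom
  refine ⟨G0.map ξ, ?_⟩
  have h1 : S.map ξ = 0 := by
    ext l
    rw [Polynomial.coeff_map, Polynomial.coeff_zero]
    exact hγ _ (Ideal.subset_span ⟨l, rfl⟩)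
  rw [← h1]
  simp only [S]
  rw [sp_map]
  congr 1
  ext r
  change algebraMap R _ r = MvPolynomial.aeval γ (MvPolynomial.C r)
  rw [← MvPolynomial.algebraMap_eq, AlgHom.commutes]

end Pool.Agent.X316.ZG
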