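import Pool.Agent.X316.ZG.Ent

/-!
Periodic entire functions of exponential type with bounded behaviour to the left.
-/

set_option autoImplicit false

open Filter Topology Metric Set Polynomial

namespace Pool.Agent.X316.ZG

/-- a periodic function which grows at most like a power of the exponential is a polynomial in
a root of the exponential -/
theorem exists_poly_exp {W : ℂ → ℂ} (hW : Differentiable ℂ W) {N : ℕ} (hN : 0 < N)
    (hper : ∀ t, W (t + N * (2 * Real.pi * Complex.I)) = W t) {C : ℝ} {m : ℕ}
    (hg : ∀ t : ℂ, ‖W t‖ ≤ C * (1 + ‖Complex.exp t‖) ^ m) :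
    ∃ P : ℂ[X], P.natDegree ≤ N * m ∧ ∀ t, P.eval (Complex.exp (t / N)) = W t := by
  have hNR : (0 : ℝ) < N := by exact_mod_cast hN
  have hNC : (N : ℂ) ≠ 0 := by exact_mod_cast hN.ne'
  have hC : 0 ≤ C := by
    have h1 := (norm_nonneg _).trans (hg 0)
    have h2 : 0 < (1 + ‖Complex.exp 0‖) ^ m := by positivity
    exact nonneg_of_mul_nonneg_left h1 h2
  let f : ℂ → ℂ := fun x => W (2 * Real.pi * Complex.I * x)
  have hf : Differentiable ℂ f := hW.comp (by fun_prop)
  have hfp : Function.Periodic f ((N : ℝ) : ℂ) := by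
    intro x
    change W (2 * Real.pi * Complex.I * (x + ((N : ℝ) : ℂ))) = W (2 * Real.pi * Complex.I * x)
    rw [← hper (2 * Real.pi * Complex.I * x)]
    congr 1
    push_cast
    ring
  let G : ℂ → ℂ := Function.Periodic.cuspFunction (N : ℝ) f
  have hGq : ∀ x, G (Function.Periodic.qParam (N : ℝ) x) = f x := fun x =>
    Function.Periodic.eq_cuspFunction hNR.ne' hfp x
  have hq : ∀ x, Function.Periodic.qParam (N : ℝ) x =
      Complex.exp ((2 * Real.pi * Complex.I * x) / N) := by
    intro x
    unfold Function.Periodic.qParam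
    push_cast
    rfl
  have hb : Filter.BoundedAtFilter (comap Complex.im atTop) f := by
    refine Asymptotics.IsBigO.of_bound (C * 2 ^ m) ?_
    have h1 : ∀ᶠ x : ℂ in comap Complex.im atTop, 0 ≤ x.im :=
      tendsto_comap.eventually (eventually_ge_atTop 0)
    filter_upwards [h1] with x hx
    rw [Pi.one_apply, norm_one, mul_one]
    refine (hg _).trans ?_
    have h2 : ‖Complex.exp (2 * Real.pi * Complex.I * x)‖ ≤ 1 := by
      rw [Complex.norm_exp, Real.exp_le_one_iff]
      have h3 : (2 * Real.pi * Complex.I * x).re = -(2 * Real.pi * x.im) := by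
        simp [Complex.mul_re]
      rw [h3]
      have := Real.pi_pos
      have : 0 ≤ 2 * Real.pi * x.im := by positivity
      linarith
    gcongr
    linarith
  have hG : Differentiable ℂ G := by
    intro q
    by_cases h0 : q = 0
    · subst h0
      exact Function.Periodic.differentiableAt_cuspFunction_zero hNR hfp
        (Eventually.of_forall fun z => hf z) hb
    · rw [← Function.Periodic.qParam_right_inv hNR.ne' h0]
      exact Function.Periodic.differentiableAt_cuspFunction hNR.ne' hfp (hf _)
  have hgr : ∀ q, ‖G q‖ ≤ C * (1 + ‖q‖) ^ (N * m) := by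
    have h1 : ∀ q, q ≠ 0 → ‖G q‖ ≤ C * (1 + ‖q‖) ^ (N * m) := by
      intro q h0
      have e1 := Function.Periodic.qParam_right_inv hNR.ne' h0
      have e2 := hGq (Function.Periodic.invQParam (N : ℝ) q)
      rw [e1] at e2
      rw [e2]
      refine (hg _).trans ?_
      have e3 : ‖Complex.exp (2 * Real.pi * Complex.I * Function.Periodic.invQParam (N : ℝ) q)‖ =
          ‖q‖ ^ N := by
        rw [← norm_pow]
        congr 1
        conv_rhs => rw [← e1, hq]
        rw [← Complex.exp_nat_mul]
        congr 1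
        field_simp
      rw [e3, pow_mul]
      have e4 : 1 + ‖q‖ ^ N ≤ (1 + ‖q‖) ^ N := by
        have h5 := pow_add_pow_le (zero_le_one (α := ℝ)) (norm_nonneg q) hN.ne'
        rwa [one_pow] at h5
      gcongr
    have h2 : IsClosed {q : ℂ | ‖G q‖ ≤ C * (1 + ‖q‖) ^ (N * m)} :=
      isClosed_le hG.continuous.norm (by fun_prop)
    intro q
    have h3 : ({0}ᶜ : Set ℂ) ⊆ {q : ℂ | ‖G q‖ ≤ C * (1 + ‖q‖) ^ (N * m)} := fun q hq => h1 q hq
    have h4 := h2.closure_subset_iff.2 h3
    rw [(dense_compl_singleton (0 : ℂ)).closure_eq] at h4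
    exact h4 (mem_univ q)
  obtain ⟨P, hP, hPe⟩ := poly_of_growth hG hgr
  refine ⟨P, hP, fun t => ?_⟩
  have h1 := hGq (t / (2 * Real.pi * Complex.I))
  rw [hq] at h1
  have h2 : 2 * (Real.pi : ℂ) * Complex.I * (t / (2 * Real.pi * Complex.I)) = t := by
    have := Real.pi_pos.ne'
    field_simp
  rw [hPe]
  change G _ = W (2 * Real.pi * Complex.I * (t / (2 * Real.pi * Complex.I))) at h1
  rwa [h2] at h1

end Pool.Agent.X316.ZG
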