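import Pool.Agent.X316.ZG.Per

/-!
Families of monic polynomials with polynomial coefficients: bounds for the roots, limits of roots,
roots over the exponential function.
-/

set_option autoImplicit false

open Filter Topology Metric Set Polynomial

namespace Pool.Agent.X316.ZG

variable {τ : Type} [Fintype τ]

/-- the value of a polynomial in `X` over the polynomial ring in the variables `τ` -/
noncomputable def evalAt (a : τ → ℂ) (x : ℂ) : (MvPolynomial τ ℂ)[X] →+* ℂ :=
  (Polynomial.evalRingHom x).comp (Polynomial.mapRingHom (MvPolynomial.eval a))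

omit [Fintype τ] in
theorem evalAt_eq (a : τ → ℂ) (x : ℂ) (c : (MvPolynomial τ ℂ)[X]) :
    evalAt a x c = ∑ i ∈ Finset.range (c.natDegree + 1), MvPolynomial.eval a (c.coeff i) * x ^ i := by
  unfold evalAt
  rw [RingHom.comp_apply, Polynomial.coe_mapRingHom, Polynomial.coe_evalRingHom,
    Polynomial.eval_map, Polynomial.eval₂_eq_sum_range]

omit [Fintype τ] in
theorem continuous_evalAt (c : (MvPolynomial τ ℂ)[X]) :
    Continuous fun p : (τ → ℂ) × ℂ => evalAt p.1 p.2 c := by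
  simp only [evalAt_eq]
  refine continuous_finsetSum _ fun i _ => Continuous.mul ?_ (continuous_snd.pow i)
  exact (MvPolynomial.continuous_eval (c.coeff i)).comp continuous_fst

/-- a bound for the roots -/
noncomputable def rb (Φ : (MvPolynomial τ ℂ)[X][X]) (p : (τ → ℂ) × ℂ) : ℝ :=
  1 + ∑ i ∈ Finset.range Φ.natDegree, ‖evalAt p.1 p.2 (Φ.coeff i)‖

omit [Fintype τ] in
theorem continuous_rb (Φ : (MvPolynomial τ ℂ)[X][X]) : Continuous (rb Φ) :=
  continuous_const.add (continuous_finsetSum _ fun _ _ => (continuous_evalAt _).norm)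

theorem root_bound {P : ℂ[X]} (hP : P.Monic) {w : ℂ} (hw : P.eval w = 0) :
    ‖w‖ ≤ 1 + ∑ i ∈ Finset.range P.natDegree, ‖P.coeff i‖ := by
  by_contra hcon
  rw [not_le] at hcon
  set S := ∑ i ∈ Finset.range P.natDegree, ‖P.coeff i‖ with hS
  have hS0 : 0 ≤ S := Finset.sum_nonneg fun _ _ => norm_nonneg _
  have h1 : 1 < ‖w‖ := by linarith
  have h2 := hw
  rw [hP.as_sum] at h2
  rw [Polynomial.eval_add, Polynomial.eval_pow, Polynomial.eval_X, Polynomial.eval_finsetSum] at h2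
  have h3 : w ^ P.natDegree = -∑ i ∈ Finset.range P.natDegree, P.coeff i * w ^ i := by
    rw [eq_neg_iff_add_eq_zero, ← h2]
    congr 1
    refine Finset.sum_congr rfl fun i _ => ?_
    rw [Polynomial.eval_mul, Polynomial.eval_C, Polynomial.eval_pow, Polynomial.eval_X]
  have hd : 0 < P.natDegree := by
    rcases Nat.eq_zero_or_pos P.natDegree with h0 | h0
    · rw [h0] at h3
      simp at h3
    · exact h0
  have h4 : ‖w‖ ^ P.natDegree ≤ S * ‖w‖ ^ (P.natDegree - 1) := by
    rw [← norm_pow, h3, norm_neg, hS, Finset.sum_mul]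
    refine (norm_sum_le _ _).trans (Finset.sum_le_sum fun i hi => ?_)
    rw [norm_mul, norm_pow]
    have hi' := Finset.mem_range.1 hi
    exact mul_le_mul_of_nonneg_left (pow_le_pow_right₀ h1.le (by omega)) (norm_nonneg _)
  obtain ⟨e, he⟩ : ∃ e, P.natDegree = e + 1 := ⟨P.natDegree - 1, by omega⟩
  rw [he, Nat.add_sub_cancel, pow_succ] at h4
  have h5 : 0 < ‖w‖ ^ e := by positivity
  have h6 : ‖w‖ ≤ S := le_of_mul_le_mul_left (by linarith [mul_comm S (‖w‖ ^ e)]) h5
  linarith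

omit [Fintype τ] in
theorem norm_root_le {Φ : (MvPolynomial τ ℂ)[X][X]} (hΦ : Φ.Monic) {a : τ → ℂ} {x w : ℂ}
    (hw : (Φ.map (evalAt a x)).eval w = 0) : ‖w‖ ≤ rb Φ (a, x) := by
  have h1 := root_bound (hΦ.map (evalAt a x)) hw
  rw [hΦ.natDegree_map] at h1
  unfold rb
  simpa only [Polynomial.coeff_map] using h1

/-- the degree in the last variable -/
noncomputable def dg (Φ : (MvPolynomial τ ℂ)[X][X]) : ℕ :=
  (Finset.range Φ.natDegree).sup fun i => (Φ.coeff i).natDegree

omit [Fintype τ] in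
theorem rb_growth (Φ : (MvPolynomial τ ℂ)[X][X]) (a : τ → ℂ) :
    ∃ C : ℝ, ∀ x : ℂ, rb Φ (a, x) ≤ C * (1 + ‖x‖) ^ dg Φ := by
  refine ⟨1 + ∑ i ∈ Finset.range Φ.natDegree, ∑ j ∈ Finset.range ((Φ.coeff i).natDegree + 1),
    ‖MvPolynomial.eval a ((Φ.coeff i).coeff j)‖, fun x => ?_⟩
  have hx : 1 ≤ 1 + ‖x‖ := by linarith [norm_nonneg x]
  unfold rb
  rw [add_mul, one_mul, Finset.sum_mul]
  refine add_le_add (one_le_pow₀ hx) (Finset.sum_le_sum fun i hi => ?_)
  simp only [evalAt_eq]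
  refine (norm_sum_le _ _).trans ?_
  rw [Finset.sum_mul]
  refine Finset.sum_le_sum fun j hj => ?_
  rw [norm_mul, norm_pow]
  refine mul_le_mul_of_nonneg_left ?_ (norm_nonneg _)
  have h1 : j ≤ dg Φ := by
    have h2 := Finset.mem_range.1 hj
    have h3 : (Φ.coeff i).natDegree ≤ dg Φ :=
      Finset.le_sup (f := fun i => (Φ.coeff i).natDegree) hi
    omega
  calc ‖x‖ ^ j ≤ (1 + ‖x‖) ^ j := pow_le_pow_left₀ (norm_nonneg _) (by linarith) _
    _ ≤ (1 + ‖x‖) ^ dg Φ := pow_le_pow_right₀ hx h1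

/-- the limit of roots along arguments which converge to `(a, exp t)` -/
theorem exists_limit_root {Φ : (MvPolynomial τ ℂ)[X][X]} (hΦ : Φ.Monic) (a : τ → ℂ)
    (Xk : ℕ → ℂ → τ → ℂ) (xk wk : ℕ → ℂ → ℂ)
    (hw : ∀ k : ℕ, DifferentiableOn ℂ (wk k) (ball 0 k))
    (hroot : ∀ k : ℕ, ∀ t ∈ ball (0 : ℂ) k,
      (Φ.map (evalAt (Xk k t) (xk k t))).eval (wk k t) = 0)
    (hX : ∀ k : ℕ, ∀ t ∈ ball (0 : ℂ) k, ∀ v, ‖Xk k t v - a v‖ ≤ 1 / (k + 1))
    (hx : ∀ k : ℕ, ∀ t ∈ ball (0 : ℂ) k, ‖xk k t - Complex.exp t‖ ≤ 1 / (k + 1)) :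
    ∃ W : ℂ → ℂ, Differentiable ℂ W ∧
      ∀ t, (Φ.map (evalAt a (Complex.exp t))).eval (W t) = 0 := by
  have hk1 : ∀ k : ℕ, (1 : ℝ) / (k + 1) ≤ 1 := fun k => by
    rw [div_le_one (by positivity)]
    linarith [(Nat.cast_nonneg k : (0 : ℝ) ≤ k)]
  -- bounds on compact sets
  have hM : ∀ ρ : ℝ, ∃ M : ℝ, ∀ p : (τ → ℂ) × ℂ, ‖p.1‖ ≤ ‖a‖ + 1 → ‖p.2‖ ≤ Real.exp ρ + 1 →
      rb Φ p ≤ M := by
    intro ρ
    have hc : IsCompact (closedBall (0 : τ → ℂ) (‖a‖ + 1) ×ˢ closedBall (0 : ℂ) (Real.exp ρ + 1)) :=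
      (isCompact_closedBall _ _).prod (isCompact_closedBall _ _)
    obtain ⟨M, hM⟩ := hc.exists_bound_of_continuousOn (continuous_rb Φ).continuousOn
    refine ⟨M, fun p h1 h2 => (le_abs_self _).trans ?_⟩
    exact hM p ⟨by rwa [mem_closedBall_zero_iff], by rwa [mem_closedBall_zero_iff]⟩
  choose M hM using hM
  obtain ⟨𝒰, h𝒰⟩ : ∃ 𝒰 : Ultrafilter ℕ, (𝒰 : Filter ℕ) ≤ atTop := Ultrafilter.exists_le _
  obtain ⟨W, hW, hWt⟩ := limit_entire 𝒰 h𝒰 wk M (fun k ρ hρ hρk => by
    refine ⟨(hw k).mono (ball_subset_ball hρk.le), fun t ht => ?_⟩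
    have htk : t ∈ ball (0 : ℂ) k := ball_subset_ball hρk.le ht
    refine (norm_root_le hΦ (hroot k t htk)).trans (hM ρ _ ?_ ?_)
    · have h1 : ‖Xk k t - a‖ ≤ 1 := by
        rw [pi_norm_le_iff_of_nonneg zero_le_one]
        exact fun v => (hX k t htk v).trans (hk1 k)
      calc ‖Xk k t‖ = ‖a + (Xk k t - a)‖ := by congr 1; abel
        _ ≤ ‖a‖ + ‖Xk k t - a‖ := norm_add_le _ _
        _ ≤ ‖a‖ + 1 := by linarith
    · have h1 := (hx k t htk).trans (hk1 k)
      have h2 : ‖Complex.exp t‖ ≤ Real.exp ρ := by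
        rw [Complex.norm_exp, Real.exp_le_exp]
        have h3 : ‖t‖ < ρ := by rwa [mem_ball_zero_iff] at ht
        linarith [Complex.re_le_norm t]
      calc ‖xk k t‖ = ‖Complex.exp t + (xk k t - Complex.exp t)‖ := by congr 1; ring
        _ ≤ ‖Complex.exp t‖ + ‖xk k t - Complex.exp t‖ := norm_add_le _ _
        _ ≤ Real.exp ρ + 1 := by linarith)
  refine ⟨W, hW, fun t => ?_⟩
  have hev : ∀ᶠ k : ℕ in (𝒰 : Filter ℕ), t ∈ ball (0 : ℂ) k := by
    refine h𝒰 ?_
    obtain ⟨n, hn⟩ := exists_nat_gt ‖t‖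
    filter_upwards [eventually_ge_atTop n] with k hk
    rw [mem_ball_zero_iff]
    exact hn.trans_le (by exact_mod_cast hk)
  have hlim : Tendsto (fun k : ℕ => (1 : ℝ) / (k + 1)) (𝒰 : Filter ℕ) (𝓝 0) :=
    tendsto_one_div_add_atTop_nhds_zero_nat.mono_left h𝒰
  have hXt : Tendsto (fun k => Xk k t) (𝒰 : Filter ℕ) (𝓝 a) := by
    rw [tendsto_pi_nhds]
    intro v
    rw [tendsto_iff_norm_sub_tendsto_zero]
    exact squeeze_zero' (Eventually.of_forall fun _ => norm_nonneg _)
      (hev.mono fun k hk => hX k t hk v) hlim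
  have hxt : Tendsto (fun k => xk k t) (𝒰 : Filter ℕ) (𝓝 (Complex.exp t)) := by
    rw [tendsto_iff_norm_sub_tendsto_zero]
    exact squeeze_zero' (Eventually.of_forall fun _ => norm_nonneg _)
      (hev.mono fun k hk => hx k t hk) hlim
  have hcont : Continuous fun p : ((τ → ℂ) × ℂ) × ℂ => (Φ.map (evalAt p.1.1 p.1.2)).eval p.2 := by
    simp only [Polynomial.eval_map, Polynomial.eval₂_eq_sum_range]
    exact continuous_finsetSum _ fun i _ =>
      ((continuous_evalAt _).comp continuous_fst).mul (continuous_snd.pow i)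
  have h1 := (hcont.tendsto ((a, Complex.exp t), W t)).comp
    ((hXt.prodMk_nhds hxt).prodMk_nhds (hWt t))
  refine tendsto_nhds_unique h1 (tendsto_const_nhds.congr' ?_)
  filter_upwards [hev] with k hk
  exact (hroot k t hk).symm

omit [Fintype τ] in
/-- entire roots over the exponential function are polynomials -/
theorem exists_poly_root {Φ : (MvPolynomial τ ℂ)[X][X]} (hΦ : Φ.Monic) {a : τ → ℂ}
    {W : ℂ → ℂ} (hW : Differentiable ℂ W)
    (hroot : ∀ t, (Φ.map (evalAt a (Complex.exp t))).eval (W t) = 0) :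
    ∃ G : ℂ[X], G.natDegree ≤ Φ.natDegree.factorial * dg Φ ∧
      ((Φ.map (Polynomial.mapRingHom (MvPolynomial.eval a))).map
        (Polynomial.expand ℂ Φ.natDegree.factorial).toRingHom).eval G = 0 := by
  classical
  have hexp : ∀ (t : ℂ) (k : ℕ), Complex.exp (t + k * (2 * Real.pi * Complex.I)) = Complex.exp t :=
    fun t k => Complex.exp_periodic.nat_mul k t
  obtain ⟨n, hn0, hnd, hn⟩ := exists_period hW (d := Φ.natDegree) (fun t => by
    let P : ℂ[X] := Φ.map (evalAt a (Complex.exp t))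
    have hP : P.Monic := hΦ.map _
    have h1 : P.roots.toFinset.card < (Finset.range (Φ.natDegree + 1)).card := by
      rw [Finset.card_range]
      have h2 := (Multiset.toFinset_card_le P.roots).trans P.card_roots'
      rw [show P.natDegree = Φ.natDegree from hΦ.natDegree_map _] at h2
      omega
    obtain ⟨k, hk, l, hl, hne, heq⟩ := Finset.exists_ne_map_eq_of_card_lt_of_maps_to h1
      (f := fun k : ℕ => W (t + k * (2 * Real.pi * Complex.I))) (fun k _ => by
        rw [Finset.mem_coe, Multiset.mem_toFinset, Polynomial.mem_roots hP.ne_zero,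
          Polynomial.IsRoot.def]
        have h3 := hroot (t + k * (2 * Real.pi * Complex.I))
        rwa [hexp] at h3)
    have hk' := Finset.mem_range.1 hk
    have hl' := Finset.mem_range.1 hl
    rcases lt_or_gt_of_ne hne with h4 | h4
    · exact ⟨k, l, h4, by omega, heq⟩
    · exact ⟨l, k, h4, by omega, heq.symm⟩)
  set N := Φ.natDegree.factorial with hN
  have hNpos : 0 < N := Nat.factorial_pos _
  obtain ⟨e, he⟩ : n ∣ N := Nat.dvd_factorial hn0 hnd
  have hper : ∀ t, W (t + N * (2 * Real.pi * Complex.I)) = W t := by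
    intro t
    have h1 : ∀ j : ℕ, W (t + j * (n * (2 * Real.pi * Complex.I))) = W t := by
      intro j
      induction j with
      | zero => simp
      | succ j ih =>
        rw [← ih, ← hn (t + j * (n * (2 * Real.pi * Complex.I)))]
        congr 1
        push_cast
        ring
    rw [← h1 e]
    congr 1
    rw [he]
    push_cast
    ring
  obtain ⟨C, hC⟩ := rb_growth Φ a
  obtain ⟨G, hG, hGe⟩ := exists_poly_exp hW hNpos hper (C := C) (m := dg Φ)
    (fun t => (norm_root_le hΦ (hroot t)).trans (hC _))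
  refine ⟨G, hG, ?_⟩
  -- a polynomial with infinitely many zeros
  refine Polynomial.eq_zero_of_infinite_isRoot _ (Set.Infinite.mono (s := {0}ᶜ) ?_
    (Set.Finite.infinite_compl (Set.finite_singleton (0 : ℂ))))
  intro u hu
  have hu0 : u ≠ 0 := hu
  have hNC : (N : ℂ) ≠ 0 := by exact_mod_cast hNpos.ne'
  have e1 : Complex.exp ((N * Complex.log u) / N) = u := by
    rw [mul_div_cancel_left₀ _ hNC, Complex.exp_log hu0]
  have e2 : Complex.exp (N * Complex.log u) = u ^ N := by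
    rw [Complex.exp_nat_mul, Complex.exp_log hu0]
  have h1 := hroot (N * Complex.log u)
  rw [← hGe, e1, e2] at h1
  change Polynomial.IsRoot _ _
  rw [Polynomial.IsRoot.def, ← h1, ← Polynomial.coe_evalRingHom u, ← Polynomial.eval₂_hom,
    Polynomial.eval₂_map, Polynomial.eval₂_map, Polynomial.eval_map]
  congr 1
  refine Polynomial.ringHom_ext (fun c => ?_) ?_
  · simp [evalAt]
  · simp [evalAt]

end Pool.Agent.X316.ZG
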