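import Mathlib

/-!
Jointly universal families of meromorphic functions: the definitions.
-/

set_option autoImplicit false

open Filter Topology Metric Set

namespace Pool.Agent.X316.ZG

/-- The translates of the tuple `u` approximate every tuple of zero-free entire functions
`exp (q j)` uniformly on a disc of fixed radius, where the functions `u j` have no poles. -/
def UniversalOn {ι : Type} (u : ι → ℂ → ℂ) : Prop :=
  ∃ r : ℝ, 0 < r ∧ ∀ q : ι → ℂ → ℂ, (∀ j, Differentiable ℂ (q j)) → ∀ ε : ℝ, 0 < ε →
    ∃ c : ℂ, ∀ j, DifferentiableOn ℂ (u j) (ball c r) ∧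
      ∀ s ∈ ball (0 : ℂ) r, ‖u j (c + s) - Complex.exp (q j s)‖ < ε

/-- The family `u` of meromorphic functions is jointly universal: the translates of every finite
subfamily approximate all tuples of zero-free entire functions on a disc. -/
structure JointlyUniversal {ι : Type} (u : ι → ℂ → ℂ) : Prop where
  mero : ∀ j, Meromorphic (u j)
  approx : ∀ J : Finset ι, UniversalOn fun j : J => u j

end Pool.Agent.X316.ZG
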